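import Pool.Agent.Work.MP_610017_lc.GG.StmtsA
import Pool.Agent.Work.MP_610017_lc.Bd.B03

/-!
# Block GG, item CA: consistent terms are admissible
-/

set_option autoImplicit false

namespace Pool.Agent.Work.MP_610017_lc

namespace ICA

/-- consistency is monotone -/
theorem con_mono {k n : ℕ} {ρ : Res k n} {A B : Finset (Fact k n)} (h : A ⊆ B) (hB : Con ρ B) :
    Con ρ A := by
  obtain ⟨ω, h1, h2, h3⟩ := hB
  exact ⟨ω, h1, h2, fun f hf => h3 f (h hf)⟩

/-- a true fact with an element on a known sheet is decided -/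
theorem setTrue {k n : ℕ} {ρ : Res k n} {ω : GW k n} (hE : Ext ρ ω.β ω.ζ) {f : Fact k n}
    (hf : holds ω f) {p : Vx k × Lb n} (hp : p ∈ touch f)
    (hy : (ρ.β p.1).symm p.2 ∉ ρ.I) : SetTrue ρ f := by
  have hid : (ω.β p.1).symm p.2 = (ρ.β p.1).symm p.2 := by
    rw [Equiv.symm_apply_eq, hE.beta p.1 _ hy, Equiv.apply_symm_apply]
  cases f with
  | edge v w a b =>
    have hh : (ω.β v).symm a = (ω.β w).symm b := hf
    have hp' : p = (v, a) ∨ p = (w, b) := by
      have := hp
      simp only [touch, Finset.mem_insert, Finset.mem_singleton] at this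
      exact this
    rcases hp' with rfl | rfl
    · refine ⟨(ρ.β v).symm a, hy, Equiv.apply_symm_apply _ _, ?_⟩
      have h1 : (ω.β w).symm b = (ρ.β v).symm a := by rw [← hh]; exact hid
      have h2 : b = ω.β w ((ρ.β v).symm a) := by rw [← h1, Equiv.apply_symm_apply]
      rw [h2]
      exact (hE.beta w _ hy).symm
    · refine ⟨(ρ.β w).symm b, hy, ?_, Equiv.apply_symm_apply _ _⟩
      have h1 : (ω.β v).symm a = (ρ.β w).symm b := by rw [hh]; exact hid
      have h2 : a = ω.β v ((ρ.β w).symm b) := by rw [← h1, Equiv.apply_symm_apply]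
      rw [h2]
      exact (hE.beta v _ hy).symm
  | col v a c =>
    have hp' : p = (v, a) := by
      have := hp
      simp only [touch, Finset.mem_singleton] at this
      exact this
    subst hp'
    refine ⟨(ρ.β v).symm a, hy, Equiv.apply_symm_apply _ _, ?_⟩
    have hid' : (ω.β v).symm a = (ρ.β v).symm a := hid
    have hy' : (ρ.β v).symm a ∉ ρ.I := hy
    have h0 : (ρ.β v).symm a ≠ 0 := by
      intro h
      rw [h] at hy'
      exact hy' ρ.zero_mem
    have hh : (if (ω.β v).symm a = 0 then ω.χ v = some c else ω.ζ ((ω.β v).symm a) = c) := hf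
    rw [hid', if_neg h0, hE.zeta _ hy'] at hh
    exact hh

end ICA

theorem pr_CA : G_CA := by
  classical
  intro k n w ρ π F Y hV hc hSB hCon
  have hund : ∀ f ∈ und ρ π F, f ∈ F ∧ ¬ Dec ρ π f := by
    intro f hf
    unfold und at hf
    exact Finset.mem_filter.mp hf
  refine ⟨?_, ?_⟩
  · intro f hf p hp
    by_contra hy
    obtain ⟨ω, hE, -, hH⟩ := hCon
    obtain ⟨hfF, hnd⟩ := hund f hf
    exact hnd (Or.inr (ICA.setTrue hE (hH f (Finset.mem_union_right _ hfF)) hp hy))
  · have hUF : ∀ f ∈ und ρ π F \ rt (und ρ π F) Y, f ∈ F ∧ ¬ Dec ρ π f := fun f hf =>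
      hund f (Finset.mem_sdiff.mp hf).1
    have hsub : und ρ π F \ rt (und ρ π F) Y ⊆ F := fun f hf => (hUF f hf).1
    obtain ⟨G, h1, h2, h3, h4, h5, h6⟩ := prf_Emb prf_NbLevel k n w w ρ π
      (und ρ π F \ rt (und ρ π F) Y) (fun f hf => hV f (hsub hf))
      ((Finset.card_le_card hsub).trans hc) le_rfl hSB
      (ICA.con_mono (Finset.union_subset_union_right hsub) hCon)
    refine ⟨G, h1, h2, h3, h4, fun f hf => h5 f hf (hUF f hf).2, fun g v hv => ?_⟩
    obtain ⟨f, hf, -, hp⟩ := h6 g v hv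
    exact ⟨f, hf, hp⟩

end Pool.Agent.Work.MP_610017_lc
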