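import Mathlib
import Pool.Agent.Work.MP_610017_lc.GG.StmtsA

/-!
# Block GG, item CD: choices exist (MP_610017_lc)
-/

set_option autoImplicit false

namespace Pool.Agent.Work.MP_610017_lc

namespace ICD

theorem touch_card {k n : ℕ} (f : Fact k n) : (touch f).card ≤ 2 := by
  cases f with
  | edge v w a b => exact Finset.card_le_two
  | col v a c =>
      show ({(v, a)} : Finset (Vx k × Lb n)).card ≤ 2
      rw [Finset.card_singleton]
      omega

theorem und_sub {k n : ℕ} (ρ : Res k n) (π F : Finset (Fact k n)) : und ρ π F ⊆ F := by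
  classical
  intro f hf
  unfold und at hf
  exact (Finset.mem_filter.1 hf).1

/-- the indices of the elements of the undecided parts -/
noncomputable def X {k n : ℕ} (ρ : Res k n) (π : Finset (Fact k n))
    (Fs : ℕ → Finset (Fact k n)) (q : ℕ) : Finset (Lb n) :=
  (Finset.range q).biUnion fun j =>
    (und ρ π (Fs j)).biUnion fun f => (touch f).image fun p => (ρ.β p.1).symm p.2

theorem X_card {k n : ℕ} (ρ : Res k n) (π : Finset (Fact k n))
    (Fs : ℕ → Finset (Fact k n)) (w q : ℕ) (h : ∀ j < q, (Fs j).card ≤ w) :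
    (X ρ π Fs q).card ≤ 2 * w * q := by
  have h1 : ∀ j ∈ Finset.range q, ((und ρ π (Fs j)).biUnion fun f =>
      (touch f).image fun p => (ρ.β p.1).symm p.2).card ≤ w * 2 := by
    intro j hj
    have hj' : j < q := Finset.mem_range.1 hj
    refine le_trans (Finset.card_biUnion_le_card_mul _ _ 2 ?_) ?_
    · intro f _
      exact le_trans Finset.card_image_le (touch_card f)
    · exact Nat.mul_le_mul_right 2 (le_trans (Finset.card_le_card (und_sub ρ π (Fs j)))
        (h j hj'))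
  have h2 := Finset.card_biUnion_le_card_mul (Finset.range q) _ (w * 2) h1
  rw [Finset.card_range] at h2
  calc (X ρ π Fs q).card ≤ q * (w * 2) := h2
    _ = 2 * w * q := by ring

theorem mem_X {k n : ℕ} (ρ : Res k n) (π : Finset (Fact k n))
    (Fs : ℕ → Finset (Fact k n)) (q : ℕ) (j : ℕ) (hj : j < q) (f : Fact k n)
    (hf : f ∈ und ρ π (Fs j)) (p : Vx k × Lb n) (hp : p ∈ touch f) :
    (ρ.β p.1).symm p.2 ∈ X ρ π Fs q := by
  unfold X
  rw [Finset.mem_biUnion]
  refine ⟨j, Finset.mem_range.2 hj, ?_⟩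
  rw [Finset.mem_biUnion]
  exact ⟨f, hf, Finset.mem_image.2 ⟨p, hp, rfl⟩⟩

theorem uu_ne {k n : ℕ} (ρ : Res k n) (π : Finset (Fact k n)) (𝓣 : Set (Finset (Fact k n)))
    (w q : ℕ) (o : Finset (Fact k n) → ℕ) (Fs : ℕ → Finset (Fact k n))
    (hc : Chain ρ π 𝓣 w q o Fs) (j : ℕ) (hj : j < q) : (uu ρ π Fs j).Nonempty := by
  rw [Finset.nonempty_iff_ne_empty]
  intro h0
  have h1 : und ρ π (Fs j) ⊆ al ρ π Fs j := by
    have : und ρ π (Fs j) \ al ρ π Fs j = ∅ := h0
    exact Finset.sdiff_eq_empty_iff_subset.1 this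
  have h2 : al ρ π Fs j ⊆ und ρ π (Fs j) := by
    classical
    intro f hf
    unfold al rt at hf
    exact (Finset.mem_filter.1 hf).1
  exact hc.ne j hj (Fs j) (hc.mem j hj).1 (Finset.Subset.antisymm h1 h2)

theorem exJ {k n : ℕ} (w q : ℕ) (ρ : Res k n) (π : Finset (Fact k n))
    (Fs : ℕ → Finset (Fact k n)) (h : ∀ j < q, (Fs j).card ≤ w)
    (hI : 3 * w * q + 1 ≤ ρ.I.card) :
    ∃ J : ℕ → Fin w → Lb n, (∀ j < q, ∀ g, J j g ∈ ρ.I ∧ J j g ≠ 0) ∧
      (∀ j < q, ∀ j' < q, ∀ g g', J j g = J j' g' → j = j' ∧ g = g') ∧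
      (∀ j < q, ∀ g, ∀ j' < q, ∀ f ∈ und ρ π (Fs j'), ∀ p ∈ touch f,
        (ρ.β p.1).symm p.2 ≠ J j g) := by
  classical
  have hX := X_card ρ π Fs w q h
  have hR : w * q ≤ ((ρ.I \ X ρ π Fs q).erase 0).card := by
    have h1 : ρ.I.card - (X ρ π Fs q).card ≤ (ρ.I \ X ρ π Fs q).card :=
      Finset.le_card_sdiff _ _
    have h2 : (ρ.I \ X ρ π Fs q).card - 1 ≤ ((ρ.I \ X ρ π Fs q).erase 0).card :=
      Finset.pred_card_le_card_erase
    have h3 : 3 * w * q = 2 * w * q + w * q := by ring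
    omega
  have hE : Nonempty ((Fin q × Fin w) ↪ ↥((ρ.I \ X ρ π Fs q).erase 0)) := by
    apply Function.Embedding.nonempty_of_card_le
    rw [Fintype.card_prod, Fintype.card_fin, Fintype.card_fin, Fintype.card_coe, Nat.mul_comm]
    exact hR
  obtain ⟨e⟩ := hE
  refine ⟨fun j g => if hj : j < q then (e (⟨j, hj⟩, g)).1 else 0, ?_, ?_, ?_⟩
  · intro j hj g
    have h1 := (e (⟨j, hj⟩, g)).2
    rw [Finset.mem_erase, Finset.mem_sdiff] at h1
    simp only [dif_pos hj]
    exact ⟨h1.2.1, h1.1⟩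
  · intro j hj j' hj' g g' heq
    simp only [dif_pos hj, dif_pos hj'] at heq
    have h1 := e.injective (Subtype.ext heq)
    have h2 := congrArg Prod.fst h1
    have h3 := congrArg Prod.snd h1
    exact ⟨congrArg Fin.val h2, h3⟩
  · intro j hj g j' hj' f hf p hp heq
    have h1 := (e (⟨j, hj⟩, g)).2
    rw [Finset.mem_erase, Finset.mem_sdiff] at h1
    simp only [dif_pos hj] at heq
    apply h1.2.2
    rw [← heq]
    exact mem_X ρ π Fs q j' hj' f hf p hp

end ICD

open ICD in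
theorem pr_CD : G_CD := by
  intro k n w q ρ π 𝓣 o Fs hw hT hc hI
  classical
  obtain ⟨J, hJ1, hJ2, hJ3⟩ := exJ w q ρ π Fs
    (fun j hj => (hT (Fs j) (hc.mem j hj).1).1) hI
  have hG : ∀ j, ∃ G : Fin w → Grp k n, j < q → IsGrp ρ w (uu ρ π Fs j) G := by
    intro j
    by_cases hj : j < q
    · obtain ⟨G, hG⟩ := (hc.mem j hj).2.2.1
      exact ⟨G, fun _ => hG⟩
    · exact ⟨fun _ => ⟨∅, fun _ => 0, true⟩, fun h => absurd h hj⟩
  choose G hG using hG
  have hf : ∀ j, ∃ a : Fin w × Fact k n, j < q → a.2 ∈ uu ρ π Fs j ∧ Carries (G j a.1) a.2 := by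
    intro j
    by_cases hj : j < q
    · obtain ⟨f, hf⟩ := uu_ne ρ π 𝓣 w q o Fs hc j hj
      obtain ⟨g, hg⟩ := (hG j hj).carries f hf
      exact ⟨(g, f), fun _ => ⟨hf, hg⟩⟩
    · exact ⟨(⟨0, hw⟩, Fact.col (crn k) 0 true), fun h => absurd h hj⟩
  choose a ha using hf
  exact ⟨{
    F := Fs
    chain := hc
    G := G
    grp := fun j hj => hG j hj
    J := J
    J_mem := hJ1
    J_inj := hJ2
    J_av := hJ3
    g0 := fun j => (a j).1
    f0 := fun j => (a j).2
    f0_mem := fun j hj => (ha j hj).1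
    f0_car := fun j hj => (ha j hj).2 }⟩

end Pool.Agent.Work.MP_610017_lc
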