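import Pool.Agent.Work.MP_610017_lc.GG.StmtsA

/-!
# MP_610017_lc, block GG, item Cc: the number of codes
-/

set_option autoImplicit false

namespace Pool.Agent.Work.MP_610017_lc

namespace ICc

/-- `Code` as a product -/
def eqv (k n w : ℕ) (I1 : Finset (Lb n)) : Code k n w I1 ≃
    ((Fin w → Option (((Vx k × I1) × (Vx k × I1)) × (Bool × Bool))) × (Fin w → I1) ×
      (Fin w → Bool) × (Fin w → Fin (2 * w) → Option (Vx k × I1)) × Fin w × Fin w) where
  toFun c := (c.A, c.J, c.c, c.S, c.g0, c.pos)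
  invFun x := ⟨x.1, x.2.1, x.2.2.1, x.2.2.2.1, x.2.2.2.2.1, x.2.2.2.2.2⟩
  left_inv _ := rfl
  right_inv _ := rfl

theorem bound {v m w : ℕ} (hw : 1 ≤ w) (hm : 100 * w ≤ m) (hv : v ≤ m) :
    (v * m * (v * m) * (2 * 2) + 1) ^ w * (m ^ w * (2 ^ w * (((v * m + 1) ^ (2 * w)) ^ w *
      (w * w)))) ≤ m ^ (16 * w ^ 2) := by
  have hm100 : 100 ≤ m := by omega
  have h1 : v * m ≤ m ^ 2 := by
    rw [sq]
    exact Nat.mul_le_mul_right m hv
  have h2 : v * m * (v * m) * (2 * 2) + 1 ≤ m ^ 5 := by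
    have e : v * m * (v * m) ≤ m ^ 2 * m ^ 2 := Nat.mul_le_mul h1 h1
    have e2 : m ^ 2 * m ^ 2 = m ^ 4 := by ring
    have e3 : m ^ 5 = m * m ^ 4 := by ring
    have e4 : 100 * m ^ 4 ≤ m * m ^ 4 := Nat.mul_le_mul_right _ hm100
    have e5 : 1 ≤ m ^ 4 := Nat.one_le_pow _ _ (by omega)
    rw [e2] at e
    rw [e3]
    omega
  have h3 : v * m + 1 ≤ m ^ 3 := by
    have e3 : m ^ 3 = m * m ^ 2 := by ring
    have e4 : 100 * m ^ 2 ≤ m * m ^ 2 := Nat.mul_le_mul_right _ hm100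
    have e5 : 1 ≤ m ^ 2 := Nat.one_le_pow _ _ (by omega)
    rw [e3]
    omega
  have h4 : w ≤ m := by omega
  calc (v * m * (v * m) * (2 * 2) + 1) ^ w * (m ^ w * (2 ^ w * (((v * m + 1) ^ (2 * w)) ^ w *
        (w * w))))
      ≤ (m ^ 5) ^ w * (m ^ w * (m ^ w * (((m ^ 3) ^ (2 * w)) ^ w * (m * m)))) := by
        refine Nat.mul_le_mul (Nat.pow_le_pow_left h2 w) (Nat.mul_le_mul le_rfl
          (Nat.mul_le_mul (Nat.pow_le_pow_left (by omega) w) (Nat.mul_le_mul
            (Nat.pow_le_pow_left (Nat.pow_le_pow_left h3 _) _) (Nat.mul_le_mul h4 h4))))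
    _ = m ^ (7 * w + 6 * w ^ 2 + 2) := by
        simp only [← pow_mul]
        rw [show m * m = m ^ 2 by ring]
        simp only [← pow_add]
        congr 1
        ring
    _ ≤ m ^ (16 * w ^ 2) := by
        refine Nat.pow_le_pow_right (by omega) ?_
        have : w * 1 ≤ w * w := Nat.mul_le_mul_left w hw
        rw [sq]
        omega

end ICc

theorem pr_Cc : G_Cc := by
  intro k n w m I1 hw hm hk hI
  refine ⟨Fintype.ofEquiv _ (ICc.eqv k n w I1).symm, ?_⟩
  rw [Fintype.ofEquiv_card]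
  have h := ICc.bound hw hm (v := (k + 1) * (k + 1)) (by rw [← sq]; exact hk)
  simpa only [Fintype.card_prod, Fintype.card_pi_const, Fintype.card_fun, Fintype.card_option,
    Fintype.card_bool, Fintype.card_fin, Fintype.card_coe, hI] using h

end Pool.Agent.Work.MP_610017_lc
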