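import Pool.Agent.Work.MP_610017_lc.GG.StmtsA

/-!
# Block GG, item Cd: codes exist
-/

set_option autoImplicit false

namespace Pool.Agent.Work.MP_610017_lc

namespace ICd

/-- numbering of a small finite set -/
theorem num {α : Type} (s : Finset α) (w : ℕ) (h : s.card ≤ w) :
    ∃ e : Fin w → Option α, ∀ x, x ∈ s ↔ ∃ t, e t = some x := by
  refine ⟨fun t => s.toList[(t : ℕ)]?, fun x => ?_⟩
  rw [← Finset.mem_toList, List.mem_iff_getElem?]
  constructor
  · rintro ⟨m, hm⟩
    obtain ⟨hlt, -⟩ := List.getElem?_eq_some_iff.1 hm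
    rw [Finset.length_toList] at hlt
    exact ⟨⟨m, by omega⟩, hm⟩
  · rintro ⟨t, ht⟩
    exact ⟨t, ht⟩

/-- the position of an element -/
theorem pos {α : Type} (s : Finset α) (w : ℕ) (h : s.card ≤ w) (x : α) (hx : x ∈ s) :
    ∃ t : Fin w, s.toList[(t : ℕ)]? = some x := by
  rw [← Finset.mem_toList, List.mem_iff_getElem?] at hx
  obtain ⟨m, hm⟩ := hx
  obtain ⟨hlt, -⟩ := List.getElem?_eq_some_iff.1 hm
  rw [Finset.length_toList] at hlt
  exact ⟨⟨m, by omega⟩, hm⟩

end ICd

theorem pr_Cd (h : G_K2) : G_Cd := by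
  classical
  intro k n w q ρ π 𝓣 o D i hT hi j hj
  obtain ⟨hK, -, -⟩ := h k n w q ρ π 𝓣 o D i hi j hj
  have hmem := D.chain.mem j hj
  have hFT : D.F j ∈ 𝓣 := hmem.1
  have hFw : (D.F j).card ≤ w := (hT _ hFT).1
  have halF : al ρ π D.F j ⊆ D.F j := by
    intro f hf
    unfold al rt at hf
    have h1 := (Finset.mem_filter.1 hf).1
    unfold und at h1
    exact (Finset.mem_filter.1 h1).1
  have halw : (al ρ π D.F j).card ≤ w := (Finset.card_le_card halF).trans hFw
  -- the indices of the elements of `al`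
  have hel : ∀ f ∈ al ρ π D.F j, ∀ p ∈ touch f, (ρ.β p.1).symm p.2 ∈ ρ.I ∧
      D.bet i j p.1 ((ρ.β p.1).symm p.2) = p.2 := by
    intro f hf p hp
    obtain ⟨h1, h2⟩ := hK p (Or.inr ⟨f, hf, hp⟩)
    refine ⟨?_, ?_⟩
    · unfold CD.Un at h1
      exact (Finset.mem_filter.1 h1).1
    · rw [← h2, Equiv.apply_symm_apply]
  have hcode : ∀ f : Fact k n, ∃ x : ((Vx k × ρ.I) × (Vx k × ρ.I)) × (Bool × Bool),
      f ∈ al ρ π D.F j → f = dF (D.bet i j) x := by
    intro f
    by_cases hf : f ∈ al ρ π D.F j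
    · cases f with
      | edge v u a b =>
        have h1 := hel _ hf (v, a) (by simp [touch])
        have h2 := hel _ hf (u, b) (by simp [touch])
        refine ⟨(((v, ⟨(ρ.β v).symm a, h1.1⟩), (u, ⟨(ρ.β u).symm b, h2.1⟩)), (true, false)),
          fun _ => ?_⟩
        unfold dF
        rw [if_pos rfl]
        have h3 : D.bet i j v ((ρ.β v).symm a) = a := h1.2
        have h4 : D.bet i j u ((ρ.β u).symm b) = b := h2.2
        show Fact.edge v u a b = Fact.edge v u (D.bet i j v ((ρ.β v).symm a))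
          (D.bet i j u ((ρ.β u).symm b))
        rw [h3, h4]
      | col v a c =>
        have h1 := hel _ hf (v, a) (by simp [touch])
        refine ⟨(((v, ⟨(ρ.β v).symm a, h1.1⟩), (v, ⟨(ρ.β v).symm a, h1.1⟩)), (false, c)),
          fun _ => ?_⟩
        unfold dF
        rw [if_neg (by simp)]
        have h3 : D.bet i j v ((ρ.β v).symm a) = a := h1.2
        show Fact.col v a c = Fact.col v (D.bet i j v ((ρ.β v).symm a)) c
        rw [h3]
    · exact ⟨(((crn k, ⟨0, ρ.zero_mem⟩), (crn k, ⟨0, ρ.zero_mem⟩)), (false, false)),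
        fun h => absurd h hf⟩
  choose g hg using hcode
  obtain ⟨e, he⟩ := ICd.num (al ρ π D.F j) w halw
  -- the groups
  have hgrp := D.grp j hj
  have hS : ∀ gg : Fin w, ∃ S : Fin (2 * w) → Option (Vx k × ρ.I), ∀ v (x : ρ.I),
      (∃ t, S t = some (v, x)) ↔ v ∈ (D.G j gg).supp ∧ (x : Lb n) = D.ix v (j, gg) := by
    intro gg
    obtain ⟨e', he'⟩ := ICd.num (D.G j gg).supp (2 * w) (hgrp.card_le gg)
    have hx : ∀ v : Vx k, ∃ x : ρ.I, v ∈ (D.G j gg).supp → (x : Lb n) = D.ix v (j, gg) := by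
      intro v
      by_cases hv : v ∈ (D.G j gg).supp
      · exact ⟨⟨D.ix v (j, gg), hgrp.idx gg v hv⟩, fun _ => rfl⟩
      · exact ⟨⟨0, ρ.zero_mem⟩, fun h => absurd h hv⟩
    choose g2 hg2 using hx
    refine ⟨fun t => (e' t).map fun v => (v, g2 v), fun v x => ?_⟩
    constructor
    · rintro ⟨t, ht⟩
      obtain ⟨v', hv', heq⟩ := Option.map_eq_some_iff.1 ht
      have h1 : v' = v := congrArg Prod.fst heq
      have h2 : g2 v' = x := congrArg Prod.snd heq
      subst h1
      have h3 : v' ∈ (D.G j gg).supp := (he' v').2 ⟨t, hv'⟩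
      exact ⟨h3, by rw [← h2]; exact hg2 v' h3⟩
    · rintro ⟨hv, hx⟩
      obtain ⟨t, ht⟩ := (he' v).1 hv
      refine ⟨t, ?_⟩
      show (e' t).map (fun v => (v, g2 v)) = some (v, x)
      rw [ht]
      have h1 : g2 v = x := Subtype.ext ((hg2 v hv).trans hx.symm)
      simp [h1]
  choose S hS using hS
  -- the position of `f0 j`
  have hf0 : D.f0 j ∈ D.F j := by
    have h1 := D.f0_mem j hj
    unfold uu at h1
    have h2 := (Finset.mem_sdiff.1 h1).1
    unfold und at h2
    exact (Finset.mem_filter.1 h2).1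
  obtain ⟨t0, ht0⟩ := ICd.pos (D.F j) w hFw (D.f0 j) hf0
  refine ⟨{ A := fun t => (e t).map g
            J := fun gg => ⟨D.J j gg, (D.J_mem j hj gg).1⟩
            c := fun gg => ρ.ζ (D.J j gg)
            S := S
            g0 := D.g0 j
            pos := t0 }, ?_⟩
  refine ⟨fun f => ?_, fun _ => rfl, fun _ => rfl, fun gg v x => hS gg v x, rfl, ht0⟩
  constructor
  · intro hf
    obtain ⟨t, ht⟩ := (he f).1 hf
    refine ⟨t, g f, ?_, hg f hf⟩
    show (e t).map g = some (g f)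
    rw [ht]
    rfl
  · rintro ⟨t, x, ht, hfx⟩
    obtain ⟨f', hf', heq⟩ := Option.map_eq_some_iff.1 ht
    have h1 : f' ∈ al ρ π D.F j := (he f').2 ⟨t, hf'⟩
    have h2 : f = f' := by rw [hfx, ← heq, ← hg f' h1]
    rw [h2]
    exact h1

end Pool.Agent.Work.MP_610017_lc
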