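import Pool.Agent.Work.MP_610017_lc.GG.StmtsA

/-!
# Block GG, item Ct: counting the bad extensions
-/

set_option autoImplicit false

namespace Pool.Agent.Work.MP_610017_lc

namespace ICt

theorem ex_code (h2 : G_Cd) {k n w q : ℕ} (I1 : Finset (Lb n)) (ρ : Res k n) (hI : ρ.I = I1)
    (π : Finset (Fact k n)) (𝓣 : Set (Finset (Fact k n))) (o : Finset (Fact k n) → ℕ)
    (D : CD ρ π 𝓣 w q o) (i : ℕ → Lb n) (h𝓣 : ∀ F ∈ 𝓣, F.card ≤ w ∧ ∀ f ∈ F, Valid f)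
    (hi : Inj I1 q i) (j : ℕ) (hj : j < q) : ∃ c : Code k n w I1, IsCode D i j c := by
  subst hI
  exact h2 k n w q ρ π 𝓣 o D i h𝓣 hi j hj

/-- the numbering of an embedding -/
noncomputable def ie {n q : ℕ} (S : Finset (Lb n)) (e : Fin q ↪ {x // x ∈ S}) (a : ℕ) : Lb n :=
  if h : a < q then (e ⟨a, h⟩ : Lb n) else 0

theorem ie_lt {n q : ℕ} (S : Finset (Lb n)) (e : Fin q ↪ {x // x ∈ S}) (a : ℕ) (h : a < q) :
    ie S e a = (e ⟨a, h⟩ : Lb n) := by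
  unfold ie
  rw [dif_pos h]

theorem ie_inj {n q : ℕ} (S I1 : Finset (Lb n)) (hS : ∀ x ∈ S, x ∉ I1)
    (e : Fin q ↪ {x // x ∈ S}) : Inj I1 q (ie S e) := by
  refine ⟨fun a ha => ?_, fun a ha b hb hab => ?_⟩
  · rw [ie_lt S e a ha]
    exact hS _ (e ⟨a, ha⟩).2
  · rw [ie_lt S e a ha, ie_lt S e b hb] at hab
    have := e.injective (Subtype.ext hab)
    exact congrArg Fin.val this

theorem arith (b om cd N m w q : ℕ) (hw : 1 ≤ w) (hm : 2 ≤ m) (hN : 2 * (m + q) ≤ N)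
    (h1 : b * (N - m).descFactorial q ≤ om * cd ^ q) (h2 : cd ≤ m ^ (16 * w ^ 2)) :
    b * N ^ q ≤ om * m ^ (17 * w ^ 2 * q) := by
  have h3 : (N - m + 1 - q) ^ q ≤ (N - m).descFactorial q := Nat.pow_sub_le_descFactorial _ _
  have h4 : N ≤ 2 * (N - m + 1 - q) := by omega
  have h5 : N ^ q ≤ 2 ^ q * (N - m).descFactorial q := by
    calc N ^ q ≤ (2 * (N - m + 1 - q)) ^ q := Nat.pow_le_pow_left h4 q
      _ = 2 ^ q * (N - m + 1 - q) ^ q := mul_pow _ _ _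
      _ ≤ 2 ^ q * (N - m).descFactorial q := Nat.mul_le_mul_left _ h3
  have hw2 : 1 ≤ w ^ 2 := Nat.one_le_pow _ _ hw
  have h6 : 2 ^ q ≤ m ^ (w ^ 2 * q) := by
    calc 2 ^ q ≤ m ^ q := Nat.pow_le_pow_left hm q
      _ ≤ m ^ (w ^ 2 * q) := Nat.pow_le_pow_right (by omega) (Nat.le_mul_of_pos_left q hw2)
  calc b * N ^ q ≤ b * (2 ^ q * (N - m).descFactorial q) := Nat.mul_le_mul_left _ h5
    _ = 2 ^ q * (b * (N - m).descFactorial q) := by ring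
    _ ≤ 2 ^ q * (om * cd ^ q) := Nat.mul_le_mul_left _ h1
    _ ≤ m ^ (w ^ 2 * q) * (om * (m ^ (16 * w ^ 2)) ^ q) :=
        Nat.mul_le_mul h6 (Nat.mul_le_mul_left _ (Nat.pow_le_pow_left h2 q))
    _ = om * (m ^ (w ^ 2 * q) * m ^ (16 * w ^ 2 * q)) := by
        rw [← pow_mul]
        ring
    _ = om * m ^ (17 * w ^ 2 * q) := by
        rw [← pow_add]
        congr 2
        ring

end ICt

open ICt

open Classical in
theorem pr_Ct (h1 : G_CD) (h2 : G_Cd) (h3 : G_Dc) (h4 : G_Cc) (h5 : G_K6) : G_Ct := by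
  intro k n w q m ρ I1 π 𝓣 o ho hw h𝓣 hI h0 hm hm2 hkm hN
  have hw100 : 100 * w ≤ m := by
    refine le_trans ?_ hm2
    exact Nat.le_mul_of_pos_right _ (Nat.succ_pos q)
  have hmq : 3 * w * q + 1 ≤ m := by
    refine le_trans ?_ hm2
    nlinarith
  obtain ⟨_, hcard⟩ := h4 k n w m I1 hw hw100 hkm hm
  -- the choices for the bad extensions
  have hex : ∀ ω : {ω // ω ∈ (Om ρ).filter (BadC I1 π 𝓣 w q o)}, ∃ ρ1 : Res k n,
      ρ1.β = ω.1.1 ∧ ρ1.ζ = ω.1.2 ∧ ρ1.I = I1 ∧ Nonempty (CD ρ1 π 𝓣 w q o) := by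
    rintro ⟨ω, hω⟩
    obtain ⟨-, ρ1, e1, e2, e3, Fs, hFs⟩ := Finset.mem_filter.mp hω
    exact ⟨ρ1, e1, e2, e3, h1 k n w q ρ1 π 𝓣 o Fs hw h𝓣 hFs (by rw [e3, hm]; exact hmq)⟩
  choose r1 hβ hζ hrI hCD using hex
  obtain ⟨S, hS⟩ : ∃ S, S = ρ.I \ I1 := ⟨_, rfl⟩
  have hSI : ∀ x ∈ S, x ∉ I1 := fun x hx => by
    rw [hS] at hx
    exact (Finset.mem_sdiff.mp hx).2
  have hSρ : ∀ x ∈ S, x ∈ ρ.I := fun x hx => by
    rw [hS] at hx
    exact (Finset.mem_sdiff.mp hx).1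
  have hdef : Nonempty (Code k n w I1) :=
    ⟨⟨fun _ => none, fun _ => ⟨0, h0⟩, fun _ => false, fun _ _ => none, ⟨0, hw⟩, ⟨0, hw⟩⟩⟩
  have hcodes : ∀ (ω : {ω // ω ∈ (Om ρ).filter (BadC I1 π 𝓣 w q o)}) (e : Fin q ↪ {x // x ∈ S})
      (j : ℕ), ∃ c : Code k n w I1, j < q → IsCode (hCD ω).some (ie S e) j c := by
    intro ω e j
    by_cases hj : j < q
    · obtain ⟨c, hc⟩ := ex_code h2 I1 (r1 ω) (hrI ω) π 𝓣 o (hCD ω).some (ie S e) h𝓣
        (ie_inj S I1 hSI e) j hj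
      exact ⟨c, fun _ => hc⟩
    · obtain ⟨c⟩ := hdef
      exact ⟨c, fun h => absurd h hj⟩
  choose C hC using hcodes
  have hOm : ∀ (ω : {ω // ω ∈ (Om ρ).filter (BadC I1 π 𝓣 w q o)}) (e : Fin q ↪ {x // x ∈ S}),
      ((hCD ω).some.bet (ie S e) 0, (hCD ω).some.zet (ie S e) 0) ∈ Om ρ := by
    intro ω e
    refine h5 k n w q (r1 ω) ρ π 𝓣 o (hCD ω).some (ie S e) ?_ ?_ ?_ ?_
    · rw [hrI]
      exact ie_inj S I1 hSI e
    · rw [hβ, hζ]
      exact (Finset.mem_filter.mp ω.2).1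
    · rw [hrI]
      exact hI
    · intro a ha
      rw [ie_lt S e a ha]
      exact hSρ _ (e ⟨a, ha⟩).2
  -- the map
  have hinj : Function.Injective (fun x : {ω // ω ∈ (Om ρ).filter (BadC I1 π 𝓣 w q o)} ×
      (Fin q ↪ {x // x ∈ S}) => (((⟨_, hOm x.1 x.2⟩ : {ω // ω ∈ Om ρ}),
        fun j : Fin q => C x.1 x.2 j) : {ω // ω ∈ Om ρ} × (Fin q → Code k n w I1))) := by
    rintro ⟨ω, e⟩ ⟨ω', e'⟩ hxy
    have g1 := congrArg (fun t => t.1.1) hxy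
    have g2 := congrArg (fun t => t.2) hxy
    simp only at g1 g2
    have g3 := (Prod.mk.inj g1).1
    have g4 := (Prod.mk.inj g1).2
    have g5 : ∀ j < q, C ω e j = C ω' e' j := fun j hj => congrFun g2 ⟨j, hj⟩
    obtain ⟨k1, k2, k3⟩ := h3 k n w q I1 (r1 ω) (r1 ω') π 𝓣 o (hCD ω).some (hCD ω').some
      (ie S e) (ie S e') (C ω e) h𝓣 ho (hrI ω) (hrI ω') (ie_inj S I1 hSI e) (ie_inj S I1 hSI e')
      (fun j hj => hC ω e j hj) (fun j hj => by rw [g5 j hj]; exact hC ω' e' j hj) g3 g4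
    have hω : ω = ω' := by
      apply Subtype.ext
      apply Prod.ext
      · rw [← hβ ω, ← hβ ω', k1]
      · rw [← hζ ω, ← hζ ω', k2]
    have he : e = e' := by
      apply DFunLike.ext
      intro a
      apply Subtype.ext
      have := k3 a.1 a.2
      rw [ie_lt S e a.1 a.2, ie_lt S e' a.1 a.2] at this
      exact this
    rw [hω, he]
  have hle := Fintype.card_le_of_injective _ hinj
  rw [Fintype.card_prod, Fintype.card_prod, Fintype.card_coe, Fintype.card_coe,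
    Fintype.card_embedding_eq, Fintype.card_fun, Fintype.card_fin, Fintype.card_coe, hS,
    Finset.card_sdiff_of_subset hI, hm] at hle
  exact arith _ _ _ _ m w q hw (by omega) hN hle hcard

end Pool.Agent.Work.MP_610017_lc
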