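import Pool.Agent.Work.MP_610017_lc.GG.StmtsA

/-!
# Block GG, item Dc: decoding
-/

set_option autoImplicit false

namespace Pool.Agent.Work.MP_610017_lc

namespace IDc

/-- exchange permutations depend only on the values on the set -/
theorem swp_congr {ι : Type} {n : ℕ} (A A' : Set ι) (f f' g g' : ι → Lb n) (hA : A = A')
    (hf : ∀ a ∈ A, f a = f' a) (hg : ∀ a ∈ A, g a = g' a) : swp A f g = swp A' f' g' := by
  subst hA
  have h : IsSwp A f g = IsSwp A f' g' := by
    funext τ
    apply propext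
    constructor
    · intro H
      refine ⟨fun a ha => ?_, fun a ha => ?_, fun x hx => ?_⟩
      · rw [← hf a ha, ← hg a ha]; exact H.left a ha
      · rw [← hf a ha, ← hg a ha]; exact H.right a ha
      · refine H.fix x fun a ha => ?_
        rw [hf a ha, hg a ha]; exact hx a ha
    · intro H
      refine ⟨fun a ha => ?_, fun a ha => ?_, fun x hx => ?_⟩
      · rw [hf a ha, hg a ha]; exact H.left a ha
      · rw [hf a ha, hg a ha]; exact H.right a ha
      · refine H.fix x fun a ha => ?_
        rw [← hf a ha, ← hg a ha]; exact hx a ha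
  unfold swp
  rw [h]

/-- one half of the comparison of the supports and indices -/
theorem ix_half {k n w q : ℕ} {I1 : Finset (Lb n)} {ρ ρ' : Res k n} {π : Finset (Fact k n)}
    {𝓣 : Set (Finset (Fact k n))} {o : Finset (Fact k n) → ℕ} (D : CD ρ π 𝓣 w q o)
    (D' : CD ρ' π 𝓣 w q o) (i i' : ℕ → Lb n) (c : Code k n w I1) (j : ℕ) (hj : j < q)
    (hρ : ρ.I = I1) (hc : IsCode D i j c) (hc' : IsCode D' i' j c) (v : Vx k) (g : Fin w)
    (hv : v ∈ (D.G j g).supp) : v ∈ (D'.G j g).supp ∧ D.ix v (j, g) = D'.ix v (j, g) := by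
  have hx : D.ix v (j, g) ∈ I1 := by
    rw [← hρ]
    exact (D.grp j hj).idx g v hv
  have h1 := (hc.S g v ⟨D.ix v (j, g), hx⟩).mpr ⟨hv, rfl⟩
  exact (hc'.S g v ⟨D.ix v (j, g), hx⟩).mp h1

end IDc

open IDc in
/-- **Dc**: decoding -/
theorem pr_Dc (h3 : G_K4) (h4 : G_K5) : G_Dc := by
  intro k n w q I1 ρ ρ' π 𝓣 o D D' i i' c hT ho hρ hρ' hi hi' hc hc' hb0 hz0
  have hiρ : Inj ρ.I q i := by rw [hρ]; exact hi
  have hiρ' : Inj ρ'.I q i' := by rw [hρ']; exact hi'
  -- the sheets `J` are the same
  have hJ : ∀ a < q, ∀ g, D.J a g = D'.J a g := fun a ha g =>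
    ((hc a ha).J g).symm.trans ((hc' a ha).J g)
  have hUn : ∀ j, D.Un j = D'.Un j := by
    intro j
    classical
    ext x
    simp only [CD.Un, hρ, hρ', Finset.mem_filter]
    constructor
    · rintro ⟨hx, H⟩
      refine ⟨hx, fun a ha1 ha2 => ?_⟩
      rw [← hJ a.1 ha2]
      exact H a ha1 ha2
    · rintro ⟨hx, H⟩
      refine ⟨hx, fun a ha1 ha2 => ?_⟩
      rw [hJ a.1 ha2]
      exact H a ha1 ha2
  obtain ⟨hK1, hK2, hK3, hK4⟩ := h4 k n w q ρ π 𝓣 o D i hiρ
  obtain ⟨hK1', hK2', hK3', hK4'⟩ := h4 k n w q ρ' π 𝓣 o D' i' hiρ'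
  have main : ∀ j ≤ q, D.bet i j = D'.bet i' j ∧ D.zet i j = D'.zet i' j ∧
      ∀ a < j, i a = i' a := by
    intro j
    induction j with
    | zero =>
      intro _
      exact ⟨hb0, hz0, fun a ha => absurd ha (Nat.not_lt_zero a)⟩
    | succ j ih =>
      intro hjq
      have hj : j < q := hjq
      obtain ⟨ihb, ihz, ihi⟩ := ih hj.le
      have hal : al ρ π D.F j = al ρ' π D'.F j := by
        ext f
        rw [(hc j hj).A f, (hc' j hj).A f, ihb]
      obtain ⟨hu, hm, hx⟩ := h3 k n w q ρ π 𝓣 o D i hT hiρ j hj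
      obtain ⟨hu', hm', hx'⟩ := h3 k n w q ρ' π 𝓣 o D' i' hT hiρ' j hj
      have hF : D.F j = D'.F j := by
        apply ho
        apply le_antisymm
        · refine hm (D'.F j) (D'.chain.mem j hj).1 ?_
          rw [ihb, ihz, hUn j, hal]
          exact hu'
        · refine hm' (D.F j) (D.chain.mem j hj).1 ?_
          rw [← ihb, ← ihz, ← hUn j, ← hal]
          exact hu
      have hf0 : D.f0 j = D'.f0 j := by
        have e1 := (hc j hj).pos
        have e2 := (hc' j hj).pos
        rw [hF] at e1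
        exact Option.some.inj (e1.symm.trans e2)
      have hij : i j = i' j := by
        rw [← hx, ← hx', ihb, hf0]
      have hg0 : D.g0 j = D'.g0 j := (hc j hj).g0.symm.trans (hc' j hj).g0
      have hsupp : ∀ v g, v ∈ (D.G j g).supp ↔ v ∈ (D'.G j g).supp := fun v g =>
        ⟨fun h => (ix_half D D' i i' (c j) j hj hρ (hc j hj) (hc' j hj) v g h).1,
          fun h => (ix_half D' D i' i (c j) j hj hρ' (hc' j hj) (hc j hj) v g h).1⟩
      refine ⟨?_, ?_, ?_⟩
      · funext v
        have e1 := hK1 j hj v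
        have e2 := hK1' j hj v
        have hs : swp {g : Fin w | v ∈ (D.G j g).supp} (fun g => D.J j g)
            (fun g => D.ix v (j, g))
            = swp {g : Fin w | v ∈ (D'.G j g).supp} (fun g => D'.J j g)
              (fun g => D'.ix v (j, g)) := by
          apply swp_congr
          · ext g
            exact hsupp v g
          · intro g _
            exact hJ j hj g
          · intro g hg
            exact (ix_half D D' i i' (c j) j hj hρ (hc j hj) (hc' j hj) v g hg).2
        rw [← hs, ← hJ j hj, ← hg0, ← hij, ← ihb, e1] at e2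
        exact mul_right_cancel (mul_right_cancel e2)
      · funext x
        obtain ⟨z1, z2, z3⟩ := hK2 j hj
        obtain ⟨z1', z2', z3'⟩ := hK2' j hj
        by_cases h1 : x = i j
        · rw [h1, z1, hij, z1', ihz, hJ j hj, hg0]
        · by_cases h2 : ∃ g, x = D.J j g
          · obtain ⟨g, hg⟩ := h2
            have ec : ρ.ζ (D.J j g) = ρ'.ζ (D'.J j g) :=
              ((hc j hj).col g).symm.trans ((hc' j hj).col g)
            rw [hg, z2 g, ec, hJ j hj g, z2' g]
          · have h2' : ∀ g, x ≠ D.J j g := fun g hg => h2 ⟨g, hg⟩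
            rw [z3 x h1 h2', ihz, z3' x (by rw [← hij]; exact h1)
              (fun g => by rw [← hJ j hj g]; exact h2' g)]
      · intro a ha
        rcases Nat.lt_succ_iff_lt_or_eq.mp ha with h | h
        · exact ihi a h
        · rw [h]
          exact hij
  obtain ⟨mb, mz, mi⟩ := main q le_rfl
  refine ⟨?_, ?_, mi⟩
  · funext v
    rw [← hK3 v, ← hK3' v, mb]
  · rw [← hK4, ← hK4', mz]

end Pool.Agent.Work.MP_610017_lc
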