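import Pool.Agent.Work.MP_610017_lc.GG.StmtsA

/-!
# Block GG, item K4: the first term with the right undecided part
-/

set_option autoImplicit false

namespace Pool.Agent.Work.MP_610017_lc

namespace IK4

theorem fst1_mem {k n : ℕ} (f : Fact k n) : fst1 f ∈ touch f := by
  cases f with
  | edge v w a b => simp [fst1, touch]
  | col v a c => simp [fst1, touch]

theorem str_idx {k n : ℕ} {β : Vx k → Equiv.Perm (Lb n)} {ζ : Lb n → Bool} {I : Finset (Lb n)}
    {f : Fact k n} (h : STr β ζ I f) : (β (fst1 f).1).symm (fst1 f).2 ∉ I := by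
  cases f with
  | edge v w a b =>
    obtain ⟨y, hy, h1, -⟩ := h
    show (β v).symm a ∉ I
    rw [← h1, Equiv.symm_apply_apply]
    exact hy
  | col v a c =>
    obtain ⟨y, hy, h1, -⟩ := h
    show (β v).symm a ∉ I
    rw [← h1, Equiv.symm_apply_apply]
    exact hy

theorem car_fst {k n : ℕ} {G : Grp k n} {f : Fact k n} (h : Carries G f) :
    (fst1 f).1 ∈ G.supp ∧ G.p (fst1 f).1 = (fst1 f).2 := by
  cases f with
  | edge v w a b => exact ⟨h.1, h.2.2.1⟩
  | col v a c => exact ⟨h.1, h.2.1⟩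

end IK4

/-- K4. -/
theorem pr_K4 (h1 : G_K1) (h2 : G_K2) (h3 : G_K3) (h4 : G_Lb) : G_K4 := by
  classical
  intro k n w q ρ π 𝓣 o D i hT hi j hj
  obtain ⟨h2a, -, -⟩ := h2 k n w q ρ π 𝓣 o D i hi j hj
  refine ⟨?_, ?_, ?_⟩
  · ext f
    obtain ⟨k1, k2, k3, -⟩ := h1 k n w q ρ π 𝓣 o D i hi j f
    constructor
    · intro hf
      unfold unK at hf
      rw [Finset.mem_filter, not_or] at hf
      obtain ⟨hfF, hfπ, hfS⟩ := hf
      by_contra hal
      have hund : f ∈ und ρ π (D.F j) := by
        unfold und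
        rw [Finset.mem_filter]
        refine ⟨hfF, ?_⟩
        rintro (h | h)
        · exact hfπ h
        · exact hfS (k1 h)
      have huu : f ∈ uu ρ π D.F j := by
        unfold uu
        rw [Finset.mem_sdiff]
        exact ⟨hund, hal⟩
      obtain ⟨g, hg⟩ := (D.grp j hj).carries f huu
      exact hfS (k2 (j, g) le_rfl hj (k3 (j, g) hg))
    · intro hf
      have hund : f ∈ und ρ π (D.F j) := by
        unfold al rt at hf
        exact (Finset.mem_filter.1 hf).1
      unfold und at hund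
      rw [Finset.mem_filter] at hund
      unfold unK
      rw [Finset.mem_filter]
      refine ⟨hund.1, ?_⟩
      rintro (h | h)
      · exact hund.2 (Or.inl h)
      · have h5 := IK4.str_idx h
        obtain ⟨h6, h7⟩ := h2a (fst1 f) (Or.inr ⟨f, hf, IK4.fst1_mem f⟩)
        rw [h7] at h5
        exact h5 h6
  · intro F hF hun
    exact D.chain.min j hj F (h3 k n w q ρ π 𝓣 o D i hT hi j hj F hF hun)
  · obtain ⟨hs, hp⟩ := IK4.car_fst (D.f0_car j hj)
    obtain ⟨-, -, l3, -⟩ := h4 k n w q ρ π 𝓣 o D i hi j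
    obtain ⟨-, l4, -⟩ := l3 (j, D.g0 j) le_rfl hj
    have h5 := l4 (fst1 (D.f0 j)).1
    have h6 : D.iy i (j, D.g0 j) = i j := by
      unfold CD.iy
      exact if_pos rfl
    have h7 : D.lab (j, D.g0 j) (fst1 (D.f0 j)).1 = (fst1 (D.f0 j)).2 := by
      unfold CD.lab
      rw [if_pos hs]
      exact hp
    rw [h6, h7] at h5
    rw [← h5, Equiv.symm_apply_apply]

end Pool.Agent.Work.MP_610017_lc
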