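import Pool.Agent.Work.MP_610017_lc.GG.StmtsA

/-!
# Block GG, item K5: one step of the modified worlds
-/

set_option autoImplicit false

namespace Pool.Agent.Work.MP_610017_lc

namespace IK5

variable {k n w q : ℕ} {ρ : Res k n} {π : Finset (Fact k n)} {𝓣 : Set (Finset (Fact k n))}
  {o : Finset (Fact k n) → ℕ}

/-- the exchange of one pair -/
theorem swap_isSwp (f g : ℕ → Lb n) (j : ℕ) : IsSwp {a : ℕ | a = j} f g
    (Equiv.swap (f j) (g j)) := by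
  constructor
  · rintro a rfl
    exact Equiv.swap_apply_left _ _
  · rintro a rfl
    exact Equiv.swap_apply_right _ _
  · intro x hx
    exact Equiv.swap_apply_of_ne_of_ne (hx j rfl).1 (hx j rfl).2

/-- an index `ix` determines the group -/
theorem ix_inj (h2 : G_Sp) (D : CD ρ π 𝓣 w q o) (i : ℕ → Lb n) (hi : Inj ρ.I q i) (j : ℕ)
    (v : Vx k) : ∀ a ∈ D.A j v, ∀ b ∈ D.A j v, D.ix v a = D.ix v b → a = b := by
  obtain ⟨h, -⟩ := h2 k n w q ρ π 𝓣 o D i hi j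
  intro a ha b hb hab
  have h3 := (h v).right a ha
  rw [hab, (h v).right b hb] at h3
  obtain ⟨e1, e2⟩ := D.J_inj b.1 hb.2.1 a.1 ha.2.1 b.2 a.2 h3
  exact (Prod.ext e1 e2).symm

/-- the permutation of the step is an exchange permutation -/
theorem tau1 (h1 : G_Sw) (h2 : G_Sp) (D : CD ρ π 𝓣 w q o) (i : ℕ → Lb n) (hi : Inj ρ.I q i)
    (j : ℕ) (hj : j < q) (v : Vx k) :
    IsSwp {g : Fin w | v ∈ (D.G j g).supp} (fun g => D.J j g) (fun g => D.ix v (j, g))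
      (swp {g : Fin w | v ∈ (D.G j g).supp} (fun g => D.J j g) (fun g => D.ix v (j, g))) := by
  obtain ⟨hSw, -⟩ := h1 n
  obtain ⟨-, -, h3, -⟩ := h2 k n w q ρ π 𝓣 o D i hi j
  have hA : ∀ g : Fin w, v ∈ (D.G j g).supp → (j, g) ∈ D.A j v := fun g hg => ⟨le_refl _, hj, hg⟩
  refine hSw (Fin w) _ _ _ ?_ ?_ ?_
  · intro a _ b _ hab
    exact (D.J_inj j hj j hj a b hab).2
  · intro a ha b hb hab
    have := ix_inj h2 D i hi j v (j, a) (hA a ha) (j, b) (hA b hb) hab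
    exact (Prod.ext_iff.1 this).2
  · intro a ha b hb
    exact (h3 v (j, b) (hA b hb)).2 (j, a) hj

/-- one step for `tau` -/
theorem tau_step (h1 : G_Sw) (h2 : G_Sp) (D : CD ρ π 𝓣 w q o) (i : ℕ → Lb n)
    (hi : Inj ρ.I q i) (j : ℕ) (hj : j < q) (v : Vx k) :
    D.tau j v = D.tau (j + 1) v *
      swp {g : Fin w | v ∈ (D.G j g).supp} (fun g => D.J j g) (fun g => D.ix v (j, g)) := by
  have ht1 := tau1 h1 h2 D i hi j hj v
  obtain ⟨τ₁, hτ⟩ : ∃ τ₁, τ₁ = swp {g : Fin w | v ∈ (D.G j g).supp} (fun g => D.J j g)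
    (fun g => D.ix v (j, g)) := ⟨_, rfl⟩
  rw [← hτ] at ht1 ⊢
  obtain ⟨-, hU, -, hUn, -⟩ := h1 n
  obtain ⟨h3, -, h5, -⟩ := h2 k n w q ρ π 𝓣 o D i hi j
  obtain ⟨h4, -⟩ := h2 k n w q ρ π 𝓣 o D i hi (j + 1)
  have hB : IsSwp {a : ℕ × Fin w | a.1 = j ∧ v ∈ (D.G a.1 a.2).supp} (fun a => D.J a.1 a.2)
      (D.ix v) τ₁ := by
    constructor
    · rintro ⟨a, g⟩ ⟨ha, hg⟩
      simp only at ha
      subst ha
      exact ht1.left g hg
    · rintro ⟨a, g⟩ ⟨ha, hg⟩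
      simp only at ha
      subst ha
      exact ht1.right g hg
    · intro x hx
      exact ht1.fix x fun g hg => hx (j, g) ⟨rfl, hg⟩
  have hsub1 : ∀ a ∈ D.A (j + 1) v, a ∈ D.A j v := fun a ha =>
    ⟨le_trans (Nat.le_succ j) ha.1, ha.2.1, ha.2.2⟩
  have hsub2 : ∀ a ∈ {a : ℕ × Fin w | a.1 = j ∧ v ∈ (D.G a.1 a.2).supp}, a ∈ D.A j v :=
    fun a ha => ⟨ha.1.symm.le, ha.1.symm ▸ hj, ha.2⟩
  have hne : ∀ a ∈ D.A (j + 1) v, ∀ b ∈ {a : ℕ × Fin w | a.1 = j ∧ v ∈ (D.G a.1 a.2).supp},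
      a ≠ b := by
    intro a ha b hb hab
    have e1 : j + 1 ≤ a.1 := ha.1
    have e2 : b.1 = j := hb.1
    rw [hab] at e1
    omega
  have hun := hUn (ℕ × Fin w) (D.A (j + 1) v) _ (fun a => D.J a.1 a.2) (D.ix v) _ _ (h4 v) hB (by
    intro a ha b hb
    refine ⟨?_, ?_, ?_, ?_⟩
    · intro hab
      obtain ⟨e1, e2⟩ := D.J_inj a.1 ha.2.1 b.1 (hsub2 b hb).2.1 a.2 b.2 hab
      exact hne a ha b hb (Prod.ext e1 e2)
    · exact (h5 v b (hsub2 b hb)).2 a ha.2.1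
    · exact fun e => (h5 v a (hsub1 a ha)).2 b (hsub2 b hb).2.1 e.symm
    · exact fun e => hne a ha b hb (ix_inj h2 D i hi j v a (hsub1 a ha) b (hsub2 b hb) e))
  have hset : D.A (j + 1) v ∪ {a : ℕ × Fin w | a.1 = j ∧ v ∈ (D.G a.1 a.2).supp} = D.A j v := by
    ext a
    constructor
    · rintro (ha | ha)
      · exact hsub1 a ha
      · exact hsub2 a ha
    · intro ha
      rcases Nat.eq_or_lt_of_le ha.1 with e | e
      · exact Or.inr ⟨e.symm, ha.2.2⟩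
      · exact Or.inl ⟨e, ha.2.1, ha.2.2⟩
  rw [hset] at hun
  exact hU _ _ _ _ _ _ (h3 v) hun

/-- one step for `sig` -/
theorem sig_step (h1 : G_Sw) (h2 : G_Sp) (D : CD ρ π 𝓣 w q o) (i : ℕ → Lb n)
    (hi : Inj ρ.I q i) (j : ℕ) (hj : j < q) :
    D.sig i j = D.sig i (j + 1) * Equiv.swap (D.J j (D.g0 j)) (i j) := by
  obtain ⟨-, hU, -, hUn, -⟩ := h1 n
  obtain ⟨-, h3, -⟩ := h2 k n w q ρ π 𝓣 o D i hi j
  obtain ⟨-, h4, -⟩ := h2 k n w q ρ π 𝓣 o D i hi (j + 1)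
  have hun := hUn ℕ {a : ℕ | j + 1 ≤ a ∧ a < q} {a : ℕ | a = j} (fun a => D.J a (D.g0 a)) i _ _ h4
    (swap_isSwp (fun a => D.J a (D.g0 a)) i j) (by
      rintro a ⟨ha1, ha2⟩ b rfl
      refine ⟨?_, ?_, ?_, ?_⟩
      · intro e
        have := (D.J_inj a ha2 b hj _ _ e).1
        omega
      · intro e
        exact hi.nmem b hj (e ▸ (D.J_mem a ha2 (D.g0 a)).1)
      · intro e
        exact hi.nmem a ha2 (e.symm ▸ (D.J_mem b hj (D.g0 b)).1)
      · intro e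
        have := hi.inj a ha2 b hj e
        omega)
  have hset : {a : ℕ | j + 1 ≤ a ∧ a < q} ∪ {a : ℕ | a = j} = {a : ℕ | j ≤ a ∧ a < q} := by
    ext a
    constructor
    · rintro (ha | ha)
      · exact ⟨le_trans (Nat.le_succ j) ha.1, ha.2⟩
      · have ha' : a = j := ha
        exact ⟨ha'.symm.le, ha' ▸ hj⟩
    · intro ha
      rcases Nat.eq_or_lt_of_le ha.1 with e | e
      · exact Or.inr e.symm
      · exact Or.inl ⟨e, ha.2⟩
  rw [hset] at hun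
  exact hU _ _ _ _ _ _ h3 hun

/-- `sig (j + 1)` commutes with the permutation of the step -/
theorem sig_comm (h1 : G_Sw) (h2 : G_Sp) (D : CD ρ π 𝓣 w q o) (i : ℕ → Lb n)
    (hi : Inj ρ.I q i) (j : ℕ) (hj : j < q) (v : Vx k) :
    D.sig i (j + 1) *
      swp {g : Fin w | v ∈ (D.G j g).supp} (fun g => D.J j g) (fun g => D.ix v (j, g)) =
    swp {g : Fin w | v ∈ (D.G j g).supp} (fun g => D.J j g) (fun g => D.ix v (j, g)) *
      D.sig i (j + 1) := by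
  have ht1 := tau1 h1 h2 D i hi j hj v
  obtain ⟨-, -, -, -, hC⟩ := h1 n
  obtain ⟨-, -, h5, -⟩ := h2 k n w q ρ π 𝓣 o D i hi j
  obtain ⟨-, h4, -⟩ := h2 k n w q ρ π 𝓣 o D i hi (j + 1)
  have hA : ∀ g : Fin w, v ∈ (D.G j g).supp → (j, g) ∈ D.A j v := fun g hg => ⟨le_refl _, hj, hg⟩
  refine hC ℕ (Fin w) {a : ℕ | j + 1 ≤ a ∧ a < q} {g : Fin w | v ∈ (D.G j g).supp} _ _ _ _ _ _
    h4 ht1 ?_
  rintro a ⟨ha1, ha2⟩ g hg
  refine ⟨?_, ?_, ?_, ?_⟩
  · intro e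
    have := (D.J_inj a ha2 j hj _ _ e).1
    omega
  · exact (h5 v (j, g) (hA g hg)).2 (a, D.g0 a) ha2
  · intro e
    exact hi.nmem a ha2 (e.symm ▸ (D.J_mem j hj g).1)
  · intro e
    exact hi.nmem a ha2 (e.symm ▸ (h5 v (j, g) (hA g hg)).1)

/-- `sig (j + 1)` fixes the sheets `J j g` -/
theorem sig_fixJ (h2 : G_Sp) (D : CD ρ π 𝓣 w q o) (i : ℕ → Lb n)
    (hi : Inj ρ.I q i) (j : ℕ) (hj : j < q) (g : Fin w) :
    D.sig i (j + 1) (D.J j g) = D.J j g := by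
  obtain ⟨-, h4, -⟩ := h2 k n w q ρ π 𝓣 o D i hi (j + 1)
  refine h4.fix _ ?_
  rintro a ⟨ha1, ha2⟩
  constructor
  · intro e
    have := (D.J_inj j hj a ha2 _ _ e).1
    omega
  · intro e
    exact hi.nmem a ha2 (e ▸ (D.J_mem j hj g).1)

/-- `sig (j + 1)` fixes `i j` -/
theorem sig_fixi (h2 : G_Sp) (D : CD ρ π 𝓣 w q o) (i : ℕ → Lb n)
    (hi : Inj ρ.I q i) (j : ℕ) (hj : j < q) : D.sig i (j + 1) (i j) = i j := by
  obtain ⟨-, h4, -⟩ := h2 k n w q ρ π 𝓣 o D i hi (j + 1)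
  refine h4.fix _ ?_
  rintro a ⟨ha1, ha2⟩
  constructor
  · intro e
    exact hi.nmem j hj (e ▸ (D.J_mem a ha2 (D.g0 a)).1)
  · intro e
    have := hi.inj j hj a ha2 e
    omega

/-- `i j` is not one of the sheets `J` -/
theorem i_ne (D : CD ρ π 𝓣 w q o) (i : ℕ → Lb n) (hi : Inj ρ.I q i) (j : ℕ) (hj : j < q)
    (a : ℕ × Fin w) (ha : a.1 < q) : D.J a.1 a.2 ≠ i j := fun e =>
  hi.nmem j hj (e ▸ (D.J_mem a.1 ha a.2).1)

end IK5

open IK5 in
theorem pr_K5 (h1 : G_Sw) (h2 : G_Sp) : G_K5 := by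
  intro k n w q ρ π 𝓣 o D i hi
  refine ⟨?_, ?_, ?_, ?_⟩
  · intro j hj v
    have e1 := tau_step h1 h2 D i hi j hj v
    have e2 := sig_step h1 h2 D i hi j hj
    have e3 := sig_comm h1 h2 D i hi j hj v
    show ρ.β v * D.tau j v * D.sig i j = ρ.β v * D.tau (j + 1) v * D.sig i (j + 1) * _ * _
    rw [e1, e2]
    simp only [mul_assoc]
    rw [← mul_assoc (D.sig i (j + 1)), e3]
    simp only [mul_assoc]
  · intro j hj
    obtain ⟨-, h3, -, h6, h7⟩ := h2 k n w q ρ π 𝓣 o D i hi j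
    obtain ⟨-, h4, -, h8, h9⟩ := h2 k n w q ρ π 𝓣 o D i hi (j + 1)
    refine ⟨?_, ?_, ?_⟩
    · show D.zt (j + 1) (D.sig i (j + 1) (i j)) = D.zt j (D.sig i j (D.J j (D.g0 j)))
      rw [sig_fixi h2 D i hi j hj, h9 _ fun a _ ha => i_ne D i hi j hj a ha]
      have e : D.sig i j (D.J j (D.g0 j)) = i j := h3.left j ⟨le_refl _, hj⟩
      rw [e, h7 _ fun a _ ha => i_ne D i hi j hj a ha]
    · intro g
      show D.zt (j + 1) (D.sig i (j + 1) (D.J j g)) = _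
      rw [sig_fixJ h2 D i hi j hj g]
      refine h9 _ fun a ha1 ha2 e => ?_
      have := (D.J_inj a.1 ha2 j hj _ _ e).1
      omega
    · intro x hx1 hx2
      show D.zt (j + 1) (D.sig i (j + 1) x) = D.zt j (D.sig i j x)
      rw [sig_step h1 h2 D i hi j hj, Equiv.Perm.mul_apply,
        Equiv.swap_apply_of_ne_of_ne (hx2 _) hx1]
      have hy : ∀ g, D.J j g ≠ D.sig i (j + 1) x := by
        intro g e
        rw [← sig_fixJ h2 D i hi j hj g] at e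
        exact hx2 g ((D.sig i (j + 1)).injective e).symm
      by_cases hex : ∃ a : ℕ × Fin w, j + 1 ≤ a.1 ∧ a.1 < q ∧ D.J a.1 a.2 = D.sig i (j + 1) x
      · obtain ⟨a, ha1, ha2, ha3⟩ := hex
        rw [← ha3, h8 a ha1 ha2, h6 a (by omega) ha2]
      · rw [h9 _ fun a ha1 ha2 e => hex ⟨a, ha1, ha2, e⟩, h7 _ ?_]
        rintro ⟨a, g⟩ ha1 ha2 e
        rcases Nat.eq_or_lt_of_le ha1 with e' | e'
        · simp only at e'
          subst e'
          exact hy g e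
        · exact hex ⟨(a, g), e', ha2, e⟩
  · intro v
    obtain ⟨h3, h4, -⟩ := h2 k n w q ρ π 𝓣 o D i hi q
    have e1 : D.tau q v = 1 := by
      apply Equiv.ext
      intro x
      rw [Equiv.Perm.one_apply]
      refine (h3 v).fix x ?_
      rintro a ⟨ha1, ha2, -⟩
      omega
    have e2 : D.sig i q = 1 := by
      apply Equiv.ext
      intro x
      rw [Equiv.Perm.one_apply]
      refine h4.fix x ?_
      rintro a ⟨ha1, ha2⟩
      omega
    show ρ.β v * D.tau q v * D.sig i q = ρ.β v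
    rw [e1, e2, mul_one, mul_one]
  · obtain ⟨-, h4, -, -, h7⟩ := h2 k n w q ρ π 𝓣 o D i hi q
    funext x
    have e2 : D.sig i q x = x := by
      refine h4.fix x ?_
      rintro a ⟨ha1, ha2⟩
      omega
    show D.zt q (D.sig i q x) = ρ.ζ x
    rw [e2]
    refine h7 x fun a ha1 ha2 => ?_
    omega

end Pool.Agent.Work.MP_610017_lc
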