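import Mathlib
import Pool.Agent.Work.MP_610017_lc.GG.StmtsA

/-!
# Block GG, item OS: the tree of one task

Author: helper57.
-/

set_option autoImplicit false

namespace Pool.Agent.Work.MP_610017_lc

namespace IOS

/-- new labels of the leaves, given by the facts of the branch -/
def relab {k n : ℕ} (g : Finset (Fact k n) → Bool) : Tree k n → Finset (Fact k n) → Tree k n
  | .leaf _, acc => .leaf (g acc)
  | .node v a next, acc => .node v a fun b c => relab g (next b c) (acc ∪ star v a b c)

theorem relab_br {k n : ℕ} (g : Finset (Fact k n) → Bool) (T : Tree k n) :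
    ∀ (acc F : Finset (Fact k n)) (r : Bool), Br (relab g T acc) F r →
      (∃ r', Br T F r') ∧ r = g (acc ∪ F) := by
  induction T with
  | leaf r0 =>
    intro acc F r h
    unfold relab at h
    cases h
    exact ⟨⟨r0, Br.leaf _⟩, by rw [Finset.union_empty]⟩
  | node v a next ih =>
    intro acc F r h
    unfold relab at h
    cases h with
    | node _ _ _ b c F' _ hc h' =>
      obtain ⟨⟨r', h1⟩, h2⟩ := ih b c _ _ _ h'
      exact ⟨⟨r', Br.node v a next b c F' r' hc h1⟩, by rw [h2, Finset.union_assoc]⟩

theorem relab_hle {k n : ℕ} (g : Finset (Fact k n) → Bool) (T : Tree k n) :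
    ∀ (acc : Finset (Fact k n)) (h h' : ℕ), h ≤ h' → HLe h T → HLe h' (relab g T acc) := by
  induction T with
  | leaf r0 =>
    intro acc h h' _ _
    unfold relab HLe
    trivial
  | node v a next ih =>
    intro acc h h' hh hT
    cases h with
    | zero => exact absurd hT (by unfold HLe; exact id)
    | succ h =>
      cases h' with
      | zero => omega
      | succ h' =>
        unfold relab
        unfold HLe at hT ⊢
        intro b c
        exact ih b c _ h h' (by omega) (hT b c)

end IOS

open Classical in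
theorem pr_OS (h1 : G_Gr) (h2 : G_Rv) (h3 : G_Nr) : G_OS := by
  intro k n w q ρ π 𝓣 o hT hSB hno
  obtain ⟨Y, hYc, hY⟩ := h1 k n w q ρ π 𝓣 o hT hSB hno
  obtain ⟨Q, hQh, hQ⟩ := h2 k n w Y
  refine ⟨IOS.relab (fun P => decide (∃ F ∈ 𝓣, ∀ f ∈ F, Dec ρ (π ∪ P) f)) Q ∅, ?_, ?_, ?_⟩
  · exact IOS.relab_hle _ Q ∅ _ _ (Nat.mul_le_mul_right _ hYc) hQh
  · intro P hP _
    obtain ⟨-, h5⟩ := IOS.relab_br _ Q _ _ _ hP
    rw [Finset.empty_union] at h5
    exact of_decide_eq_true h5.symm
  · intro P hP F hF hCon
    obtain ⟨⟨r', h4⟩, h5⟩ := IOS.relab_br _ Q _ _ _ hP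
    rw [Finset.empty_union] at h5
    refine (of_decide_eq_false h5.symm) ?_
    obtain ⟨ω, hω1, hω2, hω3⟩ := hCon
    have hCon' : Con ρ (π ∪ F) := by
      refine ⟨ω, hω1, hω2, fun f hf => hω3 f ?_⟩
      rcases Finset.mem_union.1 hf with h | h
      · exact Finset.mem_union_left _ (Finset.mem_union_left _ h)
      · exact Finset.mem_union_right _ h
    obtain ⟨F', hF', hund⟩ := hY F hF hCon'
    have hsub : und ρ π F ⊆ F := by
      unfold und
      exact Finset.filter_subset _ _
    have h6 := h3 k n w ω (und ρ π F) P Y (fun f hf => (hT F hF).2 f (hsub hf))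
      ((Finset.card_le_card hsub).trans (hT F hF).1) (hQ P r' h4)
      (fun f hf => hω3 f (Finset.mem_union_left _ (Finset.mem_union_right _ hf)))
      (fun f hf => hω3 f (Finset.mem_union_right _ (hsub hf)))
    refine ⟨F', hF', fun f hf => ?_⟩
    by_cases hd : Dec ρ π f
    · rcases hd with h | h
      · exact Or.inl (Finset.mem_union_left _ h)
      · exact Or.inr h
    · left
      apply Finset.mem_union_right
      apply h6
      rw [← hund]
      unfold und
      exact Finset.mem_filter.2 ⟨hf, hd⟩

end Pool.Agent.Work.MP_610017_lc
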