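import Pool.Agent.Work.MP_610017_lc.GG.StmtsA
import Pool.Agent.Work.MP_610017_lc.Bd.B02

/-!
# Item Rv of block GG: revealing sheets (helper2)
-/

set_option autoImplicit false

namespace Pool.Agent.Work.MP_610017_lc

namespace IRv

/-- the facts in `F` reveal the label, at the vertex `v`, of the sheet of the element `y` -/
def Rev {k n : ℕ} (F : Finset (Fact k n)) (y : Vx k × Lb n) (v : Vx k) : Prop :=
  ∃ (a : Lb n) (b : Fin 4 → Lb n) (c : Bool), star v a b c ⊆ F ∧
    ∀ ω : GW k n, (∀ f ∈ F, holds ω f) → ω.β v ((ω.β y.1).symm y.2) = a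

theorem Rev_mono {k n : ℕ} {F F' : Finset (Fact k n)} {y : Vx k × Lb n} {v : Vx k} (h : F ⊆ F')
    (hr : Rev F y v) : Rev F' y v := by
  obtain ⟨a, b, c, hs, hw⟩ := hr
  exact ⟨a, b, c, hs.trans h, fun ω hf => hw ω (fun f hf' => hf f (h hf'))⟩

theorem Rev_nb {k n : ℕ} {F : Finset (Fact k n)} {y : Vx k × Lb n} {u : Vx k} (d : Fin 4)
    (hr : Rev F y u) : ∃ x : Lb n, ∀ b' c', Rev (F ∪ star (nb u d) x b' c') y (nb u d) := by
  obtain ⟨a, b, c, hs, hw⟩ := hr
  refine ⟨b d, fun b' c' => ⟨b d, b', c', Finset.subset_union_right, fun ω hf => ?_⟩⟩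
  have h1 : ω.β u ((ω.β y.1).symm y.2) = a :=
    hw ω (fun f hf' => hf f (Finset.mem_union_left _ hf'))
  have hmem : Fact.edge u (nb u d) a (b d) ∈ star u a b c := by
    unfold star
    exact Finset.mem_union_left _ (Finset.mem_union_left _
      (Finset.mem_image.mpr ⟨d, Finset.mem_univ _, rfl⟩))
  have h2 : holds ω (Fact.edge u (nb u d) a (b d)) := hf _ (Finset.mem_union_left _ (hs hmem))
  have h2' : (ω.β u).symm a = (ω.β (nb u d)).symm (b d) := h2
  have h3 : (ω.β u).symm a = (ω.β y.1).symm y.2 := by rw [← h1]; simp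
  rw [h3] at h2'
  rw [h2']; simp

/-- the distance in the grid -/
def Ds {k : ℕ} (v0 v : Vx k) : ℕ :=
  (v.1.val - v0.1.val) + (v0.1.val - v.1.val) + ((v.2.val - v0.2.val) + (v0.2.val - v.2.val))

/-- a tree which reveals the sheet of `y` at all the vertices of a set in which every vertex is
the neighbour of a nearer one -/
theorem walk (hG : S_Graft) {k n : ℕ} (y : Vx k × Lb n) (s : Finset (Vx k)) :
    (∀ v ∈ s, v = y.1 ∨ ∃ u ∈ s, Ds y.1 u < Ds y.1 v ∧ ∃ d, v = nb u d) →
    ∃ T : Tree k n, HLe s.card T ∧ ∀ F b, Br T F b → ∀ v ∈ s, Rev F y v := by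
  classical
  induction s using Finset.induction_on_max_value (Ds y.1) with
  | empty =>
    intro _
    exact ⟨Tree.leaf true, by simp [HLe], fun F b _ v hv => absurd hv (Finset.notMem_empty v)⟩
  | insert a s ha hmax ih =>
    intro hcl
    obtain ⟨Q, hQ1, hQ2⟩ := ih (by
      intro v hv
      rcases hcl v (Finset.mem_insert_of_mem hv) with h | ⟨u, hu, hlt, hd⟩
      · exact Or.inl h
      · rcases Finset.mem_insert.mp hu with rfl | hu
        · exact absurd (hmax v hv) (by omega)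
        · exact Or.inr ⟨u, hu, hlt, hd⟩)
    have key : ∀ F r, Br Q F r → ∃ x : Lb n, ∀ b' c', Rev (F ∪ star a x b' c') y a := by
      intro F r hF
      rcases hcl a (Finset.mem_insert_self a s) with h | ⟨u, hu, hlt, d, hd⟩
      · refine ⟨y.2, fun b' c' => ⟨y.2, b', c', Finset.subset_union_right, fun ω _ => ?_⟩⟩
        rw [h]; simp
      · rcases Finset.mem_insert.mp hu with rfl | hu
        · exact absurd hlt (lt_irrefl _)
        · obtain ⟨x, hx⟩ := Rev_nb d (hQ2 F r hF u hu)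
          rw [← hd] at hx
          exact ⟨x, hx⟩
    obtain ⟨T, hT1, hT2⟩ := hG k n s.card 1 Q
      (fun F T => ∃ x : Lb n, (∀ b' c', Rev (F ∪ star a x b' c') y a) ∧
        T = Tree.node a x (fun _ _ => Tree.leaf true)) hQ1 (by
          intro F r hF
          obtain ⟨x, hx⟩ := key F r hF
          refine ⟨Tree.node a x (fun _ _ => Tree.leaf true), ?_, x, hx, rfl⟩
          intro b c
          simp [HLe])
    refine ⟨T, by rw [Finset.card_insert_of_notMem ha]; exact hT1, fun F r hF v hv => ?_⟩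
    obtain ⟨F1, r1, F2, T2, hB1, ⟨x, hx, rfl⟩, hB2, rfl⟩ := hT2 F r hF
    rcases Finset.mem_insert.mp hv with rfl | hv
    · cases hB2 with
      | node _ _ _ b c F0 _ hc h0 =>
        cases h0
        rw [Finset.union_empty]
        exact hx b c
    · exact Rev_mono Finset.subset_union_left (hQ2 F1 r1 hB1 v hv)

theorem up1_pred {k : ℕ} (x : Fin (k + 1)) (h : 1 ≤ x.val) :
    ∃ z : Fin (k + 1), z.val + 1 = x.val ∧ up1 z = x := by
  refine ⟨⟨x.val - 1, by omega⟩, by simp; omega, ?_⟩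
  apply Fin.ext
  unfold up1
  have := x.isLt
  simp only
  omega

theorem dn1_succ {k : ℕ} (x : Fin (k + 1)) (h : x.val + 1 ≤ k) :
    ∃ z : Fin (k + 1), z.val = x.val + 1 ∧ dn1 z = x := by
  refine ⟨⟨x.val + 1, by omega⟩, rfl, ?_⟩
  apply Fin.ext
  unfold dn1
  simp

/-- the box -/
def Bx1 {k : ℕ} (r : ℕ) (x0 : Fin (k + 1)) : Finset (Fin (k + 1)) :=
  Finset.univ.filter fun x => x.val ≤ x0.val + r ∧ x0.val ≤ x.val + r

theorem Bx1_card {k : ℕ} (r : ℕ) (x0 : Fin (k + 1)) : (Bx1 r x0).card ≤ 2 * r + 1 := by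
  have h1 : ((Bx1 r x0).image Fin.val).card = (Bx1 r x0).card :=
    Finset.card_image_of_injective _ Fin.val_injective
  have h2 : (Bx1 r x0).image Fin.val ⊆ Finset.Icc (x0.val - r) (x0.val + r) := by
    intro m hm
    obtain ⟨x, hx, rfl⟩ := Finset.mem_image.mp hm
    have hx' := (Finset.mem_filter.mp hx).2
    rw [Finset.mem_Icc]
    omega
  have h3 := Finset.card_le_card h2
  rw [h1, Nat.card_Icc] at h3
  omega

theorem one (hG : S_Graft) (hC : S_StarClosed) (hM : S_HLeMono) (k n r : ℕ) (y : Vx k × Lb n) :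
    ∃ T : Tree k n, HLe ((2 * r + 1) ^ 2) T ∧ ∀ P b, Br T P b → RB r {y} P := by
  obtain ⟨T, hT1, hT2⟩ := walk hG y (Bx1 r y.1.1 ×ˢ Bx1 r y.1.2) (by
    intro v hv
    have hv' := Finset.mem_product.mp hv
    have hv1 := (Finset.mem_filter.mp hv'.1).2
    have hv2 := (Finset.mem_filter.mp hv'.2).2
    have hk1 := v.1.isLt
    have hk2 := v.2.isLt
    have hy1 := y.1.1.isLt
    have hy2 := y.1.2.isLt
    rcases lt_trichotomy v.1.val y.1.1.val with h | h | h
    · obtain ⟨z, hz1, hz2⟩ := dn1_succ v.1 (by omega)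
      refine Or.inr ⟨(z, v.2), Finset.mem_product.mpr ⟨?_, hv'.2⟩, ?_, 2, ?_⟩
      · exact Finset.mem_filter.mpr ⟨Finset.mem_univ _, by simp only; omega, by simp only; omega⟩
      · unfold Ds; simp only; omega
      · apply Prod.ext
        · simp [nb, hz2]
        · simp [nb]
    · rcases lt_trichotomy v.2.val y.1.2.val with h' | h' | h'
      · obtain ⟨z, hz1, hz2⟩ := dn1_succ v.2 (by omega)
        refine Or.inr ⟨(v.1, z), Finset.mem_product.mpr ⟨hv'.1, ?_⟩, ?_, 3, ?_⟩
        · exact Finset.mem_filter.mpr ⟨Finset.mem_univ _, by simp only; omega, by simp only; omega⟩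
        · unfold Ds; simp only; omega
        · apply Prod.ext
          · simp [nb]
          · simp [nb, hz2]
      · exact Or.inl (Prod.ext (Fin.ext h) (Fin.ext h'))
      · obtain ⟨z, hz1, hz2⟩ := up1_pred v.2 (by omega)
        refine Or.inr ⟨(v.1, z), Finset.mem_product.mpr ⟨hv'.1, ?_⟩, ?_, 1, ?_⟩
        · exact Finset.mem_filter.mpr ⟨Finset.mem_univ _, by simp only; omega, by simp only; omega⟩
        · unfold Ds; simp only; omega
        · apply Prod.ext
          · simp [nb]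
          · simp [nb, hz2]
    · obtain ⟨z, hz1, hz2⟩ := up1_pred v.1 (by omega)
      refine Or.inr ⟨(z, v.2), Finset.mem_product.mpr ⟨?_, hv'.2⟩, ?_, 0, ?_⟩
      · exact Finset.mem_filter.mpr ⟨Finset.mem_univ _, by simp only; omega, by simp only; omega⟩
      · unfold Ds; simp only; omega
      · apply Prod.ext
        · simp [nb, hz2]
        · simp [nb])
  refine ⟨T, hM k n _ _ T ?_ hT1, fun P b hB => ?_⟩
  · rw [Finset.card_product, pow_two]
    exact Nat.mul_le_mul (Bx1_card r y.1.1) (Bx1_card r y.1.2)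
  · intro ω hP y' hy' u h1 h2 h3 h4 f hval htouch hhold
    rw [Finset.mem_singleton] at hy'
    subst hy'
    obtain ⟨a, b', c, hs, hw⟩ := hT2 P b hB u (Finset.mem_product.mpr
      ⟨Finset.mem_filter.mpr ⟨Finset.mem_univ _, h1, h2⟩,
        Finset.mem_filter.mpr ⟨Finset.mem_univ _, h3, h4⟩⟩)
    rw [hw ω hP] at htouch
    exact hs (hC k n ω u a b' c f (fun g hg => hP g (hs hg)) hval htouch hhold)

theorem main (hG : S_Graft) (hC : S_StarClosed) (hM : S_HLeMono) : G_Rv := by
  classical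
  intro k n r Y
  induction Y using Finset.induction_on with
  | empty =>
    refine ⟨Tree.leaf true, by simp [HLe], fun P b _ => ?_⟩
    intro ω _ y hy
    exact absurd hy (Finset.notMem_empty y)
  | insert y Y hy ih =>
    obtain ⟨Q, hQ1, hQ2⟩ := ih
    obtain ⟨S, hS1, hS2⟩ := one hG hC hM k n r y
    obtain ⟨T, hT1, hT2⟩ := hG k n _ _ Q (fun _ T => T = S) hQ1
      (fun F b _ => ⟨S, hS1, rfl⟩)
    refine ⟨T, ?_, fun P b hB => ?_⟩
    · rw [Finset.card_insert_of_notMem hy, Nat.add_mul, Nat.one_mul]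
      exact hT1
    · obtain ⟨F1, r1, F2, T2, hB1, rfl, hB2, rfl⟩ := hT2 P b hB
      intro ω hP y' hy' u h1 h2 h3 h4 f hval htouch hhold
      rcases Finset.mem_insert.mp hy' with rfl | hy'
      · exact Finset.mem_union_right _ (hS2 F2 b hB2 ω
          (fun g hg => hP g (Finset.mem_union_right _ hg)) y' (Finset.mem_singleton_self _)
          u h1 h2 h3 h4 f hval htouch hhold)
      · exact Finset.mem_union_left _ (hQ2 F1 r1 hB1 ω
          (fun g hg => hP g (Finset.mem_union_left _ hg)) y' hy'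
          u h1 h2 h3 h4 f hval htouch hhold)

end IRv

/-- [Rv] -/
theorem pr_Rv : G_Rv := IRv.main prf_Graft prf_StarClosed prf_HLeMono

end Pool.Agent.Work.MP_610017_lc
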