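import Mathlib
import Pool.Agent.Work.MP_610017_lc.GG.I_Rt
import Pool.Agent.Work.MP_610017_lc.GG.I_CA
import Pool.Agent.Work.MP_610017_lc.GG.I_Gr
import Pool.Agent.Work.MP_610017_lc.GG.I_Rv
import Pool.Agent.Work.MP_610017_lc.GG.I_Nr
import Pool.Agent.Work.MP_610017_lc.GG.I_OS
import Pool.Agent.Work.MP_610017_lc.GG.I_Sw
import Pool.Agent.Work.MP_610017_lc.GG.I_CD
import Pool.Agent.Work.MP_610017_lc.GG.I_Df
import Pool.Agent.Work.MP_610017_lc.GG.I_Sp
import Pool.Agent.Work.MP_610017_lc.GG.I_Lb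
import Pool.Agent.Work.MP_610017_lc.GG.I_K1
import Pool.Agent.Work.MP_610017_lc.GG.I_K2
import Pool.Agent.Work.MP_610017_lc.GG.I_K3
import Pool.Agent.Work.MP_610017_lc.GG.I_K4
import Pool.Agent.Work.MP_610017_lc.GG.I_K5
import Pool.Agent.Work.MP_610017_lc.GG.I_K6
import Pool.Agent.Work.MP_610017_lc.GG.I_Cd
import Pool.Agent.Work.MP_610017_lc.GG.I_Dc
import Pool.Agent.Work.MP_610017_lc.GG.I_Cc
import Pool.Agent.Work.MP_610017_lc.GG.I_Ct
import Pool.Agent.Work.MP_610017_lc.GG.I_Ht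
import Pool.Agent.Work.MP_610017_lc.GG.I_OR

/-!
# Block GG, part A: assembly of the OR lemma (MP_610017_lc)
-/

set_option autoImplicit false

namespace Pool.Agent.Work.MP_610017_lc

theorem all_Df : G_Df := pr_Df pr_Rt

theorem all_Sp : G_Sp := pr_Sp pr_Sw all_Df

theorem all_Lb : G_Lb := pr_Lb all_Sp

theorem all_K1 : G_K1 := pr_K1 all_Lb

theorem all_K2 : G_K2 := pr_K2 all_Df all_Lb

theorem all_K3 : G_K3 := pr_K3 pr_Rt all_K1 all_K2

theorem all_K4 : G_K4 := pr_K4 all_K1 all_K2 all_K3 all_Lb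

theorem all_K5 : G_K5 := pr_K5 pr_Sw all_Sp

theorem all_K6 : G_K6 := pr_K6 all_Lb

theorem all_Cd : G_Cd := pr_Cd all_K2

theorem all_Dc : G_Dc := pr_Dc all_K4 all_K5

theorem all_Ct : G_Ct := pr_Ct pr_CD all_Cd all_Dc pr_Cc all_K6

theorem all_Ht : G_Ht := pr_Ht all_Ct

theorem all_OS : G_OS := pr_OS (pr_Gr pr_CA pr_Rt) pr_Rv pr_Nr

/-- the OR lemma with polynomial dependence on the height -/
theorem all_OR : G_OR := pr_OR1 all_Ht all_OS

end Pool.Agent.Work.MP_610017_lc
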