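import Mathlib
import Pool.Agent.Work.MP_610017_lc.GG.StmtsA

/-!
# Block GG, part B: trees for formulas, the scale `s`. Statements with proofs (helper27)

Item `X`: statement `G_X`, file `GG/I_X.lean`, theorem `pr_X`, namespace `Pool.Agent.Work.MP_610017_lc`. Import `Bd/B03.lean` for the landed lemmas.
-/

set_option autoImplicit false

namespace Pool.Agent.Work.MP_610017_lc

open Filter

/-- existence of trees for the formula `φ` at the scale `s`: for assignments bounded by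
`(n+1)^(s^J)` there are trees of height `s^c` after a restriction from `m^(s^a)` to `m` sheets -/
def ExG {v : ℕ} (φ : Gm v) : Prop := ∀ J b : ℕ, ∃ c a : ℕ, ∀ (k n m s : ℕ) (ρ : Res k n),
  2 ≤ s → s ^ c ≤ m → (k + 1) ^ 2 ≤ m → ρ.I.card = m ^ (s ^ a) →
  n + 1 ≤ (m ^ (s ^ a)) ^ (s ^ b) → ∃ ρ' : Res k n, ρ'.Le ρ ∧ ρ'.I.card = m ∧
    ∀ e : Fin v → ℕ, (∀ j, e j ≤ (n + 1) ^ (s ^ J)) → ∃ T, Rep ρ' (s ^ c) φ e T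

/-- [Sh] (EASY) fewer unknown sheets: `ρ' = (ρ.β, ρ.ζ, I')` with `0 ∈ I' ⊆ ρ.I`, `|I'| = m` (`Finset.exists_subsuperset_card_eq`). -/
def G_Sh : Prop := ∀ (k n m : ℕ) (ρ : Res k n), 1 ≤ m → m ≤ ρ.I.card →
  ∃ ρ' : Res k n, ρ'.Le ρ ∧ ρ'.I.card = m

/-- [TB] (EASY) values of terms at the scale `s`. `prf_TmBound` (`S_TmBound`) with `J = 1` and `b^(s^J)` in place of `b`: `t ≤ (b^(s^J))^J₁ = b^(s^J J₁) ≤ b^(s^(J + J₁))`, as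
`J₁ ≤ 2^J₁ ≤ s^J₁`. -/
def G_TB : Prop := ∀ (v : ℕ) (t : Tm v) (J : ℕ), ∃ J' : ℕ, ∀ (b s : ℕ) (e : Fin v → ℕ),
  2 ≤ b → 2 ≤ s → (∀ j, e j ≤ b ^ (s ^ J)) → t.val stdN e ≤ b ^ (s ^ J')

/-- [EA] (EASY) atomic formulas: `c = 1`, `a = 0`: `ρ'` from `G_Sh` (`m ≥ s ≥ 2`; `m ≤ m^(s^0)`), the tree is the leaf, or `relTree` of height `≤ 1`. USES: `pr_EA (h : G_Sh) : G_EA`. -/
def G_EA : Prop := ∀ v : ℕ, (∀ s t : Tm v, ExG (.eq s t)) ∧ (∀ s t : Tm v, ExG (.le s t)) ∧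
  ∀ t : Fin 5 → Tm v, ExG (.rel t)

/-- [EN] (EASY-MEDIUM) negation and conjunction. `neg`: flip the tree. `and`: let `(c₁, a₁)` be given for `φ`, `(J, b)` and `(c₂, a₂)` for `ψ`, `(J, a₁ + b)`; `a = a₁ + a₂`,
`c = max c₁ c₂ + 1`. First `φ` with `m^(s^a₂)` in place of `m`: `m^(s^a) = (m^(s^a₂))^(s^a₁)`, `m ≤ m^(s^a₂)`. Then `ψ` for the new restriction with `m`: `n + 1 ≤ (m^(s^a))^(s^b) =
(m^(s^a₂))^(s^(a₁+b))`. The trees for `φ` are trees for the second restriction (`pf_RepMono`), `andT` has height `≤ s^c₁ + s^c₂ ≤ s^c` (`S_BrAnd`: `prf_BrAnd`; `pf_RepHLe`). -/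
def G_EN : Prop := ∀ v : ℕ, (∀ φ : Gm v, ExG φ → ExG (.neg φ)) ∧
  ∀ φ ψ : Gm v, ExG φ → ExG ψ → ExG (.and φ ψ)

/-- [EB] (MEDIUM) bounded quantifier; compare `Exist_core`, `Exist_all` in `Bd/B02.lean`. Let `J₁` be given by `G_TB` for `t`, `J`; `(c₁, a₁)` by `ExG φ` for `(max J J₁, b)`. Let
`w = s^c₁`, `b'' = a₁ + b + J + v + 2`, `B = s^b''`, `a₂ = 2 c₁ + 12`, `a = a₁ + a₂`, `c = 5 c₁ + b'' + 30`. First `φ` with `m₁ = m^(s^a₂)`: `ρ₁`, `|ρ₁.I| = m₁`. Then `G_OR` for `ρ₁`, `m`,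
tasks `e : Fin v → Fin ((n+1)^(s^J) + 1)`, `M e = t.val stdN e ≤ (n+1)^(s^J₁)`, `Tx e x` a tree for `φ` at `Fin.cons x e` in `ρ₁` (height `≤ s^c₁`, `pf_RepHLe`). Conditions: `10^6 B w³ ≤ s^(20 + b'' + 3 c₁) ≤ s^c ≤ m`;
`m^(4000 w²) ≤ m^(s^a₂)` as `4000 ≤ 2^12`; `n + 1 ≤ (m^(s^a))^(s^b) = m₁^(s^(a₁+b)) ≤ m₁^B`; number of tasks `((n+1)^(s^J) + 1)^v ≤ ((n+1)^(s^J+1))^v ≤ m₁^B` (`n + 1 ≥ m ≥ 2`). `OrRep` has height `10^7 B w⁵ ≤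
s^(24 + b'' + 5 c₁) ≤ s^c` (`prf_HLeMono`; see `RepMono_orRep`), trees for `φ` in `ρ'` with height `s^c` by `pf_RepMono`. USES: `pr_EB (h1 : G_OR) (h2 : G_TB) : G_EB`. -/
def G_EB : Prop := ∀ (v : ℕ) (t : Tm v) (φ : Gm (v + 1)), ExG φ → ExG (.bex t φ)

/-- [EI] (MEDIUM) the constructor `ind`, as `G_EB`: `M e = e 0`, trees `andT (Tx x) (Tx (x+1)).flip` of height `≤ 2 s^c₁ ≤ s^(c₁+1) = w`, where `Tx x` is a tree for `φ` at `Fin.cons x (Fin.tail e)` for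
`x ≤ e 0 + 1 ≤ (n+1)^(s^(J+1))` (`n + 1 ≥ m ≥ 2`), `ExG φ` for `(J + 1, b)`. USES: `pr_EI (h1 : G_OR) : G_EI`. -/
def G_EI : Prop := ∀ (v : ℕ) (φ : Gm (v + 1)), ExG φ → ExG (.ind φ)

/-- all formulas (assembly by the captain) -/
def G_Ex : Prop := ∀ (v : ℕ) (φ : Gm v), ExG φ

theorem pr_Ex (h1 : G_EA) (h2 : G_EN) (h3 : G_EB) (h4 : G_EI) : G_Ex := by
  intro v φ
  induction φ with
  | eq s t => exact (h1 _).1 s t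
  | le s t => exact (h1 _).2.1 s t
  | rel t => exact (h1 _).2.2 t
  | neg φ ih => exact (h2 _).1 φ ih
  | and φ ψ ih1 ih2 => exact (h2 _).2 φ ψ ih1 ih2
  | bex t φ ih => exact h3 _ t φ ih
  | ind φ ih => exact h4 _ φ ih

/-! ## The sequence of restrictions -/

/-- a sequence of restrictions with scales `sc` -/
structure SG where
  kk : ℕ → ℕ
  nn : ℕ → ℕ
  sc : ℕ → ℕ
  ρ : ∀ i, Res (kk i) (nn i)
  le_nn : ∀ i, i ≤ nn i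
  pow_le : ∀ i, 2 ^ kk i ≤ nn i + 1
  two_le : ∀ i, 2 ≤ sc i
  le_sc : ∀ i, i ≤ sc i
  sc_kk : ∀ c : ℕ, ∀ᶠ i in atTop, sc i ^ c ≤ kk i
  sc_I : ∀ c : ℕ, ∀ᶠ i in atTop, sc i ^ c ≤ (ρ i).I.card
  ex : ∀ (v : ℕ) (φ : Gm v) (J : ℕ), ∃ c : ℕ, ∀ᶠ i in atTop, ∀ e : Fin v → ℕ,
    (∀ j, e j ≤ (nn i + 1) ^ (sc i ^ J)) → ∃ T, Rep (ρ i) (sc i ^ c) φ e T

/-- [SA] (EASY-MEDIUM) arithmetic. `c = 2 A + 3`. Suppose `m < (k+1)²`. Then `2^k ≤ n + 1 < (m+1)^(s^A) ≤ ((k+1)²)^(s^A) = (k+1)^t`, `t = 2 s^A`, `t² = 4 s^(2A) ≤ s^c ≤ k`. Let `r = Nat.sqrt k`: `t ≤ r`, and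
`k + 1 ≤ 2^r` for `k ≥ k0` (e.g. `k + 1 ≤ (r+1)² ≤ 2^r` for `r ≥ 6`). So `(k+1)^t ≤ 2^(r t) ≤ 2^(r²) ≤ 2^k`, a contradiction. -/
def G_SA : Prop := ∀ A : ℕ, ∃ c k0 : ℕ, ∀ s k n m : ℕ, k0 ≤ k → 2 ≤ s → s ^ c ≤ k →
  2 ^ k ≤ n + 1 → n + 1 < (m + 1) ^ (s ^ A) → (k + 1) ^ 2 ≤ m

/-- [SQ] (MEDIUM) the sequence; compare `gen_seq` in `General.lean`. Enumerate the pairs (formula, `J`) (`prf_Countable`, `exists_surjective_nat`): `p j`. Recursively `b_j = a_0 + .. + a_(j-1) + 1` and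
`(c_j, a_j)` given by `G_Ex` for `p j`, `(J, b_j)`. For a given `i` let `A = a_0 + .. + a_i`, `x` large (see below), `n + 1 = x`, `k = h x`, `s = g x` and `m` the largest number with `m^(s^A) ≤ n + 1` (`Nat.findGreatest`, or
`Nat.nthRoot`; so `n + 1 < (m+1)^(s^A)`). By `G_SA`, for large `x`, `(k+1)² ≤ m` (`2^k ≤ x`, `s^c ≤ k` by the hypothesis on `h`, `k → ∞` as `k ≥ s = g x → ∞`). Start: the top restriction (`Seq_top k n` in `Bd/B02`, `n + 1` sheets) reduced to `m^(s^A)` sheets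
(`G_Sh`). Step `j ≤ i`: from `m^(s^(a_j + .. + a_i))` to `m_j = m^(s^(a_(j+1) + .. + a_i))` sheets by `G_Ex` for `p j` with `m_j` in place of `m`: `s^c_j ≤ k ≤ m ≤ m_j` for large `x`, and `n + 1 < (m+1)^(s^A) ≤ (m²)^(s^A) ≤
m^(s^(A+1)) = (m_j^(s^a_j))^(s^b_j)` (exponents: `a_j + .. + a_i + b_j = A + 1`). The trees of the earlier steps are kept (`pf_RepMono`). So for every `i` there are
`k, n, s, ρ` with `i ≤ n`, `i ≤ s`, `2 ≤ s`, `2^k ≤ n + 1`, `s^i ≤ k`, `|ρ.I| = m ≥ (k+1)² ≥ s^i` and the trees for `p j`, `j ≤ i`. Note `s^c ≤ s^i` for `c ≤ i`. USES: `pr_SQ (h1 : G_Ex) (h2 : G_Sh) (h3 : G_SA) : G_SQ`. -/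
def G_SQ : Prop := ∀ g h : ℕ → ℕ, Tendsto g atTop atTop →
  (∀ J, ∃ x0, ∀ x, x0 ≤ x → g x ^ J ≤ h x) → (∀ x, 1 ≤ x → 2 ^ h x ≤ x) →
  ∃ s : SG, ∀ i, s.kk i = h (s.nn i + 1) ∧ s.sc i = g (s.nn i + 1)

end Pool.Agent.Work.MP_610017_lc
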