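import Mathlib
import Pool.Agent.Work.MP_610017_lc.Model
import Pool.Agent.Work.MP_610017_lc.GG.StmtsB

/-!
# Block GG, part C: formulas decided by facts, generic data. Statements with proofs (helper27)

Item `X`: statement `G_X`, file `GG/I_X.lean`, theorem `pr_X`, namespace `Pool.Agent.Work.MP_610017_lc`. Import `Bd/B03.lean` for the landed lemmas.

`F` is a consistent set of valid facts; a formula is true (false) if a branch with label `true` (`false`) of one of its trees consists of facts decided by `F`.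
If all facts of `F` hold in a covering `ω` which extends `ρ` with `ω.χ = spec`, then so does every fact `f` with `Dec ρ F f` (`SetTrue ρ f`: the sheet `i ∉ ρ.I` is the same in
`ω`, `i ≠ 0`).
-/

set_option autoImplicit false

namespace Pool.Agent.Work.MP_610017_lc

open Filter

/-! ## 1. Truth decided by facts -/

/-- true, decided by `F` -/
def Tru {k n : ℕ} (ρ : Res k n) (F : Finset (Fact k n)) (h : ℕ) {v : ℕ} (φ : Gm v)
    (e : Fin v → ℕ) : Prop :=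
  ∃ T P, Rep ρ h φ e T ∧ Br T P true ∧ ∀ f ∈ P, Dec ρ F f

/-- false, decided by `F` -/
def Fls {k n : ℕ} (ρ : Res k n) (F : Finset (Fact k n)) (h : ℕ) {v : ℕ} (φ : Gm v)
    (e : Fin v → ℕ) : Prop :=
  ∃ T P, Rep ρ h φ e T ∧ Br T P false ∧ ∀ f ∈ P, Dec ρ F f

/-- the atomic formula `R t` is true, decided by `F` -/
def TruR {k n : ℕ} (ρ : Res k n) (F : Finset (Fact k n)) (t : Fin 5 → ℕ) : Prop :=
  ∃ P, Br (relTree k n t) P true ∧ ∀ f ∈ P, Dec ρ F f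

/-- the atomic formula `R t` is false, decided by `F` -/
def FlsR {k n : ℕ} (ρ : Res k n) (F : Finset (Fact k n)) (t : Fin 5 → ℕ) : Prop :=
  ∃ P, Br (relTree k n t) P false ∧ ∀ f ∈ P, Dec ρ F f

/-- [TM] (EASY) (1), (2) monotonicity (`pf_RepMono` with `ρ' = ρ`; `Round_le_refl` in `Bd/B02` is `ρ.Le ρ`). (3) negation: `T.flip` (`prf_BrFlip`; `flip` of `flip`). (4) conjunction of true formulas and
conversely, (5) falsity (`prf_BrAnd`): for a false conjunction the branch is a false branch of `T1` or a true one of `T1` and a false one of `T2`; conversely the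
other formula needs some tree. (6) atomic formulas by definition. -/
def G_TM : Prop := ∀ (k n : ℕ) (ρ : Res k n) (F F' : Finset (Fact k n)) (h h' v : ℕ)
  (φ ψ : Gm v) (e : Fin v → ℕ),
  (F ⊆ F' → h ≤ h' → Tru ρ F h φ e → Tru ρ F' h' φ e) ∧
  (F ⊆ F' → h ≤ h' → Fls ρ F h φ e → Fls ρ F' h' φ e) ∧
  ((Tru ρ F h (.neg φ) e ↔ Fls ρ F h φ e) ∧ (Fls ρ F h (.neg φ) e ↔ Tru ρ F h φ e)) ∧
  ((Tru ρ F h (.and φ ψ) e → Tru ρ F h φ e ∧ Tru ρ F h ψ e) ∧
    (Fls ρ F h (.and φ ψ) e → Fls ρ F h φ e ∨ Fls ρ F h ψ e)) ∧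
  ∀ t : Fin 5 → Tm v,
    (Tru ρ F h (.rel t) e → TruR ρ F (fun i => (t i).val stdN e)) ∧
    (Fls ρ F h (.rel t) e → FlsR ρ F (fun i => (t i).val stdN e))

/-- [TD] (EASY) one more tree can be decided: `pf_Ext` gives a branch `P` with `Con ρ (F ∪ P)`, `F' = F ∪ P` (`pf_BrBasic`: at most `9 h` valid facts). Consequence for formulas:
`pf_RepHLe`. -/
def G_TD : Prop := ∀ (k n : ℕ) (ρ : Res k n) (F : Finset (Fact k n)) (h : ℕ),
  (∀ f ∈ F, Valid f) → Con ρ F → 2 * (F.card + 9 * h) + 3 ≤ k → F.card + 9 * h + 3 ≤ ρ.I.card →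
  (∀ T : Tree k n, HLe h T → ∃ F', F ⊆ F' ∧ F'.card ≤ F.card + 9 * h ∧ (∀ f ∈ F', Valid f) ∧
    Con ρ F' ∧ ∃ P r, Br T P r ∧ P ⊆ F') ∧
  ∀ (v : ℕ) (φ : Gm v) (e : Fin v → ℕ) (T : Tree k n), Rep ρ h φ e T →
    ∃ F', F ⊆ F' ∧ F'.card ≤ F.card + 9 * h ∧ (∀ f ∈ F', Valid f) ∧ Con ρ F' ∧
      (Tru ρ F' h φ e ∨ Fls ρ F' h φ e)

/-- [TU] (MEDIUM) no formula is true and false. Induction on `φ`. `eq`, `le`: both trees are the same leaf. `rel`: both branches are branches of `relTree`, and their facts hold in the same covering `ω`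
(`prf_BrUnique`). `neg`, `and`: `G_TM`. `bex t ψ`: let `T`, `T'` be the trees, `P`, `P'` the branches (labels `true`, `false`), `ω` a witness of `Con ρ F`; all facts of `P` hold in `ω`, so `Con ρ P` and (`OrRep`
of `T`) there are `x ≤ t` and a true branch of `Tx x` with facts decided by `P`, so by `F`: `Tru ρ F h ψ (cons x e)`. `G_TD` for the tree `Tx' x` belonging to `T'` (height `≤ h`, `pf_RepHLe`) gives
`F' ⊇ F` and a branch `Q ⊆ F'` of `Tx' x`. If its label is `true`: `P' ∪ Q` is consistent (a witness of `Con ρ F'`), against the second half of `OrRep` for `T'`. If it is `false`: `Fls ρ F' h ψ (cons x e)`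
and `Tru ρ F' h ψ (cons x e)`, against the induction hypothesis for `F'` (`|F'| ≤ |F| + 9 h`; `D = 10 D₁ + 100`). `ind ψ`: the same with the trees `andT (Tx x) (Tx (x+1)).flip`: a true branch of it
gives `Tru ρ F h ψ (cons x _)` and `Fls ρ F h ψ (cons (x+1) _)` (`prf_BrAnd`, `prf_BrFlip`); a false one of `andT (Tx' x) (Tx' (x+1)).flip` (height `≤ 2 h`) gives `Fls` for `x` or `Tru` for `x + 1`.
USES: `pr_TU (h1 : G_TM) (h2 : G_TD) : G_TU`. -/
def G_TU : Prop := ∀ (v : ℕ) (φ : Gm v), ∃ D : ℕ, ∀ (k n : ℕ) (ρ : Res k n)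
  (F : Finset (Fact k n)) (h : ℕ) (e : Fin v → ℕ), (∀ f ∈ F, Valid f) → Con ρ F →
  D * (F.card + h + 1) ≤ k → D * (F.card + h + 1) ≤ ρ.I.card →
  ¬ (Tru ρ F h φ e ∧ Fls ρ F h φ e)

/-- a witness for the formulas with a quantifier -/
def Wit {k n : ℕ} (ρ : Res k n) (F : Finset (Fact k n)) (h : ℕ) :
    {v : ℕ} → Gm v → (Fin v → ℕ) → ℕ → Prop
  | _, .bex t ψ, e, x => x ≤ t.val stdN e ∧ Tru ρ F h ψ (Fin.cons x e)
  | _, .ind ψ, e, x => x ≤ e 0 ∧ Tru ρ F h ψ (Fin.cons x (Fin.tail e)) ∧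
      Fls ρ F h ψ (Fin.cons (x + 1) (Fin.tail e))
  | _, _, _, _ => True

/-- [TW] (EASY-MEDIUM) true formulas have a witness: `OrRep`, first half (`Con ρ P` because the facts of `P` hold in a witness of `Con ρ F`); for `ind`: `prf_BrAnd`, `prf_BrFlip`. Other formulas: `x = 0`. -/
def G_TW : Prop := ∀ (k n : ℕ) (ρ : Res k n) (F : Finset (Fact k n)) (h v : ℕ) (φ : Gm v)
  (e : Fin v → ℕ), Con ρ F → Tru ρ F h φ e → ∃ x, Wit ρ F h φ e x

/-- [TX] (MEDIUM) false formulas have no witness, and the finite induction principle. (1) as in the proof of `G_TU`: decide the tree `Tx x` belonging to the false branch (`G_TD`): label `true` contradicts `OrRep`,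
label `false` contradicts `G_TU` for `ψ` (`φ = bex t ψ`) in `F'`; for `ind` use `andT (Tx x) (Tx (x+1)).flip`, a false branch gives `Fls` at `x` or `Tru` at `x + 1`. (2) Let `T`, `F0` be the tree and the false branch for `ind ψ`, `Tx` its family
(height `≤ h`). `G_TD` for `Tx 0`: `F₁ ⊇ F` with a branch `Fz ⊆ F₁`, its label is `true` by `G_TU`; then for `Tx (e 0)`: `F₂ ⊇ F₁`, branch `Fa ⊆ F₂`, label `false` by `G_TU`. A witness of `Con ρ F₂`
shows `Con ρ (F0 ∪ Fa ∪ Fz)`. Now `pf_FinInd` (`S_FinInd`) with `a = e 0`. USES: `pr_TX (h1 : G_TM) (h2 : G_TD) (h3 : G_TU) : G_TX`. -/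
def G_TX : Prop := ∀ (v : ℕ),
  (∀ (t : Tm v) (ψ : Gm (v + 1)), ∃ D : ℕ, ∀ (k n : ℕ) (ρ : Res k n) (F : Finset (Fact k n))
    (h : ℕ) (e : Fin v → ℕ), (∀ f ∈ F, Valid f) → Con ρ F →
    D * (F.card + h + 1) ≤ k → D * (F.card + h + 1) ≤ ρ.I.card → Fls ρ F h (.bex t ψ) e →
    ∀ x, ¬ Wit ρ F h (.bex t ψ) e x) ∧
  ∀ ψ : Gm (v + 1), ∃ D : ℕ, ∀ (k n : ℕ) (ρ : Res k n) (F : Finset (Fact k n)) (h : ℕ)
    (e : Fin (v + 1) → ℕ), (∀ f ∈ F, Valid f) → Con ρ F →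
    D * (F.card + h + 1) ≤ k → D * (F.card + h + 1) ≤ ρ.I.card → Fls ρ F h (.ind ψ) e →
    (∀ x, ¬ Wit ρ F h (.ind ψ) e x) ∧
    ¬ (Tru ρ F h ψ (Fin.cons 0 (Fin.tail e)) ∧ Fls ρ F h ψ e)

/-- [TL] (MEDIUM) formulas without `R` have their true value. Induction on `φ`. `eq`, `le`: the tree is `leaf (decide ..)`. `neg`, `and`: `G_TM`. `bex t ψ` true: `G_TW` gives `x ≤ t` with `Tru` of `ψ` at `cons x e`, so `ψ.sat` there.
False, and `x ≤ t`, `ψ.sat stdN (cons x e)`: decide the tree `Tx x` of the false branch as in `G_TU` (`G_TD`, `F' ⊇ F`): label `true` contradicts `OrRep`; label `false`: `Fls ρ F' h ψ.toGm (cons x e)`, so `¬ ψ.sat` by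
the induction hypothesis for `F'`. USES: `pr_TL (h1 : G_TM) (h2 : G_TD) (h3 : G_TW) : G_TL`. -/
def G_TL : Prop := ∀ (v : ℕ) (φ : Fm v), φ.RFree → ∃ D : ℕ, ∀ (k n : ℕ) (ρ : Res k n)
  (F : Finset (Fact k n)) (h : ℕ) (e : Fin v → ℕ), (∀ f ∈ F, Valid f) → Con ρ F →
  D * (F.card + h + 1) ≤ k → D * (F.card + h + 1) ≤ ρ.I.card →
  (Tru ρ F h φ.toGm e → φ.sat stdN e) ∧ (Fls ρ F h φ.toGm e → ¬ φ.sat stdN e)

/-! ## 2. The relations in a covering -/

/-- `b` is the right neighbour of `a` -/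
def hW {k n : ℕ} (ω : GW k n) (x y a b : ℕ) : Prop :=
  x < k ∧ y ≤ k ∧ a ≤ n ∧ b ≤ n ∧
    ω.β (Fin.ofNat (k + 1) (x + 1), Fin.ofNat (k + 1) y)
      ((ω.β (Fin.ofNat (k + 1) x, Fin.ofNat (k + 1) y)).symm (Fin.ofNat (n + 1) a)) =
      Fin.ofNat (n + 1) b

/-- `b` is the upper neighbour of `a` -/
def uW {k n : ℕ} (ω : GW k n) (x y a b : ℕ) : Prop :=
  x ≤ k ∧ y < k ∧ a ≤ n ∧ b ≤ n ∧
    ω.β (Fin.ofNat (k + 1) x, Fin.ofNat (k + 1) (y + 1))
      ((ω.β (Fin.ofNat (k + 1) x, Fin.ofNat (k + 1) y)).symm (Fin.ofNat (n + 1) a)) =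
      Fin.ofNat (n + 1) b

/-- the range of the colour relation -/
def inC (k n x y a : ℕ) : Prop :=
  x ≤ k ∧ y ≤ k ∧ a ≤ n ∧ (x = 0 ∨ x = k ∨ y = 0 ∨ y = k) ∧ ¬ (x = 0 ∧ y = 0)

/-- the colour of `(x, y, a)` is `c` -/
def cW {k n : ℕ} (ω : GW k n) (c : Bool) (x y a : ℕ) : Prop :=
  inC k n x y a ∧
    if (ω.β (Fin.ofNat (k + 1) x, Fin.ofNat (k + 1) y)).symm (Fin.ofNat (n + 1) a) = 0 then
      spec ((Fin.ofNat (k + 1) x, Fin.ofNat (k + 1) y) : Vx k) = some c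
    else ω.ζ ((ω.β (Fin.ofNat (k + 1) x, Fin.ofNat (k + 1) y)).symm (Fin.ofNat (n + 1) a)) = c

/-- [TC] (EASY-MEDIUM) decided atomic formulas. Out of range `relTree` is the leaf `false` (`t 0 ≠ 3`). In range it is a node with query `(x, y), a`, a branch is `star v a b c ∪ ∅`, its facts hold in `ω` (note at the top of the file), and the
label is `decide (b 0 = ..)`, `decide (b 1 = ..)`, `c`: for `H`: `nb v 0 = (x+1, y)` as `x < k`, the fact `edge v (nb v 0) a (b 0)` gives `b 0 = ω.β (nb v 0) ((ω.β v).symm a)`. Colour: `bd v = true`, so `col v a c ∈ star`, and `holds`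
is the statement. Compare `Rels_evH`, `Rels_evU`, `Rels_evC`, `Rels_bd`, `Rels_up1` in `Bd/B03.lean`. -/
def G_TC : Prop := ∀ (k n : ℕ) (ρ : Res k n) (F : Finset (Fact k n)) (ω : GW k n) (x y a b : ℕ),
  Ext ρ ω.β ω.ζ → ω.χ = spec → (∀ f ∈ F, holds ω f) →
  ((TruR ρ F ![0, x, y, a, b] → hW ω x y a b) ∧ (FlsR ρ F ![0, x, y, a, b] → ¬ hW ω x y a b)) ∧
  ((TruR ρ F ![1, x, y, a, b] → uW ω x y a b) ∧ (FlsR ρ F ![1, x, y, a, b] → ¬ uW ω x y a b)) ∧
  (TruR ρ F ![2, x, y, a, 0] → cW ω true x y a) ∧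
  (FlsR ρ F ![2, x, y, a, 0] → inC k n x y a → cW ω false x y a)

/-- [TH] (EASY-MEDIUM) neighbours can be found. `G_TD` for the tree `.node v a (fun _ _ => .leaf true)`, `v = (x, y)`: a branch `star v a b c ⊆ F'`; then `b 0` (for `U`: `b 1`) is the neighbour: the same facts are a branch with label `true` of
`relTree k n ![0, x, y, a, (b 0).val]`. USES: `pr_TH (h : G_TD) : G_TH`. -/
def G_TH : Prop := ∀ (k n : ℕ) (ρ : Res k n) (F : Finset (Fact k n)), (∀ f ∈ F, Valid f) →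
  Con ρ F → 2 * (F.card + 9) + 3 ≤ k → F.card + 12 ≤ ρ.I.card → ∀ x y a : ℕ, a ≤ n →
  (x < k → y ≤ k → ∃ F', F ⊆ F' ∧ F'.card ≤ F.card + 9 ∧ (∀ f ∈ F', Valid f) ∧ Con ρ F' ∧
    ∃ b, b ≤ n ∧ TruR ρ F' ![0, x, y, a, b]) ∧
  (x ≤ k → y < k → ∃ F', F ⊆ F' ∧ F'.card ≤ F.card + 9 ∧ (∀ f ∈ F', Valid f) ∧ Con ρ F' ∧
    ∃ b, b ≤ n ∧ TruR ρ F' ![1, x, y, a, b])

/-! ## 3. Generic data -/

/-- sequences bounded by `(n+1)^(s^J)` -/
def Bd (s : SG) (x : ℕ → ℕ) : Prop := ∃ J : ℕ, ∀ᶠ i in atTop, x i ≤ (s.nn i + 1) ^ (s.sc i ^ J)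

/-- functions which preserve these bounds -/
def SBd (s : SG) (f : ℕ → ℕ → ℕ → ℕ) : Prop := ∀ J : ℕ, ∃ J' : ℕ, ∀ᶠ i in atTop, ∀ a b : ℕ,
  a ≤ (s.nn i + 1) ^ (s.sc i ^ J) → b ≤ (s.nn i + 1) ^ (s.sc i ^ J) →
  f i a b ≤ (s.nn i + 1) ^ (s.sc i ^ J')

/-- a family of sets of facts -/
abbrev Fam (s : SG) : Type := ∀ i, Finset (Fact (s.kk i) (s.nn i))

/-- valid and consistent -/
structure OkF (s : SG) (F : Fam s) : Prop where
  valid : ∀ i, ∀ f ∈ F i, Valid f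
  con : ∀ i, Con (s.ρ i) (F i)

/-- at most `s^c` facts -/
def Small (s : SG) (F : Fam s) : Prop := ∃ c : ℕ, ∀ᶠ i in atTop, (F i).card ≤ s.sc i ^ c

/-- much room for further facts -/
def Room (s : SG) (F : Fam s) : Prop := ∀ c : ℕ, ∀ᶠ i in atTop,
  s.sc i ^ c * ((F i).card + s.sc i ^ c) ≤ s.kk i ∧
  s.sc i ^ c * ((F i).card + s.sc i ^ c) ≤ (s.ρ i).I.card

/-- a requirement: for every tuple `r` of bounded sequences a bounded sequence `x` such that `P r x F` -/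
structure Req (s : SG) where
  v : ℕ
  P : (Fin v → ℕ → ℕ) → (ℕ → ℕ) → Fam s → Prop
  mono : ∀ r x F F', P r x F → (∀ᶠ i in atTop, F i ⊆ F' i) → P r x F'
  ful : ∀ r F, (∀ j, Bd s (r j)) → OkF s F → Small s F →
    ∃ x F', Bd s x ∧ OkF s F' ∧ Small s F' ∧ (∀ i, F i ⊆ F' i) ∧ P r x F'

/-- [GN] (MEDIUM) countably many requirements are fulfilled by a countable set of sequences and one family of facts. States: `(X, F)` with `X : ℕ → ℕ → ℕ` (all `X l` bounded), `F` ok and small. Start: `X = 0`, `F = ∅`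
(`Con ρ ∅`: the covering `(ρ.β, ρ.ζ, spec)`). Tasks `(j, idx)`, `idx : Fin (Q j).v → ℕ`, are countably many; let `p : ℕ → tasks` be surjective and at stage `l` treat the task `p (l.unpair.1)` (so every task is treated at infinitely many stages): `ful` for
`r = X ∘ idx` gives `x`, `F'`; the new state is `(Function.update X l x, F')`. Let `X_l`, `F_l` be the states, `x_l = X_(l+1) l` (constant from then on: `X_m l = x_l` for `m > l`), `C = {x_l}`. For `r` with values in `C`, `r = x ∘ idx`, take a stage `l >` all `idx`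
at which `(j, idx)` is treated: `P r x_l F_(l+1)`. `F_l i` is increasing in `l`. Diagonal: for every `l` and all large `i` we have `s^l (|F_l i| + s^l) ≤ kk i, |I|` (`sc_kk`, `sc_I`, `Small`); let `L i` be the largest `l ≤ i` such that
this holds for all `l' ≤ l` (or `0`), `F i = F_(L i) i`. Then `L i → ∞`, so `F_l i ⊆ F i` for large `i` (`mono`), and `Room`: for `c` and large `i`, `L i ≥ c`. -/
def G_GN : Prop := ∀ (s : SG) (Q : ℕ → Req s), ∃ (C : Set (ℕ → ℕ)) (F : Fam s),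
  (∀ x ∈ C, Bd s x) ∧ OkF s F ∧ Room s F ∧
  ∀ (j : ℕ) (r : Fin (Q j).v → ℕ → ℕ), (∀ l, r l ∈ C) → ∃ x ∈ C, (Q j).P r x F

/-- the requirement for a formula: it is decided, with a witness -/
def PR (s : SG) {v : ℕ} (φ : Gm v) (r : Fin v → ℕ → ℕ) (x : ℕ → ℕ) (F : Fam s) : Prop :=
  ∃ c : ℕ, ∀ᶠ i in atTop,
    (Tru (s.ρ i) (F i) (s.sc i ^ c) φ (fun j => r j i) ∧
      Wit (s.ρ i) (F i) (s.sc i ^ c) φ (fun j => r j i) (x i)) ∨
    Fls (s.ρ i) (F i) (s.sc i ^ c) φ (fun j => r j i)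

/-- [RF] (MEDIUM) this is a requirement. Monotonicity: `G_TM` (`Wit` is monotone as well). Fulfilment: all `r j ≤ (n+1)^(s^J)` for large `i`; `SG.ex` gives `c` and trees `T i` for `φ` at `r i` of height `s^c`; for large `i` there is room for `G_TD` (`Small`,
`sc_kk`, `sc_I`), so there is `F' i ⊇ F i` with at most `|F i| + 9 s^c` facts and `Tru` or `Fls`; `F' i = F i` for the other `i`. If `Tru`, `x i` is a witness (`G_TW`), otherwise `x i = 0`. Bounded: `x i ≤ t.val (r i)` (`G_TB`) or `x i ≤ r 0 i`, in the other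
cases take `x = 0` (there `Wit` is `True`). USES: `pr_RF (h1 : G_TM) (h2 : G_TD) (h3 : G_TW) (h4 : G_TB) : G_RF`. -/
def G_RF : Prop := ∀ (s : SG) (v : ℕ) (φ : Gm v),
  (∀ r x F F', PR s φ r x F → (∀ᶠ i in atTop, F i ⊆ F' i) → PR s φ r x F') ∧
  ∀ (r : Fin v → ℕ → ℕ) (F : Fam s), (∀ j, Bd s (r j)) → OkF s F → Small s F →
    ∃ x F', Bd s x ∧ OkF s F' ∧ Small s F' ∧ (∀ i, F i ⊆ F' i) ∧ PR s φ r x F'

/-- generic data, closed under the functions `ff j` -/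
structure GD (s : SG) (ff : ℕ → ℕ → ℕ → ℕ → ℕ) where
  C : Set (ℕ → ℕ)
  F : Fam s
  bd : ∀ x ∈ C, Bd s x
  ok : OkF s F
  room : Room s F
  form : ∀ (v : ℕ) (φ : Gm v) (r : Fin v → ℕ → ℕ), (∀ j, r j ∈ C) → ∃ x ∈ C, PR s φ r x F
  const : ∀ c : ℕ, (fun _ => c) ∈ C
  add : ∀ x ∈ C, ∀ y ∈ C, (fun i => x i + y i) ∈ C
  mul : ∀ x ∈ C, ∀ y ∈ C, (fun i => x i * y i) ∈ C
  sub : ∀ x ∈ C, ∀ y ∈ C, (fun i => x i - y i) ∈ C
  nn_mem : (fun i => s.nn i + 1) ∈ C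
  kk_mem : s.kk ∈ C
  op : ∀ j, ∀ x ∈ C, ∀ y ∈ C, (fun i => ff j i (x i) (y i)) ∈ C

/-- [GX] (MEDIUM) generic data exist. `G_GN` for a sequence `Q` of requirements which contains: for every `(v, φ)` (countably many, `prf_Countable`) the requirement `PR s φ` (`G_RF`); for every `f` in the countable list `const c`, `+`, `*`, `-`, `nn + 1`, `kk`, `ff j` (as functions
`ℕ → ℕ → ℕ → ℕ` of `i, a, b`, all `SBd`: `a + b ≤ 2 (n+1)^(s^J)`, `a b ≤ (n+1)^(2 s^J)`, `c ≤ 2^c ≤ (n+1)^(s^c)`, `kk i ≤ n + 1`) the requirement with two arguments `P r x F := x = fun i => f i (r 0 i) (r 1 i)` (`F' = F`). Constants need a member of `C` as argument: the requirement for a formula with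
`v = 0` (e.g. `eq zero zero`) shows that `C` is not empty. USES: `pr_GX (h1 : G_GN) (h2 : G_RF) : G_GX`. -/
def G_GX : Prop := ∀ (s : SG) (ff : ℕ → ℕ → ℕ → ℕ → ℕ), (∀ j, SBd s (ff j)) → Nonempty (GD s ff)

/-! ## 4. Powers -/

/-- [GB] (MEDIUM) codes of the sequences `x^0, .., x^l`. `d = (l+1)! (x+1)^l`, moduli `m_i = 1 + (i+1) d`, `i ≤ l`: pairwise coprime (a prime `p` dividing `m_i` and `m_j` divides `(j - i) d`, so it divides `d`, as `j - i ≤ l` divides `(l+1)!`; so it divides `1`), `x^i ≤ (x+1)^l ≤ d < m_i`. Chinese remainder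
theorem (`Nat.chineseRemainderOfFinset` or `..OfList`): `c < ∏ m_i ≤ (1 + (l+1) d)^(l+1)`. Choose for every `x`, `l`. -/
def G_GB : Prop := ∃ cf df : ℕ → ℕ → ℕ,
  (∀ x l i : ℕ, i ≤ l → cf x l % (1 + (i + 1) * df x l) = x ^ i) ∧
  (∀ x l : ℕ, df x l ≤ (l + 1).factorial * (x + 1) ^ l) ∧
  ∀ x l : ℕ, cf x l ≤ (1 + (l + 1) * df x l) ^ (l + 1)

/-- the functions for the generic data -/
def ffS (g : ℕ → ℕ) (cf df : ℕ → ℕ → ℕ) : ℕ → ℕ → ℕ → ℕ → ℕ
  | 0, _, a, _ => g a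
  | 1, _, a, b => a ^ min b (g a)
  | 2, _, a, _ => cf a (g a)
  | _, _, a, _ => df a (g a)

/-- [BO] (MEDIUM) these functions preserve the bounds. Let `B = n + 1`, `σ = s^J`, `a, b ≤ B^σ`. `g a ≤ g (B^(g(B)^J)) ≤ g(B)^J' = s^J'` for large `i` (monotone; `B ≥ x0` as `nn i ≥ i`), and `s^J' ≤ kk i ≤ B` for large `i`. `a^(min b (g a)) ≤ max 1 a ^ (s^J') ≤ B^(s^(J+J'))`. With `l = g a`, `l + 1 ≤ s^(J'+1) ≤ B`
for large `i`: `(l+1)! ≤ (l+1)^(l+1) ≤ B^(s^(J'+1))`, `(a+1)^l ≤ B^((s^J+1) s^J')`; so `df ≤ B^(s^J₁)`, `cf ≤ (1 + (l+1) df)^(l+1) ≤ B^(s^J₂)`. -/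
def G_BO : Prop := ∀ (s : SG) (g : ℕ → ℕ) (cf df : ℕ → ℕ → ℕ), Monotone g →
  (∀ J, ∃ J' x0, ∀ x, x0 ≤ x → g (x ^ (g x ^ J)) ≤ g x ^ J') →
  (∀ i, s.sc i = g (s.nn i + 1)) →
  (∀ x l : ℕ, df x l ≤ (l + 1).factorial * (x + 1) ^ l) →
  (∀ x l : ℕ, cf x l ≤ (1 + (l + 1) * df x l) ^ (l + 1)) → ∀ j, SBd s (ffS g cf df j)

end Pool.Agent.Work.MP_610017_lc
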