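import Mathlib
import Pool.Agent.Work.MP_610017_lc.Bd.B03
import Pool.Agent.Work.MP_610017_lc.GG.StmtsC

/-!
# Block GG, item TM (helper27), with basic lemmas on decided facts
-/

set_option autoImplicit false

namespace Pool.Agent.Work.MP_610017_lc

namespace ITM

theorem dec_mono {k n : ℕ} {ρ : Res k n} {F F' : Finset (Fact k n)} (h : F ⊆ F') {f : Fact k n}
    (hf : Dec ρ F f) : Dec ρ F' f := hf.imp (fun h1 => h h1) id

theorem dec_trans {k n : ℕ} {ρ : Res k n} {F P : Finset (Fact k n)} (h : ∀ f ∈ P, Dec ρ F f)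
    {f : Fact k n} (hf : Dec ρ P f) : Dec ρ F f := by
  rcases hf with h1 | h1
  · exact h f h1
  · exact Or.inr h1

theorem dec_union {k n : ℕ} {ρ : Res k n} {F P Q : Finset (Fact k n)} (h : ∀ f ∈ P, Dec ρ F f)
    (h' : ∀ f ∈ Q, Dec ρ F f) : ∀ f ∈ P ∪ Q, Dec ρ F f := by
  intro f hf
  rcases Finset.mem_union.1 hf with h1 | h1
  · exact h f h1
  · exact h' f h1

theorem setTrue_holds {k n : ℕ} {ρ : Res k n} {ω : GW k n} (hE : Ext ρ ω.β ω.ζ) {f : Fact k n}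
    (hf : SetTrue ρ f) : holds ω f := by
  cases f with
  | edge v w a b =>
    obtain ⟨i, hi, h1, h2⟩ := hf
    show (ω.β v).symm a = (ω.β w).symm b
    rw [← h1, ← h2, ← hE.beta v i hi, ← hE.beta w i hi, Equiv.symm_apply_apply,
      Equiv.symm_apply_apply]
  | col v a c =>
    obtain ⟨i, hi, h1, h2⟩ := hf
    show if (ω.β v).symm a = 0 then ω.χ v = some c else ω.ζ ((ω.β v).symm a) = c
    have h3 : (ω.β v).symm a = i := by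
      rw [← h1, ← hE.beta v i hi, Equiv.symm_apply_apply]
    have h4 : i ≠ 0 := fun h => hi (h ▸ ρ.zero_mem)
    rw [h3, if_neg h4, hE.zeta i hi]
    exact h2

theorem dec_holds {k n : ℕ} {ρ : Res k n} {ω : GW k n} (hE : Ext ρ ω.β ω.ζ)
    {F : Finset (Fact k n)} (hF : ∀ f ∈ F, holds ω f) {f : Fact k n} (hf : Dec ρ F f) :
    holds ω f := by
  rcases hf with h1 | h1
  · exact hF f h1
  · exact setTrue_holds hE h1

theorem con_of_dec {k n : ℕ} {ρ : Res k n} {F P : Finset (Fact k n)} (hC : Con ρ F)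
    (h : ∀ f ∈ P, Dec ρ F f) : Con ρ P := by
  obtain ⟨ω, h1, h2, h3⟩ := hC
  exact ⟨ω, h1, h2, fun f hf => dec_holds h1 h3 (h f hf)⟩

theorem unique {k n : ℕ} {ρ : Res k n} {F : Finset (Fact k n)} (hC : Con ρ F) {T : Tree k n}
    {P Q : Finset (Fact k n)} {r r' : Bool} (h1 : Br T P r) (h2 : Br T Q r')
    (hP : ∀ f ∈ P, Dec ρ F f) (hQ : ∀ f ∈ Q, Dec ρ F f) : P = Q ∧ r = r' := by
  obtain ⟨ω, h3, _, h5⟩ := hC
  exact prf_BrUnique k n ω T P Q r r' h1 h2 (fun f hf => dec_holds h3 h5 (hP f hf))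
    (fun f hf => dec_holds h3 h5 (hQ f hf))

theorem rep_mono {k n : ℕ} {ρ : Res k n} {h h' v : ℕ} {φ : Gm v} {e : Fin v → ℕ} {T : Tree k n}
    (hh : h ≤ h') (hT : Rep ρ h φ e T) : Rep ρ h' φ e T :=
  pf_RepMono k n ρ ρ h h' v φ e T (Round_le_refl ρ) hh hT

end ITM

open ITM in
theorem pr_TM : G_TM := by
  intro k n ρ F F' h h' v φ ψ e
  refine ⟨?_, ?_, ⟨⟨?_, ?_⟩, ?_, ?_⟩, ⟨?_, ?_⟩, fun t => ⟨?_, ?_⟩⟩
  · rintro hF hh ⟨T, P, h1, h2, h3⟩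
    exact ⟨T, P, rep_mono hh h1, h2, fun f hf => dec_mono hF (h3 f hf)⟩
  · rintro hF hh ⟨T, P, h1, h2, h3⟩
    exact ⟨T, P, rep_mono hh h1, h2, fun f hf => dec_mono hF (h3 f hf)⟩
  · rintro ⟨T, P, ⟨T1, rfl, h1⟩, h2, h3⟩
    exact ⟨T1, P, h1, by simpa using ((prf_BrFlip k n T1).1 P true).1 h2, h3⟩
  · rintro ⟨T, P, h1, h2, h3⟩
    exact ⟨T.flip, P, ⟨T, rfl, h1⟩, ((prf_BrFlip k n T).1 P true).2 (by simpa using h2), h3⟩
  · rintro ⟨T, P, ⟨T1, rfl, h1⟩, h2, h3⟩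
    exact ⟨T1, P, h1, by simpa using ((prf_BrFlip k n T1).1 P false).1 h2, h3⟩
  · rintro ⟨T, P, h1, h2, h3⟩
    exact ⟨T.flip, P, ⟨T, rfl, h1⟩, ((prf_BrFlip k n T).1 P false).2 (by simpa using h2), h3⟩
  · rintro ⟨T, P, ⟨_, T1, T2, rfl, h1, h1'⟩, h2, h3⟩
    obtain ⟨F1, F2, h4, h5, rfl⟩ := ((prf_BrAnd k n T1 T2).1 P).1 h2
    exact ⟨⟨T1, F1, h1, h4, fun f hf => h3 f (Finset.mem_union_left _ hf)⟩,
      ⟨T2, F2, h1', h5, fun f hf => h3 f (Finset.mem_union_right _ hf)⟩⟩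
  · rintro ⟨T, P, ⟨_, T1, T2, rfl, h1, h1'⟩, h2, h3⟩
    rcases ((prf_BrAnd k n T1 T2).2.1 P).1 h2 with h4 | ⟨F1, F2, h4, h5, rfl⟩
    · exact Or.inl ⟨T1, P, h1, h4, h3⟩
    · exact Or.inr ⟨T2, F2, h1', h5, fun f hf => h3 f (Finset.mem_union_right _ hf)⟩
  · rintro ⟨T, P, ⟨_, rfl⟩, h2, h3⟩
    exact ⟨P, h2, h3⟩
  · rintro ⟨T, P, ⟨_, rfl⟩, h2, h3⟩
    exact ⟨P, h2, h3⟩

end Pool.Agent.Work.MP_610017_lc
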