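import Mathlib
import Pool.Agent.Work.MP_610017_lc.Bd.B01
import Pool.Agent.Work.MP_610017_lc.GG.ModelG

/-!
# Block GG, part D: the model `MGS D`. Statements with proofs (helper27)

Item `X`: statement `G_X`, file `GG/I_X.lean`, theorem `pr_X`, namespace `Pool.Agent.Work.MP_610017_lc`. Import `Bd/B03.lean` for the landed lemmas; the proofs for the old model (`prf_RobM`, `prf_TmVal`, `prf_Truth`, `prf_IndM`,
`prf_LosM`, `prf_Rels`, `prf_HypA`, `prf_HypB` in `Bd/B03.lean`) are the models.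

Notes. `UU ≤ atTop` (`UU_le`), `UU_or`, `UU_not`, `UU_em` in `Model.lean`. Room: by `D.room`, for all `D₁ c : ℕ`, for large `i`: `D₁ * (|F i| + s^c + 1) ≤ kk i` and `≤ |I|` (take `Room` with the exponent `D₁ + c + 1`: `D₁ ≤ 2^D₁ ≤ s^D₁`).
Decided: by `D.form` every formula is true or false, decided by `D.F i`, for large `i` (`PR`). `D.ok.con i`, `D.ok.valid i`.
-/

set_option autoImplicit false

namespace Pool.Agent.Work.MP_610017_lc

open Filter

/-- [MR] (EASY-MEDIUM) Robinson arithmetic; compare `prf_RobM`. `pred`: `EL.sub x (EL.const D 1)`; `le_iff`: `EL.sub y x`. -/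
def G_MR : Prop := ∀ (s : SG) (ff : ℕ → ℕ → ℕ → ℕ → ℕ) (D : GD s ff), Robinson (MGS D)

/-- [MV] (EASY) values of terms; compare `prf_TmVal`. -/
def G_MV : Prop := ∀ (s : SG) (ff : ℕ → ℕ → ℕ → ℕ → ℕ) (D : GD s ff) (v : ℕ) (t : Tm v)
  (r : Fin v → EL D), ∃ tv : EL D, (∀ i, tv.1 i = t.val stdN (fun j => (r j).1 i)) ∧
    t.val (MGS D) (fun j => MG.mk (r j)) = MG.mk tv

/-- [MT] (MEDIUM) truth in the model. For `φ` and `r` let `x ∈ C` be given by `D.form`; by `UU_or` either (a) `Tru` and `Wit` (for some `c`) or (b) `Fls` holds for almost all `i`; not both `Tru` and `Fls` (`G_TU`, room, `G_TM` for a common `c`). So it is enough to show by induction on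
`φ` that (a) implies `φ.sat` and (b) implies `¬ φ.sat`. `eq`, `le`: the tree is `leaf (decide ..)`, `G_MV`, `MG.eq_iff`, `MGS_le`. `rel`: `G_TM` (5), `MGS_rel`, `G_MV`; a branch of `relTree` with label `true` and one with label `false` do not hold in the same covering
(`prf_BrUnique`; or use `G_TU`). `neg`, `and`: `G_TM`, `UU_or`. `bex t ψ`: (a) `x ≤ t` and `Tru` of `ψ` at `cons x r`: `MG.cons`, `EL.cons`, induction hypothesis. (b) if `mk x` were a witness in the model, then `Tru` of `ψ` at `cons x r` for almost all `i`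
(otherwise `Fls`, and `¬ ψ.sat`), so `Wit`, against `G_TX`. `ind ψ` in the same way (`Fin.tail`; `MGS_succ`). USES: `pr_MT (h1 : G_TM) (h2 : G_TU) (h3 : G_TX) (h4 : G_MV) : G_MT`. -/
def G_MT : Prop := ∀ (s : SG) (ff : ℕ → ℕ → ℕ → ℕ → ℕ) (D : GD s ff) (v : ℕ) (φ : Gm v)
  (r : Fin v → EL D),
  (φ.sat (MGS D) (fun j => MG.mk (r j)) ↔
    ∃ c : ℕ, ∀ᶠ i in UU, Tru (s.ρ i) (D.F i) (s.sc i ^ c) φ (fun j => (r j).1 i)) ∧
  (¬ φ.sat (MGS D) (fun j => MG.mk (r j)) ↔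
    ∃ c : ℕ, ∀ᶠ i in UU, Fls (s.ρ i) (D.F i) (s.sc i ^ c) φ (fun j => (r j).1 i))

/-- [MI] (MEDIUM) induction. Suppose `φ` holds at `0` and is inductive (parameters `e`), but fails at `a`. Take `ind φ.toGm` at `(a, e)` (`Fm.sat_toGm`). If it is true in the model, there is `x ≤ a` with `φ x`, `¬ φ (x + 1)` (`Gm.sat`): a contradiction. If it is false: `Fls` of
`ind φ.toGm` for almost all `i` (`G_MT`), and `Tru` of `φ.toGm` at `0`, `Fls` at `a`: against `G_TX` (2) (common `c` by `G_TM`, room). USES: `pr_MI (h1 : G_TM) (h2 : G_TX) (h3 : G_MT) : G_MI`. -/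
def G_MI : Prop := ∀ (s : SG) (ff : ℕ → ℕ → ℕ → ℕ → ℕ) (D : GD s ff), Induction (MGS D)

/-- [ML] (EASY-MEDIUM) formulas without `R`. `G_MT` for `φ.toGm` and `G_TL` (room); `UU_not`. USES: `pr_ML (h1 : G_MT) (h2 : G_TL) : G_ML`. -/
def G_ML : Prop := ∀ (s : SG) (ff : ℕ → ℕ → ℕ → ℕ → ℕ) (D : GD s ff) (v : ℕ) (φ : Fm v),
  φ.RFree → ∀ r : Fin v → EL D,
  (φ.sat (MGS D) (fun j => MG.mk (r j)) ↔ ∀ᶠ i in UU, φ.sat stdN (fun j => (r j).1 i))

/-- [MK] (MEDIUM) the relations in the model. Let `ω i` be a witness of `Con (ρ i) (D.F i)`. The formula `.rel (fun j => .var j) : Gm 5` is decided at the five sequences (`D.form`), so `TruR` or `FlsR` for large `i` (`G_TM` (5)); `MGS_rel`; `G_TC`. `N.H x y a b = N.rel ![N.num 0, x, y, a, b]`,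
`N.num c = mk (const c)` (see `Rels_num`, `Rels_rel` in `Bd/B03.lean`). USES: `pr_MK (h1 : G_TM) (h2 : G_TC) : G_MK`. -/
def G_MK : Prop := ∀ (s : SG) (ff : ℕ → ℕ → ℕ → ℕ → ℕ) (D : GD s ff),
  ∃ ω : ∀ i, GW (s.kk i) (s.nn i), (∀ i, Ext (s.ρ i) (ω i).β (ω i).ζ ∧ (ω i).χ = spec) ∧
  ∀ x y a b : EL D,
  ((MGS D).H (MG.mk x) (MG.mk y) (MG.mk a) (MG.mk b) ↔
    ∀ᶠ i in UU, hW (ω i) (x.1 i) (y.1 i) (a.1 i) (b.1 i)) ∧
  ((MGS D).U (MG.mk x) (MG.mk y) (MG.mk a) (MG.mk b) ↔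
    ∀ᶠ i in UU, uW (ω i) (x.1 i) (y.1 i) (a.1 i) (b.1 i)) ∧
  ((MGS D).C (MG.mk x) (MG.mk y) (MG.mk a) →
    ∀ᶠ i in UU, cW (ω i) true (x.1 i) (y.1 i) (a.1 i)) ∧
  (¬ (MGS D).C (MG.mk x) (MG.mk y) (MG.mk a) →
    (∀ᶠ i in UU, inC (s.kk i) (s.nn i) (x.1 i) (y.1 i) (a.1 i)) →
    ∀ᶠ i in UU, cW (ω i) false (x.1 i) (y.1 i) (a.1 i))

/-- [Ma] (MEDIUM) neighbours exist in the model. Let `φ = .bex (.var 3) (.rel ![.zero, .var 1, .var 2, .var 3, .var 0]) : Gm 4` (`b ≤ n`, `H x y a b`), at `(x, y, a, n)`; `D.form` gives `z ∈ C`. If `Tru` and `Wit` for almost all `i`: `TruR ρ F ![0, x i, y i, a i, z i]`, so `H x y a z`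
(`MGS_rel`), and `z i ≤ nn i` (`relTree` is the leaf `false` otherwise, as `0 ≠ 3`; or `G_TC`), so `z < n`. If `Fls` for almost all `i`: `G_TH` gives `F' ⊇ D.F i` and `b ≤ nn i` with `TruR ρ F' ![0, x i, y i, a i, b]`, i.e. `Wit ρ F' h φ r b` (`relTree` has height `≤ 1`), and `Fls ρ F' h φ r` (`G_TM`), against `G_TX` (1).
The same with `.succ .zero` for `U`. USES: `pr_Ma (h1 : G_TM) (h2 : G_TC) (h3 : G_TH) (h4 : G_TX) : G_Ma`. -/
def G_Ma : Prop := ∀ (s : SG) (ff : ℕ → ℕ → ℕ → ℕ → ℕ) (D : GD s ff) (N : Str (MG D)),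
  N = MGS D → ∀ n k : MG D, n = nG D → k = kG D →
  (∀ x y a, N.lt x k → N.le y k → N.lt a n → ∃ b, N.lt b n ∧ N.H x y a b) ∧
  (∀ x y a, N.le x k → N.lt y k → N.lt a n → ∃ b, N.lt b n ∧ N.U x y a b)

/-- [Mb] (EASY-MEDIUM) positivity and the commutation rule. `0 < n`, `0 < k` (`kk i ≥ s^1 ≥ 2`). `comm`: by `G_MK`; the index of `a` in `ω i` at `(x, y)` is the index of `b` at `(x+1, y)`, of `d` at `(x, y+1)` and of `c` at `(x+1, y+1)`. Compare `HypA_comm`. USES: `pr_Mb (h : G_MK) : G_Mb`. -/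
def G_Mb : Prop := ∀ (s : SG) (ff : ℕ → ℕ → ℕ → ℕ → ℕ) (D : GD s ff) (N : Str (MG D)),
  N = MGS D → ∀ n k : MG D, n = nG D → k = kG D →
  N.lt N.zero n ∧ N.lt N.zero k ∧
  (∀ x y a b c d, N.lt x k → N.lt y k → N.lt a n → N.lt b n → N.lt c n → N.lt d n →
    N.H x y a b → N.U x y a d → N.U (N.succ x) y b c → N.H x (N.succ y) d c)

/-- [Mc] (MEDIUM) the colours. By `G_MK` for almost all `i`: the two elements have the same index `j` in `ω i`; a colour which is (not) true in the model is `true` (`false`) in `ω i`. If `j ≠ 0` both colours are `ζ j`. If `j = 0`: `spec (x, 0) = some true` for `0 < x < k`, `spec (k, 0) = none`, so if the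
elements `(x, 0, a)`, `(x+1, 0, b)` had different colours, `some true = some false`, `none = some _`, a contradiction; `spec (x, k) = none`, `spec (k, y) = none`; `spec (0, y) = some false` for `0 < y < k`. The last two: `ω.β crn 0 = 0` (`Ext`), so the index is `0`; `spec (1, 0) = some true`,
`spec (0, 1) = some false` (`kk i ≥ 2`). Compare `prf_HypB`. USES: `pr_Mc (h : G_MK) : G_Mc`. -/
def G_Mc : Prop := ∀ (s : SG) (ff : ℕ → ℕ → ℕ → ℕ → ℕ) (D : GD s ff) (N : Str (MG D)),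
  N = MGS D → ∀ n k : MG D, n = nG D → k = kG D →
  (∀ x a b, N.lt N.zero x → N.lt x k → N.lt a n → N.lt b n → N.H x N.zero a b →
    (N.C x N.zero a ↔ N.C (N.succ x) N.zero b)) ∧
  (∀ x a b, N.lt x k → N.lt a n → N.lt b n → N.H x k a b →
    (N.C x k a ↔ N.C (N.succ x) k b)) ∧
  (∀ y a b, N.lt N.zero y → N.lt y k → N.lt a n → N.lt b n → N.U N.zero y a b →
    (N.C N.zero y a ↔ N.C N.zero (N.succ y) b)) ∧
  (∀ y a b, N.lt y k → N.lt a n → N.lt b n → N.U k y a b →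
    (N.C k y a ↔ N.C k (N.succ y) b)) ∧
  (∀ b, N.lt b n → N.H N.zero N.zero N.zero b → N.C (N.num 1) N.zero b) ∧
  (∀ b, N.lt b n → N.U N.zero N.zero N.zero b → ¬ N.C N.zero (N.num 1) b)

/-- [MP] (MEDIUM) powers in the model. Let `x' = mk x`, `l = mk (g ∘ x)` (`D.op 0`), `z = mk (x^(g x))` (`D.op 1` with `b = g ∘ x`), `c = mk (cf x (g x))`, `d = mk (df x (g x))` (`D.op 2`, `D.op 3`). `φ = .and (.le w ((i+1) d)) (.bex c' (c = u (1 + (i+1) d) + w))`: the formula, without `R`, with the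
variables `i, w, c, d` (`v = 2`, `e = ![c, d]`): `w ≤ (i+1) d ∧ ∃ u ≤ c, c = u (1 + (i+1) d) + w`, i.e. `w = c % (1 + (i+1) d)`. `f j = mk (x^(min j (g x)))` for `j = mk j'` (`Quotient.out`, `D.op 1`). By `G_ML` `φ.sat` at `(mk j, mk w, c, d)` iff `w i = cf % (1 + (j i + 1) df)` for almost all `i`; for `j ≤ l` this is
`w i = x i ^ (j i)`, i.e. `mk w = f (mk j)`. `f 0 = 1`, `f (j+1) = f j * x'` for `j + 1 ≤ l`, `f l = z`. USES: `pr_MP (h : G_ML) : G_MP`. -/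
def G_MP : Prop := ∀ (s : SG) (g : ℕ → ℕ) (cf df : ℕ → ℕ → ℕ) (D : GD s (ffS g cf df)),
  (∀ x l i : ℕ, i ≤ l → cf x l % (1 + (i + 1) * df x l) = x ^ i) →
  ∀ x : EL D, ∃ y : EL D, (∀ i, y.1 i = g (x.1 i)) ∧
    ∃ z : MG D, IsPow (MGS D) (MG.mk x) (MG.mk y) z

end Pool.Agent.Work.MP_610017_lc
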