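import Mathlib
import Pool.Agent.Work.MP_610017_lc.GG.StmtsD
import Pool.Agent.Work.MP_610017_lc.GG.I_TM

/-!
# Block GG: basic lemmas for the model (helper27)
-/

set_option autoImplicit false

namespace Pool.Agent.Work.MP_610017_lc

namespace DB

open Filter

theorem room {s : SG} {ff : ℕ → ℕ → ℕ → ℕ → ℕ} (D : GD s ff) (A c : ℕ) : ∀ᶠ i in UU,
    A * ((D.F i).card + s.sc i ^ c + 1) ≤ s.kk i ∧
    A * ((D.F i).card + s.sc i ^ c + 1) ≤ (s.ρ i).I.card := by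
  refine UU_le ?_
  filter_upwards [D.room (A + c + 1)] with i hi
  have h2 := s.two_le i
  have h3 : A ≤ s.sc i ^ (A + c + 1) := by
    calc A ≤ 2 ^ A := Nat.lt_two_pow_self.le
      _ ≤ s.sc i ^ A := Nat.pow_le_pow_left h2 A
      _ ≤ _ := Nat.pow_le_pow_right (by omega) (by omega)
  have h4 : s.sc i ^ c + 1 ≤ s.sc i ^ (A + c + 1) := by
    have h5 : 1 ≤ s.sc i ^ c := Nat.one_le_pow _ _ (by omega)
    calc s.sc i ^ c + 1 ≤ s.sc i ^ c * 2 := by omega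
      _ ≤ s.sc i ^ c * s.sc i := Nat.mul_le_mul_left _ h2
      _ = s.sc i ^ (c + 1) := (pow_succ _ _).symm
      _ ≤ _ := Nat.pow_le_pow_right (by omega) (by omega)
  have h6 : A * ((D.F i).card + s.sc i ^ c + 1) ≤
      s.sc i ^ (A + c + 1) * ((D.F i).card + s.sc i ^ (A + c + 1)) :=
    Nat.mul_le_mul h3 (by omega)
  exact ⟨h6.trans hi.1, h6.trans hi.2⟩

theorem tru_le {s : SG} {ff : ℕ → ℕ → ℕ → ℕ → ℕ} (D : GD s ff) {v : ℕ} {φ : Gm v}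
    {e : Fin v → ℕ} {i c c' : ℕ} (hc : c ≤ c')
    (h : Tru (s.ρ i) (D.F i) (s.sc i ^ c) φ e) : Tru (s.ρ i) (D.F i) (s.sc i ^ c') φ e :=
  (pr_TM _ _ _ _ _ _ _ _ φ φ e).1 (Finset.Subset.refl _)
    (Nat.pow_le_pow_right (by have := s.two_le i; omega) hc) h

theorem fls_le {s : SG} {ff : ℕ → ℕ → ℕ → ℕ → ℕ} (D : GD s ff) {v : ℕ} {φ : Gm v}
    {e : Fin v → ℕ} {i c c' : ℕ} (hc : c ≤ c')
    (h : Fls (s.ρ i) (D.F i) (s.sc i ^ c) φ e) : Fls (s.ρ i) (D.F i) (s.sc i ^ c') φ e :=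
  (pr_TM _ _ _ _ _ _ _ _ φ φ e).2.1 (Finset.Subset.refl _)
    (Nat.pow_le_pow_right (by have := s.two_le i; omega) hc) h

end DB

end Pool.Agent.Work.MP_610017_lc
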