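import Mathlib
import Pool.Agent.Work.MP_610017_lc.General
import Pool.Agent.Work.MP_610017_lc.GG.StmtsD

/-!
# Block GG: the final theorem from the items (MP_610017_lc)
-/

set_option autoImplicit false

namespace Pool.Agent.Work.MP_610017_lc

open Filter

/-- The growth theorem. -/
def S_GG : Prop := ∃ θ : Fm 2,
  (∀ (M : Type) (N : Str M), IDelta0 N → ∀ (e : Fin 2 → M) (z : M), IsPow N (e 0) (e 1) z →
    θ.sat N e) ∧
  ∀ g h : ℕ → ℕ, Monotone g → Tendsto g atTop atTop →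
    (∀ J, ∃ J' x0, ∀ x, x0 ≤ x → g (x ^ (g x ^ J)) ≤ g x ^ J') →
    (∀ J, ∃ x0, ∀ x, x0 ≤ x → g x ^ J ≤ h x) → (∀ x, 1 ≤ x → 2 ^ h x ≤ x) →
    ∃ (M : Type) (N : Str M), IDelta0 N ∧
      (∀ (v : ℕ) (φ : Fm v), φ.RFree → (∀ e : Fin v → ℕ, φ.sat stdN e) →
        ∀ e : Fin v → M, φ.sat N e) ∧
      (∀ x : M, ∃ y : M, (∃ z, IsPow N x y z) ∧
        ∀ φ : Fm 2, φ.RFree → (∀ a : ℕ, φ.sat stdN ![a, g a]) → φ.sat N ![x, y]) ∧
      ∃ e : Fin 2 → M, ¬ θ.sat N e ∧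
        ∀ φ : Fm 2, φ.RFree → (∃ x0, ∀ x, x0 ≤ x → φ.sat stdN ![x, h x]) → φ.sat N e

theorem pr_GG (hSQ : G_SQ) (hGB : G_GB) (hBO : G_BO) (hGX : G_GX) (hMR : G_MR) (hMI : G_MI)
    (hML : G_ML) (hMa : G_Ma) (hMb : G_Mb) (hMc : G_Mc) (hMP : G_MP) : S_GG := by
  refine ⟨.neg gen_conj, ?_, fun g h hg1 hg2 hg3 hh1 hh2 => ?_⟩
  · intro M N hN e z hz
    rw [gen_theta]
    intro hc
    obtain ⟨i1, i2, i3, hG⟩ := pf_Alg M N hN
    obtain ⟨f, hf, _⟩ := prf_PowF M N hG (e 0) (e 1) z hz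
    exact pf_UpperG M N hG (e 0) (e 1) (e 1) f hc le_rfl hf
  · obtain ⟨s, hs⟩ := hSQ g h hg2 hh1 hh2
    obtain ⟨cf, df, hcd, hdf, hcf⟩ := hGB
    obtain ⟨D⟩ := hGX s (ffS g cf df) (hBO s g cf df hg1 hg3 (fun i => (hs i).2) hdf hcf)
    refine ⟨MG D, MGS D, ⟨hMR _ _ D, hMI _ _ D⟩, ?_, ?_, ![nG D, kG D], ?_, ?_⟩
    · intro v φ hφ hφ' e
      obtain ⟨r, rfl⟩ := MG.reps e
      exact (hML s _ D v φ hφ r).2 (Filter.Eventually.of_forall fun i => hφ' _)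
    · intro x
      induction x using MG.ind' with
      | h x =>
        obtain ⟨y, hy, z, hz⟩ := hMP s g cf df D hcd x
        refine ⟨MG.mk y, ⟨z, hz⟩, fun φ hφ hφ' => ?_⟩
        have h1 : (![MG.mk x, MG.mk y] : Fin 2 → MG D) =
            fun j => MG.mk ((![x, y] : Fin 2 → EL D) j) := by
          funext j
          fin_cases j <;> rfl
        rw [h1, hML s _ D 2 φ hφ]
        refine Filter.Eventually.of_forall fun i => ?_
        refine (iff_of_eq (congrArg (φ.sat stdN) ?_)).1 (hφ' (x.1 i))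
        funext j
        fin_cases j
        · rfl
        · exact (hy i).symm
    · rw [gen_theta, not_not]
      obtain ⟨a1, a2⟩ := hMa _ _ D _ rfl _ _ rfl rfl
      obtain ⟨b1, b2, b3⟩ := hMb _ _ D _ rfl _ _ rfl rfl
      obtain ⟨c1, c2, c3, c4, c5, c6⟩ := hMc _ _ D _ rfl _ _ rfl rfl
      exact ⟨b1, b2, a1, a2, b3, c1, c2, c3, c4, c5, c6⟩
    · intro φ hφ hφ'
      obtain ⟨x0, hx0⟩ := hφ'
      have h1 : (![nG D, kG D] : Fin 2 → MG D) = fun j => MG.mk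
          ((![⟨fun i => s.nn i + 1, D.nn_mem⟩, ⟨s.kk, D.kk_mem⟩] : Fin 2 → EL D) j) := by
        funext j
        fin_cases j <;> rfl
      rw [h1, hML s _ D 2 φ hφ]
      filter_upwards [UU_ge x0] with i hi
      have h2 := hx0 (s.nn i + 1) (by
        have := s.le_nn i
        omega)
      refine (iff_of_eq (congrArg (φ.sat stdN) ?_)).1 h2
      funext j
      fin_cases j
      · rfl
      · exact (hs i).1.symm

end Pool.Agent.Work.MP_610017_lc
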