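import Mathlib
import Pool.Agent.Work.MP_610017_lc.Bd.B02
import Pool.Agent.Work.MP_610017_lc.GG.StmtsB

/-!
# Block GG, item TB (helper27)
-/

set_option autoImplicit false

namespace Pool.Agent.Work.MP_610017_lc

theorem pr_TB : G_TB := by
  intro v t J
  obtain ⟨J1, hJ1⟩ := prf_TmBound v t 1
  refine ⟨J + J1, fun b s e hb hs he => ?_⟩
  have h1 : 2 ≤ b ^ (s ^ J) := by
    calc 2 ≤ b := hb
      _ = b ^ 1 := (pow_one b).symm
      _ ≤ b ^ (s ^ J) := Nat.pow_le_pow_right (by omega) (Nat.one_le_pow _ _ (by omega))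
  have h2 := hJ1 (b ^ (s ^ J)) e h1 (fun j => by rw [pow_one]; exact he j)
  refine h2.trans ?_
  rw [← pow_mul]
  refine Nat.pow_le_pow_right (by omega) ?_
  rw [pow_add]
  refine Nat.mul_le_mul_left _ ?_
  calc J1 ≤ 2 ^ J1 := Nat.lt_two_pow_self.le
    _ ≤ s ^ J1 := Nat.pow_le_pow_left hs J1

end Pool.Agent.Work.MP_610017_lc
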