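import Mathlib
import Pool.Agent.Work.MP_610017_lc.GG.I_TB
import Pool.Agent.Work.MP_610017_lc.GG.I_EN

/-!
# Block GG, items EB and EI (helper27)
-/

set_option autoImplicit false

namespace Pool.Agent.Work.MP_610017_lc

namespace IEB

open IEN

theorem numA {s c1 b2 c m : ℕ} (hs : 2 ≤ s) (hc : 30 + b2 + 5 * (c1 + 1) ≤ c) (hm : s ^ c ≤ m) :
    10 ^ 6 * s ^ b2 * (s ^ (c1 + 1)) ^ 3 ≤ m ∧ 10 ^ 7 * s ^ b2 * (s ^ (c1 + 1)) ^ 5 ≤ s ^ c := by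
  have hs0 : 0 < s := by omega
  have h1 : 10 ^ 6 ≤ s ^ 20 := (by norm_num : 10 ^ 6 ≤ 2 ^ 20).trans (Nat.pow_le_pow_left hs 20)
  have h2 : 10 ^ 7 ≤ s ^ 24 := (by norm_num : 10 ^ 7 ≤ 2 ^ 24).trans (Nat.pow_le_pow_left hs 24)
  constructor
  · calc 10 ^ 6 * s ^ b2 * (s ^ (c1 + 1)) ^ 3 ≤ s ^ 20 * s ^ b2 * (s ^ (c1 + 1)) ^ 3 :=
        Nat.mul_le_mul_right _ (Nat.mul_le_mul_right _ h1)
      _ = s ^ (20 + b2 + (c1 + 1) * 3) := by ring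
      _ ≤ s ^ c := Nat.pow_le_pow_right hs0 (by omega)
      _ ≤ m := hm
  · calc 10 ^ 7 * s ^ b2 * (s ^ (c1 + 1)) ^ 5 ≤ s ^ 24 * s ^ b2 * (s ^ (c1 + 1)) ^ 5 :=
        Nat.mul_le_mul_right _ (Nat.mul_le_mul_right _ h2)
      _ = s ^ (24 + b2 + (c1 + 1) * 5) := by ring
      _ ≤ s ^ c := Nat.pow_le_pow_right hs0 (by omega)

theorem numB {s c1 : ℕ} (hs : 2 ≤ s) : 4000 * (s ^ (c1 + 1)) ^ 2 ≤ s ^ (12 + 2 * (c1 + 1)) := by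
  have h1 : 4000 ≤ s ^ 12 := (by norm_num : 4000 ≤ 2 ^ 12).trans (Nat.pow_le_pow_left hs 12)
  calc 4000 * (s ^ (c1 + 1)) ^ 2 ≤ s ^ 12 * (s ^ (c1 + 1)) ^ 2 := Nat.mul_le_mul_right _ h1
    _ = _ := by ring

theorem succ_le {n s J : ℕ} (hn : 2 ≤ n + 1) (hs : 2 ≤ s) :
    (n + 1) ^ (s ^ J) + 1 ≤ (n + 1) ^ (s ^ (J + 1)) := by
  have h1 : 1 ≤ (n + 1) ^ (s ^ J) := Nat.one_le_pow _ _ (by omega)
  have h2 : 1 ≤ s ^ J := Nat.one_le_pow _ _ (by omega)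
  calc (n + 1) ^ (s ^ J) + 1 ≤ (n + 1) ^ (s ^ J) * 2 := by omega
    _ ≤ (n + 1) ^ (s ^ J) * (n + 1) := Nat.mul_le_mul_left _ hn
    _ = (n + 1) ^ (s ^ J + 1) := (pow_succ _ _).symm
    _ ≤ (n + 1) ^ (s ^ (J + 1)) := by
      refine Nat.pow_le_pow_right (by omega) ?_
      calc s ^ J + 1 ≤ s ^ J * 2 := by omega
        _ ≤ s ^ J * s := Nat.mul_le_mul_left _ hs
        _ = _ := (pow_succ _ _).symm

theorem core (hO : G_OR) {u v : ℕ} (t : Tm u) (rr : (Fin u → ℕ) → Fin v → ℕ)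
    (hrr : ∀ e j, ∃ i, rr e j = e i) (φ : Gm (v + 1)) (ih : ExG φ) (J b : ℕ)
    (Ψ : ∀ k n : ℕ, (ℕ → Tree k n) → ℕ → Tree k n)
    (hΨ : ∀ (k n h1 M : ℕ) (Tx : ℕ → Tree k n), (∀ x, x ≤ M + 1 → HLe h1 (Tx x)) →
      ∀ x, x ≤ M → HLe (h1 + h1) (Ψ k n Tx x)) :
    ∃ c a : ℕ, ∀ (k n m s : ℕ) (ρ : Res k n), 2 ≤ s → s ^ c ≤ m → (k + 1) ^ 2 ≤ m →
      ρ.I.card = m ^ (s ^ a) → n + 1 ≤ (m ^ (s ^ a)) ^ (s ^ b) →
      ∃ ρ' : Res k n, ρ'.Le ρ ∧ ρ'.I.card = m ∧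
      ∀ e : Fin u → ℕ, (∀ j, e j ≤ (n + 1) ^ (s ^ J)) → ∃ Tx T,
        (∀ x, x ≤ t.val stdN e + 1 → Rep ρ' (s ^ c) φ (Fin.cons x (rr e)) (Tx x)) ∧
        OrRep ρ' (s ^ c) (t.val stdN e) (Ψ k n Tx) T ∧ HLe (s ^ c) T := by
  obtain ⟨J1, hJ1⟩ := pr_TB u t J
  obtain ⟨c1, a1, H1⟩ := ih (max J (J1 + 1)) b
  refine ⟨30 + (a1 + b + (J + 1) + u) + 5 * (c1 + 1), (12 + 2 * (c1 + 1)) + a1, ?_⟩
  intro k n m s ρ hs hm hk hcard hn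
  have hs0 : 0 < s := by omega
  have hm3 : 2 ≤ m := by
    calc 2 ≤ s := hs
      _ = s ^ 1 := (pow_one s).symm
      _ ≤ _ := Nat.pow_le_pow_right hs0 (by omega)
      _ ≤ m := hm
  have hm1 : s ^ c1 ≤ m := (Nat.pow_le_pow_right hs0 (by omega)).trans hm
  have e1 : m ^ (s ^ ((12 + 2 * (c1 + 1)) + a1)) =
      (m ^ (s ^ (12 + 2 * (c1 + 1)))) ^ (s ^ a1) := by rw [← pow_mul, ← pow_add]
  have hn2 : 2 ≤ n + 1 := by
    have f1 : ρ.I.card ≤ n + 1 := by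
      have := Finset.card_le_univ ρ.I
      rwa [Fintype.card_fin] at this
    have f2 : 2 ≤ m ^ (s ^ ((12 + 2 * (c1 + 1)) + a1)) := le_pow_pow hs (by omega) hm3
    omega
  set m1 := m ^ (s ^ (12 + 2 * (c1 + 1))) with hm1def
  have hmA : 1 ≤ m1 := le_pow_pow hs (by omega) (by omega)
  obtain ⟨ρ1, hρ1, hρ1c, hρ1T⟩ := H1 k n m1 s ρ hs (le_pow_pow hs (by omega) hm1)
    (le_pow_pow hs (by omega) hk) (by rw [hcard, e1]) (by rw [← e1]; exact hn)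
  -- the family of trees
  have hTz : ∀ (e : Fin u → ℕ) (x : ℕ), ∃ T : Tree k n, (∀ j, e j ≤ (n + 1) ^ (s ^ J)) →
      x ≤ (n + 1) ^ (s ^ (J1 + 1)) → Rep ρ1 (s ^ c1) φ (Fin.cons x (rr e)) T := by
    intro e x
    by_cases hc : (∀ j, e j ≤ (n + 1) ^ (s ^ J)) ∧ x ≤ (n + 1) ^ (s ^ (J1 + 1))
    · obtain ⟨T, hT'⟩ := hρ1T (Fin.cons x (rr e)) (by
        intro j
        refine Fin.cases ?_ ?_ j
        · rw [Fin.cons_zero]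
          exact hc.2.trans (Nat.pow_le_pow_right (by omega)
            (Nat.pow_le_pow_right hs0 (le_max_right _ _)))
        · intro i
          rw [Fin.cons_succ]
          obtain ⟨i', hi'⟩ := hrr e i
          rw [hi']
          exact (hc.1 i').trans (Nat.pow_le_pow_right (by omega)
            (Nat.pow_le_pow_right hs0 (le_max_left _ _))))
      exact ⟨T, fun _ _ => hT'⟩
    · exact ⟨.leaf false, fun h3 h4 => absurd ⟨h3, h4⟩ hc⟩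
  choose Tz hTz using hTz
  have hn' : n + 1 ≤ m1 ^ (s ^ (a1 + b)) := by
    rw [e1, ← pow_mul, ← pow_add] at hn
    exact hn
  have hMb : ∀ e : Fin u → ℕ, (∀ j, e j ≤ (n + 1) ^ (s ^ J)) →
      ∀ x, x ≤ t.val stdN e + 1 → x ≤ (n + 1) ^ (s ^ (J1 + 1)) := by
    intro e he x hx
    have h3 := hJ1 (n + 1) s e hn2 hs he
    have h4 := succ_le (J := J1) hn2 hs
    omega
  set B := s ^ (a1 + b + (J + 1) + u) with hB
  have hcardι : Fintype.card (Fin u → Fin ((n + 1) ^ (s ^ J) + 1)) ≤ m1 ^ B := by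
    rw [Fintype.card_fun, Fintype.card_fin, Fintype.card_fin]
    calc ((n + 1) ^ (s ^ J) + 1) ^ u ≤ ((n + 1) ^ (s ^ (J + 1))) ^ u :=
          Nat.pow_le_pow_left (succ_le hn2 hs) u
      _ = (n + 1) ^ (s ^ (J + 1) * u) := (pow_mul _ _ _).symm
      _ ≤ (m1 ^ (s ^ (a1 + b))) ^ (s ^ (J + 1) * u) := Nat.pow_le_pow_left hn' _
      _ = m1 ^ (s ^ (a1 + b) * (s ^ (J + 1) * u)) := (pow_mul _ _ _).symm
      _ ≤ m1 ^ B := by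
        refine Nat.pow_le_pow_right hmA ?_
        have h5 : u ≤ s ^ u := (Nat.lt_two_pow_self (n := u)).le.trans (Nat.pow_le_pow_left hs u)
        calc s ^ (a1 + b) * (s ^ (J + 1) * u) ≤ s ^ (a1 + b) * (s ^ (J + 1) * s ^ u) :=
              Nat.mul_le_mul_left _ (Nat.mul_le_mul_left _ h5)
          _ = B := by rw [hB]; ring
  obtain ⟨g1, g2⟩ := numA (c1 := c1) (b2 := a1 + b + (J + 1) + u) hs (by omega) hm
  obtain ⟨ρ', hρ', hρ'c, hρ'T⟩ := hO k n m (s ^ (c1 + 1)) B ρ1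
    (Fin u → Fin ((n + 1) ^ (s ^ J) + 1))
    (fun i => t.val stdN (fun j => (i j).val))
    (fun i => Ψ k n (Tz (fun j => (i j).val))) (Nat.one_le_pow _ _ hs0) (Nat.one_le_pow _ _ hs0)
    g1 hk (by rw [hρ1c, hm1def]; exact Nat.pow_le_pow_right (by omega) (numB hs))
    (by
      rw [hρ1c]
      exact hn'.trans (Nat.pow_le_pow_right hmA (Nat.pow_le_pow_right hs0 (by omega))))
    (by rw [hρ1c]; exact hcardι) (by
      intro i x hx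
      have hib : ∀ j, (i j).val ≤ (n + 1) ^ (s ^ J) := fun j => by have := (i j).2; omega
      refine prf_HLeMono k n _ _ _ ?_ (hΨ k n (s ^ c1) _ _ (fun y hy => pf_RepHLe k n ρ1 _ _ φ _ _
        (hTz _ y hib (hMb _ hib y hy))) x hx)
      rw [pow_succ]
      calc s ^ c1 + s ^ c1 = s ^ c1 * 2 := by ring
        _ ≤ s ^ c1 * s := Nat.mul_le_mul_left _ hs)
  refine ⟨ρ', ((prf_ResMono k n ρ1 ρ hρ1).2.2.2.1) ρ' hρ', hρ'c, ?_⟩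
  intro e he
  obtain ⟨T, hT'⟩ := hρ'T (fun j => ⟨e j, by have := he j; omega⟩)
  have hT'' : OrRep ρ' (10 ^ 7 * B * (s ^ (c1 + 1)) ^ 5) (t.val stdN e) (Ψ k n (Tz e)) T := hT'
  have hHT := prf_HLeMono k n _ _ T g2 hT''.1
  exact ⟨Tz e, T, fun x hx => pf_RepMono k n ρ' ρ1 _ _ _ φ _ _ hρ'
    (Nat.pow_le_pow_right hs0 (by omega)) (hTz e x he (hMb e he x hx)), ⟨hHT, hT''.2⟩, hHT⟩

end IEB

theorem pr_EB (hO : G_OR) : G_EB := by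
  intro v t φ ih J b
  obtain ⟨c, a, H⟩ := IEB.core hO t (fun e => e) (fun e j => ⟨j, rfl⟩) φ ih J b
    (fun _ _ Tx => Tx) (fun k n h1 M Tx h x hx => prf_HLeMono k n _ _ _ (by omega) (h x (by omega)))
  refine ⟨c, a, fun k n m s ρ h1 h2 h3 h4 h5 => ?_⟩
  obtain ⟨ρ', h6, h7, h8⟩ := H k n m s ρ h1 h2 h3 h4 h5
  refine ⟨ρ', h6, h7, fun e he => ?_⟩
  obtain ⟨Tx, T, g1, g2, g3⟩ := h8 e he
  exact ⟨T, Tx, fun x hx => g1 x (by omega), g2⟩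

theorem pr_EI (hO : G_OR) : G_EI := by
  intro v φ ih J b
  obtain ⟨c, a, H⟩ := IEB.core hO (.var 0) (fun e => Fin.tail e) (fun e j => ⟨j.succ, rfl⟩) φ ih
    J b (fun k n Tx x => andT (Tx x) (Tx (x + 1)).flip)
    (fun k n h1 M Tx h x hx => (prf_BrAnd k n _ _).2.2 h1 h1 (h x (by omega))
      (((prf_BrFlip k n (Tx (x + 1))).2 h1).2 (h (x + 1) (by omega))))
  refine ⟨c, a, fun k n m s ρ h1 h2 h3 h4 h5 => ?_⟩
  obtain ⟨ρ', h6, h7, h8⟩ := H k n m s ρ h1 h2 h3 h4 h5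
  refine ⟨ρ', h6, h7, fun e he => ?_⟩
  obtain ⟨Tx, T, g1, g2, g3⟩ := h8 e he
  exact ⟨T, Tx, g1, g2⟩

end Pool.Agent.Work.MP_610017_lc
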