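import Pool.Agent.Work.MP_610017_lc.GG.StmtsC

/-!
# Block GG, item GB: codes of the sequences of powers
-/

set_option autoImplicit false

namespace Pool.Agent.Work.MP_610017_lc

namespace IGB

/-- the modulus `i` -/
def md (d i : ℕ) : ℕ := 1 + (i + 1) * d

/-- the number `d` -/
def dd (x l : ℕ) : ℕ := (l + 1).factorial * (x + 1) ^ l

theorem dvd_dd {x l j : ℕ} (h0 : 0 < j) (h : j ≤ l) : j ∣ dd x l :=
  Dvd.dvd.mul_right (Nat.dvd_factorial h0 (by omega)) _

theorem cop_aux {x l i j : ℕ} (hij : i < j) (hj : j ≤ l) :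
    Nat.Coprime (md (dd x l) i) (md (dd x l) j) := by
  apply Nat.coprime_of_dvd
  intro p hp hi hj'
  have h1 : p ∣ (j - i) * dd x l := by
    have h2 := Nat.dvd_sub hj' hi
    have h3 : md (dd x l) j - md (dd x l) i = (j - i) * dd x l := by
      unfold md
      obtain ⟨k, rfl⟩ := Nat.exists_eq_add_of_lt hij
      have h4 : i + k + 1 - i = k + 1 := by omega
      rw [h4]
      have h5 : 1 + (i + k + 1 + 1) * dd x l = 1 + (i + 1) * dd x l + (k + 1) * dd x l := by ring
      rw [h5, Nat.add_sub_cancel_left]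
    rwa [h3] at h2
  have h2 : p ∣ dd x l := by
    rcases (Nat.Prime.dvd_mul hp).1 h1 with h3 | h3
    · exact h3.trans (dvd_dd (by omega) (by omega))
    · exact h3
  have h3 : p ∣ 1 := by
    have h4 : p ∣ (i + 1) * dd x l := Dvd.dvd.mul_left h2 _
    exact (Nat.dvd_add_left h4).1 hi
  exact hp.one_lt.ne' (Nat.dvd_one.1 h3)

theorem cop {x l i j : ℕ} (hij : i ≠ j) (hi : i ≤ l) (hj : j ≤ l) :
    Nat.Coprime (md (dd x l) i) (md (dd x l) j) := by
  rcases lt_or_gt_of_ne hij with h | h
  · exact cop_aux h hj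
  · exact (cop_aux h hi).symm

theorem ex (x l : ℕ) : ∃ c : ℕ, (∀ i ≤ l, c % md (dd x l) i = x ^ i) ∧
    c ≤ (1 + (l + 1) * dd x l) ^ (l + 1) := by
  have hs : ∀ i ∈ Finset.range (l + 1), md (dd x l) i ≠ 0 := fun i _ => by
    unfold md
    omega
  have hpp : Set.Pairwise (Finset.range (l + 1) : Set ℕ)
      (Function.onFun Nat.Coprime fun i => md (dd x l) i) := by
    intro i hi j hj hij
    rw [Finset.mem_coe, Finset.mem_range] at hi hj
    exact cop hij (by omega) (by omega)
  have hlt := Nat.chineseRemainderOfFinset_lt_prod (fun i => x ^ i) (fun i => md (dd x l) i)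
    hs hpp
  refine ⟨_, fun i hi => ?_, hlt.le.trans ?_⟩
  · have h1 := (Nat.chineseRemainderOfFinset (fun i => x ^ i) (fun i => md (dd x l) i)
      (Finset.range (l + 1)) hs hpp).2 i (Finset.mem_range.2 (by omega))
    have h2 : x ^ i < md (dd x l) i := by
      have h3 : x ^ i ≤ (x + 1) ^ l :=
        (Nat.pow_le_pow_left (Nat.le_succ x) i).trans (Nat.pow_le_pow_right (Nat.succ_pos x) hi)
      have h4 : (x + 1) ^ l ≤ dd x l :=
        Nat.le_mul_of_pos_left _ (Nat.factorial_pos _)
      have h5 : dd x l ≤ (i + 1) * dd x l := Nat.le_mul_of_pos_left _ (Nat.succ_pos _)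
      unfold md
      omega
    have h3 : _ % md (dd x l) i = x ^ i % md (dd x l) i := h1
    rw [Nat.mod_eq_of_lt h2] at h3
    exact h3
  · refine (Finset.prod_le_pow_card _ _ (1 + (l + 1) * dd x l) fun i hi => ?_).trans ?_
    · rw [Finset.mem_range] at hi
      unfold md
      exact Nat.add_le_add_left (Nat.mul_le_mul_right _ (by omega)) 1
    · rw [Finset.card_range]

end IGB

open IGB in
theorem pr_GB : G_GB := by
  refine ⟨fun x l => (ex x l).choose, dd, fun x l i hi => ?_, fun x l => le_rfl, fun x l => ?_⟩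
  · exact (ex x l).choose_spec.1 i hi
  · exact (ex x l).choose_spec.2

end Pool.Agent.Work.MP_610017_lc
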