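import Mathlib
import Pool.Agent.Work.MP_610017_lc.GG.StmtsC
import Pool.Agent.Work.MP_610017_lc.Bd.B02

/-!
# Block GG, item GX: generic data exist (MP_610017_lc)
-/

set_option autoImplicit false

namespace Pool.Agent.Work.MP_610017_lc

open Filter

namespace IGX

/-! ### Bounded functions -/

theorem nn_ev (s : SG) : ∀ᶠ i in atTop, 2 ≤ s.nn i + 1 := by
  filter_upwards [eventually_ge_atTop 1] with i hi
  have := s.le_nn i
  omega

theorem pow_mono_J (s : SG) (i J J' : ℕ) (h : J ≤ J') :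
    (s.nn i + 1) ^ (s.sc i ^ J) ≤ (s.nn i + 1) ^ (s.sc i ^ J') := by
  have h2 := s.two_le i
  exact Nat.pow_le_pow_right (by omega) (Nat.pow_le_pow_right (by omega) h)

theorem one_le_scJ (s : SG) (i J : ℕ) : 1 ≤ s.sc i ^ J := by
  have h2 := s.two_le i
  exact Nat.one_le_pow _ _ (by omega)

theorem double (s : SG) (i J : ℕ) : 2 * s.sc i ^ J ≤ s.sc i ^ (J + 1) := by
  have h2 := s.two_le i
  rw [pow_succ']
  exact Nat.mul_le_mul_right _ h2

theorem sbd_const (s : SG) (c : ℕ) : SBd s (fun _ _ _ => c) := by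
  intro _
  refine ⟨c, ?_⟩
  filter_upwards [nn_ev s] with i hi a b _ _
  have h2 := s.two_le i
  calc c ≤ 2 ^ c := Nat.lt_two_pow_self.le
    _ ≤ s.sc i ^ c := Nat.pow_le_pow_left h2 c
    _ ≤ 2 ^ (s.sc i ^ c) := Nat.lt_two_pow_self.le
    _ ≤ (s.nn i + 1) ^ (s.sc i ^ c) := Nat.pow_le_pow_left hi _

theorem sbd_add (s : SG) : SBd s (fun _ a b => a + b) := by
  intro J
  refine ⟨J + 1, ?_⟩
  filter_upwards [nn_ev s] with i hi a b ha hb
  have h1 := one_le_scJ s i J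
  have h2 := double s i J
  calc a + b ≤ 2 * (s.nn i + 1) ^ (s.sc i ^ J) := by omega
    _ ≤ (s.nn i + 1) * (s.nn i + 1) ^ (s.sc i ^ J) := Nat.mul_le_mul_right _ hi
    _ = (s.nn i + 1) ^ (s.sc i ^ J + 1) := by rw [pow_succ']
    _ ≤ (s.nn i + 1) ^ (s.sc i ^ (J + 1)) := Nat.pow_le_pow_right (by omega) (by omega)

theorem sbd_mul (s : SG) : SBd s (fun _ a b => a * b) := by
  intro J
  refine ⟨J + 1, ?_⟩
  filter_upwards [nn_ev s] with i hi a b ha hb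
  have h2 := double s i J
  calc a * b ≤ (s.nn i + 1) ^ (s.sc i ^ J) * (s.nn i + 1) ^ (s.sc i ^ J) :=
        Nat.mul_le_mul ha hb
    _ = (s.nn i + 1) ^ (s.sc i ^ J + s.sc i ^ J) := by rw [pow_add]
    _ ≤ (s.nn i + 1) ^ (s.sc i ^ (J + 1)) := Nat.pow_le_pow_right (by omega) (by omega)

theorem sbd_sub (s : SG) : SBd s (fun _ a b => a - b) := by
  intro J
  refine ⟨J, Eventually.of_forall fun i a b ha _ => ?_⟩
  exact (Nat.sub_le a b).trans ha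

theorem sbd_nn (s : SG) : SBd s (fun i _ _ => s.nn i + 1) := by
  intro J
  refine ⟨J, Eventually.of_forall fun i a b _ _ => ?_⟩
  have h1 := one_le_scJ s i J
  calc s.nn i + 1 = (s.nn i + 1) ^ 1 := (pow_one _).symm
    _ ≤ (s.nn i + 1) ^ (s.sc i ^ J) := Nat.pow_le_pow_right (by omega) h1

theorem sbd_kk (s : SG) : SBd s (fun i _ _ => s.kk i) := by
  intro J
  refine ⟨J, Eventually.of_forall fun i a b _ _ => ?_⟩
  have h1 := one_le_scJ s i J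
  calc s.kk i ≤ 2 ^ s.kk i := Nat.lt_two_pow_self.le
    _ ≤ s.nn i + 1 := s.pow_le i
    _ = (s.nn i + 1) ^ 1 := (pow_one _).symm
    _ ≤ (s.nn i + 1) ^ (s.sc i ^ J) := Nat.pow_le_pow_right (by omega) h1

/-! ### The requirements -/

/-- the requirement for a formula -/
def reqG (h2 : G_RF) (s : SG) {v : ℕ} (φ : Gm v) : Req s where
  v := v
  P := fun r x F => PR s φ r x F
  mono := (h2 s v φ).1
  ful := (h2 s v φ).2

/-- the requirement for a function -/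
def reqF (s : SG) (f : ℕ → ℕ → ℕ → ℕ) (hf : SBd s f) : Req s where
  v := 2
  P := fun r x _ => x = fun i => f i (r 0 i) (r 1 i)
  mono := fun _ _ _ _ h _ => h
  ful := fun r F hr hF hS => by
    refine ⟨fun i => f i (r 0 i) (r 1 i), F, ?_, hF, hS, fun i => Finset.Subset.refl _, rfl⟩
    obtain ⟨J0, h0⟩ := hr 0
    obtain ⟨J1, h1⟩ := hr 1
    obtain ⟨J', hJ'⟩ := hf (max J0 J1)
    refine ⟨J', ?_⟩
    filter_upwards [h0, h1, hJ'] with i e0 e1 e2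
    exact e2 _ _ (e0.trans (pow_mono_J s i _ _ (le_max_left _ _)))
      (e1.trans (pow_mono_J s i _ _ (le_max_right _ _)))

/-- the functions -/
def fn (s : SG) (ff : ℕ → ℕ → ℕ → ℕ → ℕ) : (ℕ ⊕ ℕ) ⊕ Fin 5 → ℕ → ℕ → ℕ → ℕ
  | Sum.inl (Sum.inl c), _, _, _ => c
  | Sum.inl (Sum.inr j), i, a, b => ff j i a b
  | Sum.inr 0, _, a, b => a + b
  | Sum.inr 1, _, a, b => a * b
  | Sum.inr 2, _, a, b => a - b
  | Sum.inr 3, i, _, _ => s.nn i + 1
  | Sum.inr 4, i, _, _ => s.kk i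

theorem fn_sbd (s : SG) (ff : ℕ → ℕ → ℕ → ℕ → ℕ) (hff : ∀ j, SBd s (ff j))
    (t : (ℕ ⊕ ℕ) ⊕ Fin 5) : SBd s (fn s ff t) := by
  rcases t with (c | j) | k
  · exact sbd_const s c
  · exact hff j
  · fin_cases k
    · exact sbd_add s
    · exact sbd_mul s
    · exact sbd_sub s
    · exact sbd_nn s
    · exact sbd_kk s

/-- all requirements -/
def req (h2 : G_RF) (s : SG) (ff : ℕ → ℕ → ℕ → ℕ → ℕ) (hff : ∀ j, SBd s (ff j)) :
    (Σ v : ℕ, Gm v) ⊕ ((ℕ ⊕ ℕ) ⊕ Fin 5) → Req s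
  | Sum.inl φ => reqG h2 s φ.2
  | Sum.inr t => reqF s (fn s ff t) (fn_sbd s ff hff t)

end IGX

open IGX in
/-- Item GX. -/
theorem pr_GX (h1 : G_GN) (h2 : G_RF) : G_GX := by
  intro s ff hff
  haveI : Countable (Σ v : ℕ, Gm v) := prf_Countable
  haveI : Nonempty ((Σ v : ℕ, Gm v) ⊕ ((ℕ ⊕ ℕ) ⊕ Fin 5)) := ⟨Sum.inr (Sum.inr 0)⟩
  obtain ⟨p, hp⟩ := exists_surjective_nat ((Σ v : ℕ, Gm v) ⊕ ((ℕ ⊕ ℕ) ⊕ Fin 5))
  obtain ⟨C, F, hbd, hok, hroom, hQ⟩ := h1 s (fun j => req h2 s ff hff (p j))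
  have key : ∀ (t : (Σ v : ℕ, Gm v) ⊕ ((ℕ ⊕ ℕ) ⊕ Fin 5))
      (r : Fin (req h2 s ff hff t).v → ℕ → ℕ), (∀ l, r l ∈ C) →
      ∃ x ∈ C, (req h2 s ff hff t).P r x F := by
    intro t
    obtain ⟨j, rfl⟩ := hp t
    exact hQ j
  have hform : ∀ (v : ℕ) (φ : Gm v) (r : Fin v → ℕ → ℕ), (∀ j, r j ∈ C) →
      ∃ x ∈ C, PR s φ r x F := fun v φ r hr => key (Sum.inl ⟨v, φ⟩) r hr
  have hfun : ∀ (t : (ℕ ⊕ ℕ) ⊕ Fin 5) (x y : ℕ → ℕ), x ∈ C → y ∈ C →
      (fun i => fn s ff t i (x i) (y i)) ∈ C := by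
    intro t x y hx hy
    obtain ⟨z, hz, hz'⟩ := key (Sum.inr t) (![x, y] : Fin 2 → ℕ → ℕ) (by
      intro l
      have : ∀ l : Fin 2, (![x, y] : Fin 2 → ℕ → ℕ) l ∈ C := by
        intro l
        fin_cases l
        · exact hx
        · exact hy
      exact this l)
    have e : z = fun i => fn s ff t i (x i) (y i) := hz'
    rw [← e]
    exact hz
  obtain ⟨x0, hx0, _⟩ := hform 0 (.eq .zero .zero) (fun l => Fin.elim0 l) (fun l => Fin.elim0 l)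
  exact ⟨{
    C := C
    F := F
    bd := hbd
    ok := hok
    room := hroom
    form := hform
    const := fun c => hfun (Sum.inl (Sum.inl c)) x0 x0 hx0 hx0
    add := fun x hx y hy => hfun (Sum.inr 0) x y hx hy
    mul := fun x hx y hy => hfun (Sum.inr 1) x y hx hy
    sub := fun x hx y hy => hfun (Sum.inr 2) x y hx hy
    nn_mem := hfun (Sum.inr 3) x0 x0 hx0 hx0
    kk_mem := hfun (Sum.inr 4) x0 x0 hx0 hx0
    op := fun j x hx y hy => hfun (Sum.inl (Sum.inr j)) x y hx hy }⟩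

end Pool.Agent.Work.MP_610017_lc
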