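import Mathlib
import Pool.Agent.Work.MP_610017_lc.GG.DBase

/-!
# Block GG, item MI (helper27)
-/

set_option autoImplicit false

namespace Pool.Agent.Work.MP_610017_lc

open DB in
theorem pr_MI (h2 : G_TX) (h3 : G_MT) : G_MI := by
  intro s ff D v φ e h0 hstep a
  by_contra ha
  obtain ⟨r, rfl⟩ := MG.reps e
  obtain ⟨ra, rfl⟩ : ∃ ra : EL D, a = MG.mk ra := ⟨Quotient.out a, (Quotient.out_eq a).symm⟩
  have hsat : ¬ (Gm.ind φ.toGm).sat (MGS D)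
      (fun j => MG.mk ((Fin.cons ra r : Fin (v + 1) → EL D) j)) := by
    rw [← MG.cons]
    rintro ⟨x, -, g1, g2⟩
    rw [Fin.tail_cons, Fm.sat_toGm] at g1 g2
    exact g2 (hstep x g1)
  have hz : φ.toGm.sat (MGS D)
      (fun j => MG.mk ((Fin.cons (EL.const D 0) r : Fin (v + 1) → EL D) j)) := by
    rw [← MG.cons, Fm.sat_toGm]
    exact h0
  have hna : ¬ φ.toGm.sat (MGS D)
      (fun j => MG.mk ((Fin.cons ra r : Fin (v + 1) → EL D) j)) := by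
    rw [← MG.cons, Fm.sat_toGm]
    exact ha
  obtain ⟨c1, hc1⟩ := (h3 s ff D (v + 1) (.ind φ.toGm) (Fin.cons ra r)).2.1 hsat
  obtain ⟨c2, hc2⟩ := (h3 s ff D (v + 1) φ.toGm (Fin.cons (EL.const D 0) r)).1.1 hz
  obtain ⟨c3, hc3⟩ := (h3 s ff D (v + 1) φ.toGm (Fin.cons ra r)).2.1 hna
  obtain ⟨A, hA⟩ := (h2 v).2 φ.toGm
  apply UU_false
  filter_upwards [hc1, hc2, hc3, room D A (c1 + c2 + c3)] with i p1 p2 p3 p4
  have h5 := hA _ _ (s.ρ i) (D.F i) (s.sc i ^ (c1 + c2 + c3))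
    (fun j => ((Fin.cons ra r : Fin (v + 1) → EL D) j).1 i) (D.ok.valid i) (D.ok.con i) p4.1 p4.2
    (fls_le D (by omega) p1)
  refine h5.2 ⟨?_, fls_le D (by omega) p3⟩
  have h6 := tru_le D (c' := c1 + c2 + c3) (by omega) p2
  rw [EL.cons] at h6 ⊢
  rw [Fin.tail_cons]
  exact h6

end Pool.Agent.Work.MP_610017_lc
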