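import Mathlib
import Pool.Agent.Work.MP_610017_lc.GG.DBase
import Pool.Agent.Work.MP_610017_lc.GG.I_TC

/-!
# Block GG, item MK (helper27)
-/

set_option autoImplicit false

namespace Pool.Agent.Work.MP_610017_lc

namespace IMK

variable {s : SG} {ff : ℕ → ℕ → ℕ → ℕ → ℕ}

theorem num (D : GD s ff) (c : ℕ) : (MGS D).num c = MG.mk (EL.const D c) := by
  induction c with
  | zero => rfl
  | succ c ih =>
    change (MGS D).succ ((MGS D).num c) = _
    rw [ih, MGS_succ]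
    exact (MG.eq_iff _ _).2 (Filter.Eventually.of_forall fun _ => rfl)

theorem vec (D : GD s ff) (p0 p1 p2 p3 p4 : EL D) (i : ℕ) :
    (fun j => ((![p0, p1, p2, p3, p4] : Fin 5 → EL D) j).1 i) =
      ![p0.1 i, p1.1 i, p2.1 i, p3.1 i, p4.1 i] := by
  funext j
  fin_cases j <;> rfl

theorem rel (D : GD s ff) (p0 p1 p2 p3 p4 : EL D) :
    (MGS D).rel ![MG.mk p0, MG.mk p1, MG.mk p2, MG.mk p3, MG.mk p4] ↔
      ∀ᶠ i in UU, TruR (s.ρ i) (D.F i) ![p0.1 i, p1.1 i, p2.1 i, p3.1 i, p4.1 i] := by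
  have h := MGS_rel D ![p0, p1, p2, p3, p4]
  have e1 : (fun j => MG.mk ((![p0, p1, p2, p3, p4] : Fin 5 → EL D) j)) =
      ![MG.mk p0, MG.mk p1, MG.mk p2, MG.mk p3, MG.mk p4] := by
    funext j
    fin_cases j <;> rfl
  rw [e1] at h
  simp only [vec] at h
  exact h

/-- atomic formulas are decided -/
theorem dec (D : GD s ff) (p0 p1 p2 p3 p4 : EL D) :
    (∀ᶠ i in UU, TruR (s.ρ i) (D.F i) ![p0.1 i, p1.1 i, p2.1 i, p3.1 i, p4.1 i]) ∨
    ∀ᶠ i in UU, FlsR (s.ρ i) (D.F i) ![p0.1 i, p1.1 i, p2.1 i, p3.1 i, p4.1 i] := by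
  obtain ⟨x, hx, c, hc⟩ := D.form 5 (.rel fun j => .var j)
    (fun j => ((![p0, p1, p2, p3, p4] : Fin 5 → EL D) j).1)
    (fun j => ((![p0, p1, p2, p3, p4] : Fin 5 → EL D) j).2)
  rw [← UU_or]
  filter_upwards [UU_le hc] with i hi
  have e := vec D p0 p1 p2 p3 p4 i
  have h0 := (pr_TM _ _ (s.ρ i) (D.F i) (D.F i) (s.sc i ^ c) 0 5 (.rel fun j => .var j)
    (.rel fun j => .var j)
    (fun j => ((![p0, p1, p2, p3, p4] : Fin 5 → EL D) j).1 i)).2.2.2.2 (fun j => .var j)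
  rcases hi with hi | hi
  · left
    rw [← e]
    exact h0.1 hi.1
  · right
    rw [← e]
    exact h0.2 hi

end IMK

open IMK in
theorem pr_MK : G_MK := by
  intro s ff D
  choose ω h1 h2 h3 using fun i => D.ok.con i
  refine ⟨ω, fun i => ⟨h1 i, h2 i⟩, fun x y a b => ⟨?_, ?_, ?_, ?_⟩⟩
  · show (MGS D).rel ![(MGS D).num 0, MG.mk x, MG.mk y, MG.mk a, MG.mk b] ↔ _
    rw [num, rel]
    constructor
    · intro h
      filter_upwards [h] with i hi
      exact (pr_TC _ _ _ _ (ω i) _ _ _ _ (h1 i) (h2 i) (h3 i)).1.1 hi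
    · intro h
      rcases dec D (EL.const D 0) x y a b with h4 | h4
      · exact h4
      · refine (UU_false ?_).elim
        filter_upwards [h, h4] with i hi hj
        exact (pr_TC _ _ _ _ (ω i) _ _ _ _ (h1 i) (h2 i) (h3 i)).1.2 hj hi
  · show (MGS D).rel ![(MGS D).num 1, MG.mk x, MG.mk y, MG.mk a, MG.mk b] ↔ _
    rw [num, rel]
    constructor
    · intro h
      filter_upwards [h] with i hi
      exact (pr_TC _ _ _ _ (ω i) _ _ _ _ (h1 i) (h2 i) (h3 i)).2.1.1 hi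
    · intro h
      rcases dec D (EL.const D 1) x y a b with h4 | h4
      · exact h4
      · refine (UU_false ?_).elim
        filter_upwards [h, h4] with i hi hj
        exact (pr_TC _ _ _ _ (ω i) _ _ _ _ (h1 i) (h2 i) (h3 i)).2.1.2 hj hi
  · intro h
    have h' : (MGS D).rel ![(MGS D).num 2, MG.mk x, MG.mk y, MG.mk a, (MGS D).num 0] := h
    rw [num, num, rel] at h'
    filter_upwards [h'] with i hi
    exact (pr_TC _ _ _ _ (ω i) _ _ _ 0 (h1 i) (h2 i) (h3 i)).2.2.1 hi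
  · intro h hC
    have h' : ¬ (MGS D).rel ![(MGS D).num 2, MG.mk x, MG.mk y, MG.mk a, (MGS D).num 0] := h
    rw [num, num, rel] at h'
    rcases dec D (EL.const D 2) x y a (EL.const D 0) with h4 | h4
    · exact absurd h4 h'
    · filter_upwards [h4, hC] with i hi hj
      exact (pr_TC _ _ _ _ (ω i) _ _ _ 0 (h1 i) (h2 i) (h3 i)).2.2.2 hi hj

end Pool.Agent.Work.MP_610017_lc
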