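import Mathlib
import Pool.Agent.Work.MP_610017_lc.Bd.B03
import Pool.Agent.Work.MP_610017_lc.GG.StmtsC

/-!
# Block GG, item TD (helper27)
-/

set_option autoImplicit false

namespace Pool.Agent.Work.MP_610017_lc

theorem pr_TD : G_TD := by
  intro k n ρ F h hV hC hk hI
  have key : ∀ T : Tree k n, HLe h T → ∃ F', F ⊆ F' ∧ F'.card ≤ F.card + 9 * h ∧
      (∀ f ∈ F', Valid f) ∧ Con ρ F' ∧ ∃ P r, Br T P r ∧ P ⊆ F' := by
    intro T hT
    classical
    obtain ⟨P, r, h1, h2⟩ := pf_Ext k n h ρ F T hV hC hT hk hI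
    obtain ⟨h3, h4⟩ := pf_BrBasic k n h T P r hT h1
    refine ⟨F ∪ P, Finset.subset_union_left, (Finset.card_union_le _ _).trans (by omega), ?_, ?_,
      P, r, h1, Finset.subset_union_right⟩
    · intro f hf
      rcases Finset.mem_union.1 hf with h5 | h5
      · exact hV f h5
      · exact h4 f h5
    · obtain ⟨ω, g1, g2, g3⟩ := h2
      exact ⟨ω, g1, g2, fun f hf => g3 f (by
        rcases Finset.mem_union.1 hf with h5 | h5
        · exact Finset.mem_union_left _ h5
        · exact Finset.mem_union_right _ h5)⟩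
  refine ⟨key, fun v φ e T hT => ?_⟩
  obtain ⟨F', h1, h2, h3, h4, P, r, h5, h6⟩ := key T (pf_RepHLe k n ρ h v φ e T hT)
  refine ⟨F', h1, h2, h3, h4, ?_⟩
  cases r with
  | true => exact Or.inl ⟨T, P, hT, h5, fun f hf => Or.inl (h6 hf)⟩
  | false => exact Or.inr ⟨T, P, hT, h5, fun f hf => Or.inl (h6 hf)⟩

end Pool.Agent.Work.MP_610017_lc
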