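import Mathlib
import Pool.Agent.Work.MP_610017_lc.GG.I_TM

/-!
# Block GG, item TW (helper27)
-/

set_option autoImplicit false

namespace Pool.Agent.Work.MP_610017_lc

open ITM in
theorem pr_TW : G_TW := by
  intro k n ρ F h v φ e hC hT
  cases φ with
  | eq s t => exact ⟨0, trivial⟩
  | le s t => exact ⟨0, trivial⟩
  | rel s => exact ⟨0, trivial⟩
  | neg φ => exact ⟨0, trivial⟩
  | and φ ψ => exact ⟨0, trivial⟩
  | bex t ψ =>
    obtain ⟨T, P, ⟨Tx, h1, _, h2, _⟩, h3, h4⟩ := hT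
    obtain ⟨x, hx, F', h5, h6⟩ := h2 P h3 (con_of_dec hC h4)
    exact ⟨x, hx, Tx x, F', h1 x hx, h5, fun f hf => dec_trans h4 (h6 f hf)⟩
  | ind ψ =>
    obtain ⟨T, P, ⟨Tx, h1, _, h2, _⟩, h3, h4⟩ := hT
    obtain ⟨x, hx, F', h5, h6⟩ := h2 P h3 (con_of_dec hC h4)
    obtain ⟨F1, F2, h7, h8, rfl⟩ := ((prf_BrAnd k n _ _).1 F').1 h5
    have h9 : Br (Tx (x + 1)) F2 false := by simpa using ((prf_BrFlip k n _).1 F2 true).1 h8
    exact ⟨x, hx, ⟨Tx x, F1, h1 x (by omega), h7,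
      fun f hf => dec_trans h4 (h6 f (Finset.mem_union_left _ hf))⟩,
      ⟨Tx (x + 1), F2, h1 (x + 1) (by omega), h9,
      fun f hf => dec_trans h4 (h6 f (Finset.mem_union_right _ hf))⟩⟩

end Pool.Agent.Work.MP_610017_lc
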