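import Mathlib
import Pool.Agent.Work.MP_610017_lc.GG.DBase
import Pool.Agent.Work.MP_610017_lc.GG.I_TL

/-!
# Block GG, item ML (helper27)
-/

set_option autoImplicit false

namespace Pool.Agent.Work.MP_610017_lc

open DB in
theorem pr_ML (h1 : G_MT) : G_ML := by
  intro s ff D v φ hφ r
  obtain ⟨A, hA⟩ := pr_TL v φ hφ
  by_cases hs : φ.sat (MGS D) (fun j => MG.mk (r j))
  · refine iff_of_true hs ?_
    rw [← Fm.sat_toGm] at hs
    obtain ⟨c, hc⟩ := (h1 s ff D v φ.toGm r).1.1 hs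
    filter_upwards [hc, room D A c] with i p1 p2
    exact (hA _ _ (s.ρ i) (D.F i) _ _ (D.ok.valid i) (D.ok.con i) p2.1 p2.2).1 p1
  · refine iff_of_false hs ?_
    rw [← Fm.sat_toGm] at hs
    obtain ⟨c, hc⟩ := (h1 s ff D v φ.toGm r).2.1 hs
    rw [UU_not]
    filter_upwards [hc, room D A c] with i p1 p2
    exact (hA _ _ (s.ρ i) (D.F i) _ _ (D.ok.valid i) (D.ok.con i) p2.1 p2.2).2 p1

end Pool.Agent.Work.MP_610017_lc
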