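import Pool.Agent.Work.MP_610017_lc.GG.StmtsD

/-!
# Block GG, item MP: powers in the model (MP_610017_lc)
-/

set_option autoImplicit false

namespace Pool.Agent.Work.MP_610017_lc

open Filter

namespace IMP

/-- the formula `w = c % (1 + (i + 1) d)` in the variables `i, w, c, d` -/
def phi : Fm 4 :=
  .and (.le (.var 1) (.mul (.succ (.var 0)) (.var 3)))
    (.bex (.var 2) (.eq (.var 3)
      (.add (.mul (.var 0) (.succ (.mul (.succ (.var 1)) (.var 4)))) (.var 2))))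

theorem phi_rfree : phi.RFree := ⟨trivial, trivial⟩

theorem phi_sat (e : Fin 4 → ℕ) :
    phi.sat stdN e ↔ e 1 = e 2 % (1 + (e 0 + 1) * e 3) := by
  have h : phi.sat stdN e ↔ e 1 ≤ (e 0 + 1) * e 3 ∧
      ∃ u : ℕ, u ≤ e 2 ∧ e 2 = u * ((e 0 + 1) * e 3 + 1) + e 1 := Iff.rfl
  rw [h]
  constructor
  · rintro ⟨h1, u, _, h3⟩
    have h4 : e 2 = e 1 + (1 + (e 0 + 1) * e 3) * u := by rw [h3]; ring
    rw [h4, Nat.add_mul_mod_self_left, Nat.mod_eq_of_lt (by omega)]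
  · intro h1
    have h2 : e 1 < 1 + (e 0 + 1) * e 3 := by
      rw [h1]
      exact Nat.mod_lt _ (by omega)
    refine ⟨by omega, e 2 / (1 + (e 0 + 1) * e 3), Nat.div_le_self _ _, ?_⟩
    have h3 := Nat.div_add_mod (e 2) (1 + (e 0 + 1) * e 3)
    rw [← h1] at h3
    calc e 2 = (1 + (e 0 + 1) * e 3) * (e 2 / (1 + (e 0 + 1) * e 3)) + e 1 := h3.symm
      _ = _ := by ring

end IMP

/-- Item MP. -/
theorem pr_MP (h : G_ML) : G_MP := by
  intro s g cf df D hcd x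
  refine ⟨⟨fun i => g (x.1 i), D.op 0 x.1 x.2 x.1 x.2⟩, fun _ => rfl, ?_⟩
  obtain ⟨y, hy⟩ : ∃ y : EL D, y = ⟨fun i => g (x.1 i), D.op 0 x.1 x.2 x.1 x.2⟩ := ⟨_, rfl⟩
  obtain ⟨c, hc⟩ : ∃ c : EL D, c = ⟨fun i => cf (x.1 i) (g (x.1 i)), D.op 2 x.1 x.2 x.1 x.2⟩ :=
    ⟨_, rfl⟩
  obtain ⟨d, hd⟩ : ∃ d : EL D, d = ⟨fun i => df (x.1 i) (g (x.1 i)), D.op 3 x.1 x.2 x.1 x.2⟩ :=
    ⟨_, rfl⟩
  rw [← hy]
  have hy' : ∀ i, y.1 i = g (x.1 i) := fun i => by rw [hy]
  have hc' : ∀ i, c.1 i = cf (x.1 i) (g (x.1 i)) := fun i => by rw [hc]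
  have hd' : ∀ i, d.1 i = df (x.1 i) (g (x.1 i)) := fun i => by rw [hd]
  -- the power function
  let p : EL D → EL D := fun j => ⟨fun i => x.1 i ^ min (j.1 i) (g (x.1 i)),
    D.op 1 x.1 x.2 j.1 j.2⟩
  let f : MG D → MG D := fun j => MG.mk (p (Quotient.out j))
  have hf : ∀ j : EL D, f (MG.mk j) = MG.mk (p j) := by
    intro j
    refine (MG.eq_iff _ _).2 ?_
    filter_upwards [MG.out_mk j] with i hi
    change x.1 i ^ min ((Quotient.out (MG.mk j)).1 i) (g (x.1 i)) =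
      x.1 i ^ min (j.1 i) (g (x.1 i))
    rw [hi]
  refine ⟨f (MG.mk y), 2, IMP.phi, ![MG.mk c, MG.mk d], f, ?_, ?_, ?_, rfl⟩
  · intro a w hal
    induction a using MG.ind' with
    | h a =>
    induction w using MG.ind' with
    | h w =>
    have he : (Fin.cons (MG.mk a) (Fin.cons (MG.mk w) ![MG.mk c, MG.mk d]) : Fin 4 → MG D) =
        fun j => MG.mk ((![a, w, c, d] : Fin 4 → EL D) j) := by
      funext j
      fin_cases j <;> rfl
    rw [he, h _ _ D 4 IMP.phi IMP.phi_rfree ![a, w, c, d], hf, MG.eq_iff]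
    rw [MGS_le] at hal
    have hk : ∀ i, a.1 i ≤ y.1 i →
        (IMP.phi.sat stdN (fun j => ((![a, w, c, d] : Fin 4 → EL D) j).1 i) ↔
          w.1 i = (p a).1 i) := by
      intro i hi
      rw [IMP.phi_sat]
      change (w.1 i = c.1 i % (1 + (a.1 i + 1) * d.1 i)) ↔ w.1 i = x.1 i ^ min (a.1 i) (g (x.1 i))
      rw [hy'] at hi
      rw [hc', hd', hcd _ _ _ hi, min_eq_left hi]
    constructor
    · intro h1
      filter_upwards [hal, h1] with i h2 h3
      exact (hk i h2).1 h3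
    · intro h1
      filter_upwards [hal, h1] with i h2 h3
      exact (hk i h2).2 h3
  · rw [MGS_zero, hf, MGS_succ, MG.eq_iff]
    refine Filter.Eventually.of_forall fun i => ?_
    change x.1 i ^ min 0 (g (x.1 i)) = 0 + 1
    rw [Nat.zero_min, pow_zero, Nat.zero_add]
  · intro a hal
    induction a using MG.ind' with
    | h a =>
    rw [MGS_succ, MGS_le] at hal
    rw [MGS_succ, hf, hf, MGS_mul, MG.eq_iff]
    filter_upwards [hal] with i hi
    have hi' : a.1 i + 1 ≤ g (x.1 i) := by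
      have h2 : a.1 i + 1 ≤ y.1 i := hi
      rw [hy'] at h2
      exact h2
    change x.1 i ^ min (a.1 i + 1) (g (x.1 i)) = x.1 i ^ min (a.1 i) (g (x.1 i)) * x.1 i
    rw [min_eq_left hi', min_eq_left (by omega), pow_succ]

end Pool.Agent.Work.MP_610017_lc
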