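import Mathlib
import Pool.Agent.Work.MP_610017_lc.GG.StmtsD

/-!
# Block GG, item MR (helper27)
-/

set_option autoImplicit false

namespace Pool.Agent.Work.MP_610017_lc

theorem pr_MR : G_MR := by
  intro s ff D
  constructor
  · intro x
    induction x using MG.ind' with
    | h x =>
      rw [MGS_succ, MGS_zero, Ne, MG.eq_iff]
      intro h
      refine UU_false (h.mono fun i hi => ?_)
      exact Nat.succ_ne_zero _ hi
  · intro x y
    induction x using MG.ind' with
    | h x =>
      induction y using MG.ind' with
      | h y =>
        rw [MGS_succ, MGS_succ, MG.eq_iff, MG.eq_iff]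
        intro h
        exact h.mono fun i hi => Nat.succ_injective hi
  · intro x
    induction x using MG.ind' with
    | h x =>
      intro hx
      rw [MGS_zero, Ne, MG.eq_iff, UU_not] at hx
      refine ⟨MG.mk (EL.sub x (EL.const D 1)), ?_⟩
      rw [MGS_succ, MG.eq_iff]
      filter_upwards [hx] with i hi
      have hi' : x.1 i ≠ 0 := hi
      show x.1 i = x.1 i - 1 + 1
      omega
  · intro x
    induction x using MG.ind' with
    | h x =>
      rw [MGS_zero, MGS_add, MG.eq_iff]
      exact Filter.Eventually.of_forall fun i => Nat.add_zero _
  · intro x y
    induction x using MG.ind' with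
    | h x =>
      induction y using MG.ind' with
      | h y =>
        rw [MGS_succ, MGS_add, MGS_add, MGS_succ, MG.eq_iff]
        exact Filter.Eventually.of_forall fun i => rfl
  · intro x
    induction x using MG.ind' with
    | h x =>
      rw [MGS_zero, MGS_mul, MG.eq_iff]
      exact Filter.Eventually.of_forall fun i => Nat.mul_zero _
  · intro x y
    induction x using MG.ind' with
    | h x =>
      induction y using MG.ind' with
      | h y =>
        rw [MGS_succ, MGS_mul, MGS_mul, MGS_add, MG.eq_iff]
        exact Filter.Eventually.of_forall fun i => Nat.mul_succ _ _
  · intro x y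
    induction x using MG.ind' with
    | h x =>
      induction y using MG.ind' with
      | h y =>
        rw [MGS_le]
        constructor
        · intro h
          refine ⟨MG.mk (EL.sub y x), ?_⟩
          rw [MGS_add, MG.eq_iff]
          filter_upwards [h] with i hi
          show y.1 i - x.1 i + x.1 i = y.1 i
          omega
        · rintro ⟨z, hz⟩
          induction z using MG.ind' with
          | h z =>
            rw [MGS_add, MG.eq_iff] at hz
            filter_upwards [hz] with i hi
            have hi' : z.1 i + x.1 i = y.1 i := hi
            omega

end Pool.Agent.Work.MP_610017_lc
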