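import Mathlib
import Pool.Agent.Work.MP_610017_lc.GG.I_TD

/-!
# Block GG, item TH (helper27)
-/

set_option autoImplicit false

namespace Pool.Agent.Work.MP_610017_lc

namespace ITH

theorem query {k n : ℕ} (ρ : Res k n) (F : Finset (Fact k n)) (hV : ∀ f ∈ F, Valid f)
    (hC : Con ρ F) (hk : 2 * (F.card + 9) + 3 ≤ k) (hI : F.card + 12 ≤ ρ.I.card) (v : Vx k)
    (a : Lb n) : ∃ F', F ⊆ F' ∧ F'.card ≤ F.card + 9 ∧ (∀ f ∈ F', Valid f) ∧ Con ρ F' ∧
      ∃ b c, (bd v = true ∨ c = false) ∧ star v a b c ⊆ F' := by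
  obtain ⟨F', h1, h2, h3, h4, P, r, h5, h6⟩ := (pr_TD k n ρ F 1 hV hC (by omega) (by omega)).1
    (.node v a fun _ _ => .leaf true) (fun _ _ => trivial)
  refine ⟨F', h1, by omega, h3, h4, ?_⟩
  cases h5 with
  | node _ _ _ b c Q _ hc hB =>
    exact ⟨b, c, hc, Finset.subset_union_left.trans h6⟩

theorem ofNat_val {n : ℕ} (z : Fin (n + 1)) : Fin.ofNat (n + 1) z.val = z := by
  apply Fin.ext
  exact Nat.mod_eq_of_lt z.2

end ITH

open ITH in
theorem pr_TH : G_TH := by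
  intro k n ρ F hV hC hk hI x y a ha
  obtain ⟨F', h1, h2, h3, h4, b, c, h5, h6⟩ := query ρ F hV hC hk hI
    (Fin.ofNat (k + 1) x, Fin.ofNat (k + 1) y) (Fin.ofNat (n + 1) a)
  refine ⟨fun hx hy => ⟨F', h1, h2, h3, h4, (b 0).val, Nat.lt_succ_iff.1 (b 0).2, ?_⟩,
    fun hx hy => ⟨F', h1, h2, h3, h4, (b 1).val, Nat.lt_succ_iff.1 (b 1).2, ?_⟩⟩
  · refine ⟨star (Fin.ofNat (k + 1) x, Fin.ofNat (k + 1) y) (Fin.ofNat (n + 1) a) b c ∪ ∅, ?_,
      fun f hf => Or.inl (h6 (by simpa using hf))⟩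
    have e : relTree k n ![0, x, y, a, (b 0).val] =
        .node (Fin.ofNat (k + 1) x, Fin.ofNat (k + 1) y) (Fin.ofNat (n + 1) a)
          fun b' _ => .leaf (decide (b' 0 = Fin.ofNat (n + 1) (b 0).val)) := by
      unfold relTree
      exact if_pos ⟨rfl, hx, hy, ha, Nat.lt_succ_iff.1 (b 0).2⟩
    rw [e]
    refine Br.node _ _ _ b c ∅ true h5 ?_
    show Br (Tree.leaf (decide (b 0 = Fin.ofNat (n + 1) (b 0).val))) ∅ true
    rw [ofNat_val, decide_eq_true rfl]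
    exact Br.leaf true
  · refine ⟨star (Fin.ofNat (k + 1) x, Fin.ofNat (k + 1) y) (Fin.ofNat (n + 1) a) b c ∪ ∅, ?_,
      fun f hf => Or.inl (h6 (by simpa using hf))⟩
    have e : relTree k n ![1, x, y, a, (b 1).val] =
        .node (Fin.ofNat (k + 1) x, Fin.ofNat (k + 1) y) (Fin.ofNat (n + 1) a)
          fun b' _ => .leaf (decide (b' 1 = Fin.ofNat (n + 1) (b 1).val)) := by
      unfold relTree
      refine (if_neg (fun h => ?_)).trans (if_pos ⟨rfl, hx, hy, ha, Nat.lt_succ_iff.1 (b 1).2⟩)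
      exact absurd h.1 (by decide : ¬ (1 : ℕ) = 0)
    rw [e]
    refine Br.node _ _ _ b c ∅ true h5 ?_
    show Br (Tree.leaf (decide (b 1 = Fin.ofNat (n + 1) (b 1).val))) ∅ true
    rw [ofNat_val, decide_eq_true rfl]
    exact Br.leaf true

end Pool.Agent.Work.MP_610017_lc
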