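import Mathlib
import Pool.Agent.Work.MP_610017_lc.GG.I_MK
import Pool.Agent.Work.MP_610017_lc.GG.I_MT
import Pool.Agent.Work.MP_610017_lc.GG.I_TH

/-!
# Block GG, item Ma: neighbours exist in the model (helper27)
-/

set_option autoImplicit false

namespace Pool.Agent.Work.MP_610017_lc

namespace IMa

open DB Filter

variable {s : SG} {ff : ℕ → ℕ → ℕ → ℕ → ℕ}

theorem hle_rel (k n h : ℕ) (hh : 1 ≤ h) (t : Fin 5 → ℕ) : HLe h (relTree k n t) := by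
  obtain ⟨m, rfl⟩ : ∃ m, h = m + 1 := ⟨h - 1, by omega⟩
  unfold relTree
  split_ifs <;> simp [HLe]

theorem vals (q : Tm 5) (cd : ℕ) (hq : ∀ e, q.val stdN e = cd) (z x y a n : ℕ) (e : Fin 4 → ℕ)
    (he : e = ![x, y, a, n]) :
    (fun j => ((![q, .var 1, .var 2, .var 3, .var 0] : Fin 5 → Tm 5) j).val stdN
      (Fin.cons z e)) = ![cd, x, y, a, z] := by
  subst he
  funext j
  fin_cases j
  · exact hq _
  · rfl
  · rfl
  · rfl
  · rfl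

theorem asg (D : GD s ff) (p0 p1 p2 p3 : EL D) (i : ℕ) :
    (fun j => ((![p0, p1, p2, p3] : Fin 4 → EL D) j).1 i) =
      ![p0.1 i, p1.1 i, p2.1 i, p3.1 i] := by
  funext j
  fin_cases j <;> rfl

theorem ngb (hX : G_TX) (D : GD s ff) (q : Tm 5) (cd : ℕ) (hq : ∀ e, q.val stdN e = cd)
    (x y a : EL D)
    (h : ∀ᶠ i in UU, ∃ F', D.F i ⊆ F' ∧ F'.card ≤ (D.F i).card + 9 ∧ (∀ f ∈ F', Valid f) ∧
      Con (s.ρ i) F' ∧ ∃ b, b ≤ s.nn i ∧ TruR (s.ρ i) F' ![cd, x.1 i, y.1 i, a.1 i, b]) :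
    ∃ z : EL D, ∀ᶠ i in UU, TruR (s.ρ i) (D.F i) ![cd, x.1 i, y.1 i, a.1 i, z.1 i] := by
  obtain ⟨z, c, h1 | h1⟩ := IMT.decided D
    (.bex (.var 3) (.rel ![q, .var 1, .var 2, .var 3, .var 0]))
    ![x, y, a, ⟨fun i => s.nn i + 1, D.nn_mem⟩]
  · refine ⟨z, ?_⟩
    filter_upwards [h1] with i hi
    have h2 := (pr_TM _ _ (s.ρ i) (D.F i) (D.F i) (s.sc i ^ c) 0 5
      (.rel ![q, .var 1, .var 2, .var 3, .var 0]) (.rel ![q, .var 1, .var 2, .var 3, .var 0])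
      (Fin.cons (z.1 i) (fun j => ((![x, y, a, ⟨fun i => s.nn i + 1, D.nn_mem⟩] :
        Fin 4 → EL D) j).1 i))).2.2.2.2 ![q, .var 1, .var 2, .var 3, .var 0]
    have h3 := h2.1 hi.2.2
    rw [vals q cd hq (z.1 i) (x.1 i) (y.1 i) (a.1 i) (s.nn i + 1) _
      (asg D x y a ⟨fun i => s.nn i + 1, D.nn_mem⟩ i)] at h3
    exact h3
  · obtain ⟨A, hA⟩ := (hX 4).1 (.var 3) (.rel ![q, .var 1, .var 2, .var 3, .var 0])
    refine (UU_false ?_).elim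
    filter_upwards [h1, h, room D (10 * A) c] with i p1 p2 p3
    obtain ⟨F', q1, q2, q3, q4, b, q5, q6⟩ := p2
    have hc : 1 ≤ s.sc i ^ c := Nat.one_le_pow _ _ (by have := s.two_le i; omega)
    have hr : A * (F'.card + s.sc i ^ c + 1) ≤
        10 * A * ((D.F i).card + s.sc i ^ c + 1) := by
      calc A * (F'.card + s.sc i ^ c + 1) ≤ A * (10 * ((D.F i).card + s.sc i ^ c + 1)) :=
            Nat.mul_le_mul_left _ (by omega)
        _ = _ := by ring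
    refine hA _ _ (s.ρ i) F' (s.sc i ^ c) _ q3 q4 (hr.trans p3.1) (hr.trans p3.2)
      ((pr_TM _ _ _ _ _ _ _ _ _ (.bex (.var 3) (.rel ![q, .var 1, .var 2, .var 3, .var 0]))
        _).2.1 q1 le_rfl p1) b ⟨?_, ?_⟩
    · show b ≤ s.nn i + 1
      omega
    · obtain ⟨P, r1, r2⟩ := q6
      refine ⟨_, P, ⟨hle_rel _ _ _ hc _, rfl⟩, ?_, r2⟩
      rw [vals q cd hq b (x.1 i) (y.1 i) (a.1 i) (s.nn i + 1) _
        (asg D x y a ⟨fun i => s.nn i + 1, D.nn_mem⟩ i)]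
      exact r1

theorem roomTH (D : GD s ff) : ∀ᶠ i in UU, 2 * ((D.F i).card + 9) + 3 ≤ s.kk i ∧
    (D.F i).card + 12 ≤ (s.ρ i).I.card := by
  filter_upwards [room D 22 0] with i hi
  rw [pow_zero] at hi
  omega

end IMa

open IMa in
theorem pr_Ma (hX : G_TX) : G_Ma := by
  intro s ff D N hN n k hn hk
  subst hN hn hk
  refine ⟨?_, ?_⟩
  · intro x y a
    obtain ⟨x, rfl⟩ : ∃ x' : EL D, x = MG.mk x' := ⟨Quotient.out x, (Quotient.out_eq x).symm⟩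
    obtain ⟨y, rfl⟩ : ∃ x' : EL D, y = MG.mk x' := ⟨Quotient.out y, (Quotient.out_eq y).symm⟩
    obtain ⟨a, rfl⟩ : ∃ x' : EL D, a = MG.mk x' := ⟨Quotient.out a, (Quotient.out_eq a).symm⟩
    intro hx hy ha
    have hx' := (MGS_lt D x ⟨s.kk, D.kk_mem⟩).1 hx
    have hy' := (MGS_le D y ⟨s.kk, D.kk_mem⟩).1 hy
    have ha' := (MGS_lt D a ⟨fun i => s.nn i + 1, D.nn_mem⟩).1 ha
    obtain ⟨z, hz⟩ := ngb hX D .zero 0 (fun _ => rfl) x y a (by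
      filter_upwards [hx', hy', ha', roomTH D] with i p1 p2 p3 p4
      exact (pr_TH _ _ (s.ρ i) (D.F i) (D.ok.valid i) (D.ok.con i) p4.1 p4.2 (x.1 i) (y.1 i)
        (a.1 i) (Nat.lt_succ_iff.1 p3)).1 p1 p2)
    have hH : (MGS D).H (MG.mk x) (MG.mk y) (MG.mk a) (MG.mk z) := by
      show (MGS D).rel ![(MGS D).num 0, MG.mk x, MG.mk y, MG.mk a, MG.mk z]
      rw [IMK.num, IMK.rel]
      exact hz
    refine ⟨MG.mk z, ?_, hH⟩
    obtain ⟨ω, _, hω⟩ := pr_MK s ff D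
    refine (MGS_lt D z ⟨fun i => s.nn i + 1, D.nn_mem⟩).2 ?_
    filter_upwards [(hω x y a z).1.1 hH] with i hi
    exact Nat.lt_succ_iff.2 hi.2.2.2.1
  · intro x y a
    obtain ⟨x, rfl⟩ : ∃ x' : EL D, x = MG.mk x' := ⟨Quotient.out x, (Quotient.out_eq x).symm⟩
    obtain ⟨y, rfl⟩ : ∃ x' : EL D, y = MG.mk x' := ⟨Quotient.out y, (Quotient.out_eq y).symm⟩
    obtain ⟨a, rfl⟩ : ∃ x' : EL D, a = MG.mk x' := ⟨Quotient.out a, (Quotient.out_eq a).symm⟩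
    intro hx hy ha
    have hx' := (MGS_le D x ⟨s.kk, D.kk_mem⟩).1 hx
    have hy' := (MGS_lt D y ⟨s.kk, D.kk_mem⟩).1 hy
    have ha' := (MGS_lt D a ⟨fun i => s.nn i + 1, D.nn_mem⟩).1 ha
    obtain ⟨z, hz⟩ := ngb hX D (.succ .zero) 1 (fun _ => rfl) x y a (by
      filter_upwards [hx', hy', ha', roomTH D] with i p1 p2 p3 p4
      exact (pr_TH _ _ (s.ρ i) (D.F i) (D.ok.valid i) (D.ok.con i) p4.1 p4.2 (x.1 i) (y.1 i)
        (a.1 i) (Nat.lt_succ_iff.1 p3)).2 p1 p2)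
    have hH : (MGS D).U (MG.mk x) (MG.mk y) (MG.mk a) (MG.mk z) := by
      show (MGS D).rel ![(MGS D).num 1, MG.mk x, MG.mk y, MG.mk a, MG.mk z]
      rw [IMK.num, IMK.rel]
      exact hz
    refine ⟨MG.mk z, ?_, hH⟩
    obtain ⟨ω, _, hω⟩ := pr_MK s ff D
    refine (MGS_lt D z ⟨fun i => s.nn i + 1, D.nn_mem⟩).2 ?_
    filter_upwards [(hω x y a z).2.1.1 hH] with i hi
    exact Nat.lt_succ_iff.2 hi.2.2.2.1

end Pool.Agent.Work.MP_610017_lc
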