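import Pool.Agent.Work.MP_610017_lc.GG.StmtsB

set_option autoImplicit false

namespace Pool.Agent.Work.MP_610017_lc

namespace ISA

theorem sq_le_two_pow (r : ℕ) (hr : 6 ≤ r) : (r + 1) ^ 2 ≤ 2 ^ r := by
  induction r, hr using Nat.le_induction with
  | base => norm_num
  | succ n hn ih =>
    have h1 : (n + 1 + 1) ^ 2 ≤ 2 * (n + 1) ^ 2 := by nlinarith
    calc (n + 1 + 1) ^ 2 ≤ 2 * (n + 1) ^ 2 := h1
      _ ≤ 2 * 2 ^ n := by omega
      _ = 2 ^ (n + 1) := by rw [pow_succ]; ring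

end ISA

theorem pr_SA : G_SA := by
  intro A
  refine ⟨2 * A + 2, 36, ?_⟩
  intro s k n m hk hs hsk h1 h2
  by_contra hm
  have hm1 : m + 1 ≤ (k + 1) ^ 2 := by omega
  set t := 2 * s ^ A with ht
  have h3 : 2 ^ k < (k + 1) ^ t := by
    calc 2 ^ k ≤ n + 1 := h1
      _ < (m + 1) ^ (s ^ A) := h2
      _ ≤ ((k + 1) ^ 2) ^ (s ^ A) := Nat.pow_le_pow_left hm1 _
      _ = (k + 1) ^ t := by rw [← pow_mul]
  have h4 : t ^ 2 ≤ k := by
    calc t ^ 2 = 4 * s ^ (2 * A) := by rw [ht, mul_pow, ← pow_mul, mul_comm A 2]; norm_num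
      _ ≤ s ^ 2 * s ^ (2 * A) := by
          apply Nat.mul_le_mul_right
          nlinarith
      _ = s ^ (2 * A + 2) := by rw [← pow_add, add_comm 2]
      _ ≤ k := hsk
  set r := Nat.sqrt k with hr
  have hr6 : 6 ≤ r := by
    rw [hr, Nat.le_sqrt']
    omega
  have h5 : t ≤ r := by
    rw [hr, Nat.le_sqrt']
    exact h4
  have h6 : k + 1 ≤ 2 ^ r := by
    have h7 : k < (r + 1) ^ 2 := by
      have := Nat.lt_succ_sqrt' k
      simpa [hr] using this
    have := ISA.sq_le_two_pow r hr6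
    omega
  have h8 : (k + 1) ^ t ≤ 2 ^ k := by
    calc (k + 1) ^ t ≤ (2 ^ r) ^ t := Nat.pow_le_pow_left h6 _
      _ = 2 ^ (r * t) := by rw [← pow_mul]
      _ ≤ 2 ^ k := by
          apply Nat.pow_le_pow_right (by norm_num)
          calc r * t ≤ r * r := Nat.mul_le_mul_left _ h5
            _ ≤ k := Nat.sqrt_le k
  omega

end Pool.Agent.Work.MP_610017_lc
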