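import Pool.Agent.Work.MP_610017_lc.GG.StmtsB
import Pool.Agent.Work.MP_610017_lc.Bd.B03

/-!
# Block GG, item SQ: the sequence of restrictions
-/

set_option autoImplicit false

namespace Pool.Agent.Work.MP_610017_lc

open Filter

namespace ISQ

/-- the recursive exponents -/
def SBq (A : ℕ → ℕ → ℕ) : ℕ → ℕ
  | 0 => 1
  | j + 1 => SBq A j + A j (SBq A j)

theorem SBq_sum (A : ℕ → ℕ → ℕ) (j : ℕ) :
    SBq A j = (∑ l ∈ Finset.range j, A l (SBq A l)) + 1 := by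
  induction j with
  | zero => rfl
  | succ j ih =>
    rw [Finset.sum_range_succ]
    show SBq A j + A j (SBq A j) = _
    omega

/-- the number of sheets -/
theorem root (e n : ℕ) (he : 1 ≤ e) : ∃ m : ℕ, m ^ e ≤ n + 1 ∧ n + 1 < (m + 1) ^ e := by
  refine ⟨Nat.findGreatest (fun m => m ^ e ≤ n + 1) (n + 1), ?_, ?_⟩
  · refine Nat.findGreatest_spec (P := fun m => m ^ e ≤ n + 1) (m := 1) (by omega) ?_
    show 1 ^ e ≤ n + 1
    rw [one_pow]
    omega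
  · by_contra hc
    push Not at hc
    have h1 : Nat.findGreatest (fun m => m ^ e ≤ n + 1) (n + 1) + 1 ≤
        (Nat.findGreatest (fun m => m ^ e ≤ n + 1) (n + 1) + 1) ^ e :=
      Nat.le_self_pow (by omega) _
    exact Nat.findGreatest_is_greatest (P := fun m => m ^ e ≤ n + 1)
      (Nat.lt_succ_self _) (h1.trans hc) hc

end ISQ

open ISQ

/-- item SQ -/
theorem pr_SQ (h1 : G_Ex) (h2 : G_Sh) (h3 : G_SA) : G_SQ := by
  classical
  intro g h hg hgh hpow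
  have : Countable (Σ v : ℕ, Gm v) := prf_Countable
  have : Nonempty ((Σ v : ℕ, Gm v) × ℕ) := ⟨(⟨0, Gm.eq Tm.zero Tm.zero⟩, 0)⟩
  obtain ⟨p, hp⟩ := exists_surjective_nat ((Σ v : ℕ, Gm v) × ℕ)
  choose cf af H using h1
  let AA : ℕ → ℕ → ℕ := fun j B => af (p j).1.1 (p j).1.2 (p j).2 B
  let B : ℕ → ℕ := SBq AA
  let aj : ℕ → ℕ := fun j => AA j (B j)
  let cj : ℕ → ℕ := fun j => cf (p j).1.1 (p j).1.2 (p j).2 (B j)
  have hBj : ∀ j, B j = (∑ l ∈ Finset.range j, aj l) + 1 := fun j => SBq_sum AA j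
  have Hj : ∀ (j k n m s : ℕ) (ρ : Res k n), 2 ≤ s → s ^ cj j ≤ m → (k + 1) ^ 2 ≤ m →
      ρ.I.card = m ^ (s ^ aj j) → n + 1 ≤ (m ^ (s ^ aj j)) ^ (s ^ B j) →
      ∃ ρ' : Res k n, ρ'.Le ρ ∧ ρ'.I.card = m ∧
      ∀ e : Fin (p j).1.1 → ℕ, (∀ l, e l ≤ (n + 1) ^ (s ^ (p j).2)) →
        ∃ T, Rep ρ' (s ^ cj j) (p j).1.2 e T :=
    fun j k n m s ρ h1 h2 h3 h4 h5 => H _ _ _ _ k n m s ρ h1 h2 h3 h4 h5
  have key : ∀ i : ℕ, ∃ (k n s : ℕ) (ρ : Res k n), i ≤ n ∧ 2 ^ k ≤ n + 1 ∧ 2 ≤ s ∧ i ≤ s ∧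
      s ^ i ≤ k ∧ s ^ i ≤ ρ.I.card ∧ (k = h (n + 1) ∧ s = g (n + 1)) ∧
      ∀ j ≤ i, ∀ e : Fin (p j).1.1 → ℕ, (∀ l, e l ≤ (n + 1) ^ (s ^ (p j).2)) →
        ∃ T, Rep ρ (s ^ cj j) (p j).1.2 e T := by
    intro i
    obtain ⟨A, hA⟩ : ∃ A, A = ∑ l ∈ Finset.Ico 0 (i + 1), aj l := ⟨_, rfl⟩
    obtain ⟨cA, k0, hSA⟩ := h3 A
    obtain ⟨J, hJ1, hJ2, hJ3⟩ : ∃ J : ℕ, cA ≤ J ∧ i + 1 ≤ J ∧ ∀ j ≤ i, cj j ≤ J := by
      refine ⟨cA + (i + 1) + ∑ j ∈ Finset.range (i + 1), cj j, by omega, by omega,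
        fun j hj => ?_⟩
      have := Finset.single_le_sum (f := cj) (s := Finset.range (i + 1))
        (fun _ _ => Nat.zero_le _) (Finset.mem_range.2 (Nat.lt_succ_of_le hj))
      omega
    obtain ⟨x0, hx0⟩ := hgh J
    obtain ⟨x1, hx1⟩ := eventually_atTop.1 (hg.eventually_ge_atTop (i + 2 + k0))
    obtain ⟨n, hn0, hn1, hni⟩ : ∃ n, x0 ≤ n + 1 ∧ x1 ≤ n + 1 ∧ i ≤ n :=
      ⟨x0 + x1 + i, by omega, by omega, by omega⟩
    obtain ⟨k, hk⟩ : ∃ k, k = h (n + 1) := ⟨_, rfl⟩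
    obtain ⟨s, hs⟩ : ∃ s, s = g (n + 1) := ⟨_, rfl⟩
    have hs1 : i + 2 + k0 ≤ s := by
      rw [hs]
      exact hx1 _ hn1
    have hs2 : 2 ≤ s := by omega
    have hsk : s ^ J ≤ k := by
      rw [hs, hk]
      exact hx0 _ hn0
    have hmon : ∀ c, c ≤ J → s ^ c ≤ k := fun c hc =>
      (Nat.pow_le_pow_right (by omega) hc).trans hsk
    have hk1 : 2 ^ k ≤ n + 1 := by
      rw [hk]
      exact hpow _ (by omega)
    have hsk1 : s ≤ k := by
      have h4 := hmon 1 (by omega)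
      rwa [pow_one] at h4
    have hspos : ∀ e : ℕ, 1 ≤ s ^ e := fun e => Nat.one_le_pow _ _ (by omega)
    obtain ⟨m, hm1, hm2⟩ := root (s ^ A) n (hspos A)
    have hkm : (k + 1) ^ 2 ≤ m :=
      hSA s k n m (by omega) hs2 (hmon cA hJ1) hk1 hm2
    have hkm' : k ≤ m := by nlinarith
    have hm2' : 2 ≤ m := by omega
    -- the numbers of sheets
    obtain ⟨ex, hex⟩ : ∃ ex : ℕ → ℕ, ∀ j, ex j = ∑ l ∈ Finset.Ico j (i + 1), aj l :=
      ⟨_, fun _ => rfl⟩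
    have hex0 : ex 0 = A := by rw [hex, hA]
    have hexs : ∀ j ≤ i, ex j = aj j + ex (j + 1) := by
      intro j hji
      rw [hex, hex, Finset.sum_eq_sum_Ico_succ_bot (Nat.lt_succ_of_le hji)]
    have hexB : ∀ j ≤ i, ex j + B j = A + 1 := by
      intro j hji
      rw [hex, hBj, hA, ← Finset.range_eq_Ico]
      have h4 := Finset.sum_range_add_sum_Ico aj (show j ≤ i + 1 by omega)
      omega
    have hexl : ex (i + 1) = 0 := by
      rw [hex, Finset.Ico_self, Finset.sum_empty]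
    obtain ⟨M, hM⟩ : ∃ M : ℕ → ℕ, ∀ j, M j = m ^ (s ^ ex j) := ⟨_, fun _ => rfl⟩
    have hM1 : ∀ j, m ≤ M j := by
      intro j
      rw [hM]
      exact Nat.le_self_pow (by have := hspos (ex j); omega) _
    have hMs : ∀ j ≤ i, M j = M (j + 1) ^ (s ^ aj j) := by
      intro j hji
      rw [hM, hM, ← pow_mul, ← pow_add, hexs j hji, add_comm]
    have hMB : ∀ j ≤ i, n + 1 ≤ M j ^ (s ^ B j) := by
      intro j hji
      have e1 : M j ^ (s ^ B j) = m ^ (s ^ (A + 1)) := by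
        rw [hM, ← pow_mul, ← pow_add, hexB j hji]
      rw [e1]
      have e2 : m + 1 ≤ m ^ 2 := by nlinarith
      calc n + 1 ≤ (m + 1) ^ (s ^ A) := hm2.le
        _ ≤ (m ^ 2) ^ (s ^ A) := Nat.pow_le_pow_left e2 _
        _ = m ^ (2 * s ^ A) := by rw [← pow_mul]
        _ ≤ m ^ (s ^ (A + 1)) := by
          refine Nat.pow_le_pow_right (by omega) ?_
          rw [pow_succ, mul_comm]
          exact Nat.mul_le_mul_left _ hs2
    have claim : ∀ j ≤ i + 1, ∃ ρ : Res k n, ρ.I.card = M j ∧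
        ∀ j' < j, ∀ e : Fin (p j').1.1 → ℕ, (∀ l, e l ≤ (n + 1) ^ (s ^ (p j').2)) →
          ∃ T, Rep ρ (s ^ cj j') (p j').1.2 e T := by
      intro j
      induction j with
      | zero =>
        intro _
        have htop : (Seq_top k n).I.card = n + 1 := by
          show (Finset.univ : Finset (Lb n)).card = n + 1
          rw [Finset.card_univ, Fintype.card_fin]
        obtain ⟨ρ, -, hρ⟩ := h2 k n (M 0) (Seq_top k n) (by have := hM1 0; omega)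
          (by rw [htop, hM, hex0]; exact hm1)
        exact ⟨ρ, hρ, fun j' hj' => absurd hj' (Nat.not_lt_zero _)⟩
      | succ j ih =>
        intro hji
        obtain ⟨ρ, hρ1, hρ2⟩ := ih (by omega)
        have hji' : j ≤ i := by omega
        obtain ⟨ρ', r1, r2, r3⟩ := Hj j k n (M (j + 1)) s ρ hs2
          ((hmon _ (hJ3 j hji')).trans (hkm'.trans (hM1 _))) (hkm.trans (hM1 _))
          (by rw [hρ1, hMs j hji']) (by rw [← hMs j hji']; exact hMB j hji')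
        refine ⟨ρ', r2, fun j' hj' e he => ?_⟩
        rcases Nat.lt_succ_iff_lt_or_eq.1 hj' with hlt | heq
        · obtain ⟨T, hT⟩ := hρ2 j' hlt e he
          exact ⟨T, pf_RepMono _ _ _ _ _ _ _ _ _ _ r1 le_rfl hT⟩
        · subst heq
          exact r3 e he
    obtain ⟨ρ, hρ1, hρ2⟩ := claim (i + 1) le_rfl
    refine ⟨k, n, s, ρ, hni, hk1, hs2, by omega, hmon i (by omega), ?_, ⟨hk, hs⟩,
      fun j hji => hρ2 j (Nat.lt_succ_of_le hji)⟩
    rw [hρ1]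
    exact (hmon i (by omega)).trans (hkm'.trans (hM1 _))
  choose kk nn sc ρ k1 k2 k3 k4 k5 k6 k7 k8 using key
  refine ⟨⟨kk, nn, sc, ρ, k1, k2, k3, k4, fun c => ?_, fun c => ?_, fun v φ J => ?_⟩, k7⟩
  · filter_upwards [eventually_ge_atTop c] with i hi
    exact (Nat.pow_le_pow_right (by have := k3 i; omega) hi).trans (k5 i)
  · filter_upwards [eventually_ge_atTop c] with i hi
    exact (Nat.pow_le_pow_right (by have := k3 i; omega) hi).trans (k6 i)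
  · obtain ⟨j, hj1⟩ := hp (⟨v, φ⟩, J)
    have h5 : ∀ (x : (Σ v : ℕ, Gm v) × ℕ), p j = x → ∀ i, j ≤ i → ∀ e : Fin x.1.1 → ℕ,
        (∀ l, e l ≤ (nn i + 1) ^ (sc i ^ x.2)) → ∃ T, Rep (ρ i) (sc i ^ cj j) x.1.2 e T := by
      rintro x rfl i hi
      exact k8 i j hi
    refine ⟨cj j, ?_⟩
    filter_upwards [eventually_ge_atTop j] with i hi
    exact fun e he => h5 _ hj1 i hi e he

end Pool.Agent.Work.MP_610017_lc
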