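import Mathlib
import Pool.Agent.Work.MP_610017_lc.GG.StmtsB

/-!
# Block GG, item Sh (helper27)
-/

set_option autoImplicit false

namespace Pool.Agent.Work.MP_610017_lc

theorem pr_Sh : G_Sh := by
  intro k n m ρ h1 h2
  obtain ⟨I', h3, h4, h5⟩ := Finset.exists_subsuperset_card_eq
    (Finset.singleton_subset_iff.2 ρ.zero_mem) (by rw [Finset.card_singleton]; exact h1) h2
  refine ⟨⟨ρ.β, ρ.ζ, I', Finset.singleton_subset_iff.1 h3, ρ.corner⟩, ⟨h4, ?_⟩, h5⟩
  exact ⟨fun _ _ _ => rfl, fun _ _ => rfl, ρ.corner⟩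

end Pool.Agent.Work.MP_610017_lc
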