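import Mathlib
import Pool.Agent.Work.MP_610017_lc.GG.StmtsC
import Pool.Agent.Work.MP_610017_lc.Bd.B03

/-!
# Item TX: false formulas have no witness, and the finite induction principle (MP_610017_lc)
-/

set_option autoImplicit false

namespace Pool.Agent.Work.MP_610017_lc

namespace ITX

/-- a decided fact holds in every covering in which the facts hold -/
theorem dec_holds {k n : ℕ} {ρ : Res k n} {ω : GW k n} {F : Finset (Fact k n)}
    (hE : Ext ρ ω.β ω.ζ) (hF : ∀ f ∈ F, holds ω f) {f : Fact k n} (h : Dec ρ F f) :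
    holds ω f := by
  rcases h with h | h
  · exact hF f h
  · cases f with
    | edge v w a b =>
      obtain ⟨i, hi, h1, h2⟩ := h
      have e1 : ω.β v i = a := (hE.beta v i hi).trans h1
      have e2 : ω.β w i = b := (hE.beta w i hi).trans h2
      show (ω.β v).symm a = (ω.β w).symm b
      rw [← e1, ← e2, Equiv.symm_apply_apply, Equiv.symm_apply_apply]
    | col v a c =>
      obtain ⟨i, hi, h1, h2⟩ := h
      have e1 : ω.β v i = a := (hE.beta v i hi).trans h1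
      have hz : i ≠ 0 := fun h0 => hi (h0 ▸ ρ.zero_mem)
      show if (ω.β v).symm a = 0 then ω.χ v = some c else ω.ζ ((ω.β v).symm a) = c
      rw [← e1, Equiv.symm_apply_apply, if_neg hz, hE.zeta i hi, h2]

/-- decided facts of a consistent set are consistent -/
theorem con_of {k n : ℕ} {ρ : Res k n} {F P : Finset (Fact k n)} (hC : Con ρ F)
    (hP : ∀ f ∈ P, Dec ρ F f) : Con ρ P := by
  obtain ⟨ω, hE, hχ, hF⟩ := hC
  exact ⟨ω, hE, hχ, fun f hf => dec_holds hE hF (hP f hf)⟩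

theorem dec_mono {k n : ℕ} {ρ : Res k n} {F F' : Finset (Fact k n)} (h : F ⊆ F')
    {f : Fact k n} (hf : Dec ρ F f) : Dec ρ F' f :=
  hf.imp (fun h1 => h h1) id

theorem room {D D1 a b h N : ℕ} (hD : D = 40 * D1 + 400) (hN : D * (a + h + 1) ≤ N)
    (hb : b ≤ a + 18 * h) : D1 * (b + h + 1) ≤ N := by
  have h1 : b + h + 1 ≤ 40 * (a + h + 1) := by omega
  calc D1 * (b + h + 1) ≤ D1 * (40 * (a + h + 1)) := Nat.mul_le_mul_left _ h1
    _ = (40 * D1) * (a + h + 1) := by ring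
    _ ≤ D * (a + h + 1) := Nat.mul_le_mul_right _ (by omega)
    _ ≤ N := hN

theorem room2 {D D1 a h N : ℕ} (hD : D = 40 * D1 + 400) (hN : D * (a + h + 1) ≤ N) :
    400 * (a + h + 1) ≤ N :=
  (Nat.mul_le_mul_right _ (by omega)).trans hN

/-- part (1): bounded existential quantifier -/
theorem part1 (h1 : G_TM) (h2 : G_TD) (h3 : G_TU) (v : ℕ) (t : Tm v) (ψ : Gm (v + 1)) :
    ∃ D : ℕ, ∀ (k n : ℕ) (ρ : Res k n) (F : Finset (Fact k n))
    (h : ℕ) (e : Fin v → ℕ), (∀ f ∈ F, Valid f) → Con ρ F →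
    D * (F.card + h + 1) ≤ k → D * (F.card + h + 1) ≤ ρ.I.card → Fls ρ F h (.bex t ψ) e →
    ∀ x, ¬ Wit ρ F h (.bex t ψ) e x := by
  obtain ⟨D1, hD1⟩ := h3 (v + 1) ψ
  refine ⟨40 * D1 + 400, ?_⟩
  intro k n ρ F h e hV hC hk hI hF x hx
  obtain ⟨T, P, hR, hB, hP⟩ := hF
  obtain ⟨Tx, hTx, hO⟩ := hR
  obtain ⟨hx1, hx2⟩ := hx
  have k1 := room2 rfl hk
  have k2 := room2 rfl hI
  obtain ⟨F', hs, hc, hV', hC', Q, r, hQ, hQs⟩ :=
    (h2 k n ρ F h hV hC (by omega) (by omega)).1 (Tx x)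
      (pf_RepHLe k n ρ h (v + 1) ψ _ _ (hTx x hx1))
  cases r with
  | true =>
    refine hO.2.2 P hB x hx1 Q hQ (con_of hC' ?_)
    intro f hf
    rcases Finset.mem_union.1 hf with hf | hf
    · exact dec_mono hs (hP f hf)
    · exact Or.inl (hQs hf)
  | false =>
    refine hD1 k n ρ F' h (Fin.cons x e) hV' hC' (room rfl hk (by omega))
      (room rfl hI (by omega)) ⟨?_, ?_⟩
    · exact (h1 k n ρ F F' h h (v + 1) ψ ψ (Fin.cons x e)).1 hs le_rfl hx2
    · exact ⟨Tx x, Q, hTx x hx1, hQ, fun f hf => Or.inl (hQs hf)⟩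

/-- part (2): the witness of a false induction formula -/
theorem part2 (h1 : G_TM) (h2 : G_TD) (h3 : G_TU) (v : ℕ) (ψ : Gm (v + 1)) :
    ∃ D : ℕ, ∀ (k n : ℕ) (ρ : Res k n) (F : Finset (Fact k n)) (h : ℕ)
    (e : Fin (v + 1) → ℕ), (∀ f ∈ F, Valid f) → Con ρ F →
    D * (F.card + h + 1) ≤ k → D * (F.card + h + 1) ≤ ρ.I.card → Fls ρ F h (.ind ψ) e →
    (∀ x, ¬ Wit ρ F h (.ind ψ) e x) ∧
    ¬ (Tru ρ F h ψ (Fin.cons 0 (Fin.tail e)) ∧ Fls ρ F h ψ e) := by
  obtain ⟨D1, hD1⟩ := h3 (v + 1) ψ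
  refine ⟨40 * D1 + 400, ?_⟩
  intro k n ρ F h e hV hC hk hI hF
  obtain ⟨T, P, hR, hB, hP⟩ := hF
  obtain ⟨Tx, hTx, hO⟩ := hR
  have k1 := room2 rfl hk
  have k2 := room2 rfl hI
  have hHt : ∀ x, x ≤ e 0 + 1 → HLe h (Tx x) := fun x hx =>
    pf_RepHLe k n ρ h (v + 1) ψ _ _ (hTx x hx)
  refine ⟨?_, ?_⟩
  · intro x hx
    obtain ⟨hx1, hx2, hx3⟩ := hx
    have hH : HLe (h + h) (andT (Tx x) (Tx (x + 1)).flip) :=
      (prf_BrAnd k n (Tx x) (Tx (x + 1)).flip).2.2 h h (hHt x (by omega))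
        (((prf_BrFlip k n (Tx (x + 1))).2 h).2 (hHt (x + 1) (by omega)))
    obtain ⟨F', hs, hc, hV', hC', Q, r, hQ, hQs⟩ :=
      (h2 k n ρ F (h + h) hV hC (by omega) (by omega)).1 _ hH
    cases r with
    | true =>
      refine hO.2.2 P hB x hx1 Q hQ (con_of hC' ?_)
      intro f hf
      rcases Finset.mem_union.1 hf with hf | hf
      · exact dec_mono hs (hP f hf)
      · exact Or.inl (hQs hf)
    | false =>
      rcases ((prf_BrAnd k n (Tx x) (Tx (x + 1)).flip).2.1 Q).1 hQ with hQ1 | hQ1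
      · refine hD1 k n ρ F' h (Fin.cons x (Fin.tail e)) hV' hC' (room rfl hk (by omega))
          (room rfl hI (by omega)) ⟨?_, ?_⟩
        · exact (h1 k n ρ F F' h h (v + 1) ψ ψ (Fin.cons x (Fin.tail e))).1 hs le_rfl hx2
        · exact ⟨Tx x, Q, hTx x (by omega), hQ1, fun f hf => Or.inl (hQs hf)⟩
      · obtain ⟨F1, F2, _, hF2, hQe⟩ := hQ1
        have hF2' : Br (Tx (x + 1)) F2 true := by
          simpa using ((prf_BrFlip k n (Tx (x + 1))).1 F2 false).1 hF2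
        refine hD1 k n ρ F' h (Fin.cons (x + 1) (Fin.tail e)) hV' hC'
          (room rfl hk (by omega)) (room rfl hI (by omega)) ⟨?_, ?_⟩
        · refine ⟨Tx (x + 1), F2, hTx (x + 1) (by omega), hF2', fun f hf => Or.inl (hQs ?_)⟩
          rw [hQe]
          exact Finset.mem_union_right _ hf
        · exact (h1 k n ρ F F' h h (v + 1) ψ ψ (Fin.cons (x + 1) (Fin.tail e))).2.1 hs le_rfl hx3
  · rintro ⟨hT, hFl⟩
    obtain ⟨F1, hs1, hc1, hV1, hC1, Fz, r, hFz, hFzs⟩ :=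
      (h2 k n ρ F h hV hC (by omega) (by omega)).1 (Tx 0) (hHt 0 (by omega))
    have hr : r = true := by
      cases r with
      | true => rfl
      | false =>
        exact (hD1 k n ρ F1 h (Fin.cons 0 (Fin.tail e)) hV1 hC1 (room rfl hk (by omega))
          (room rfl hI (by omega))
          ⟨(h1 k n ρ F F1 h h (v + 1) ψ ψ (Fin.cons 0 (Fin.tail e))).1 hs1 le_rfl hT,
            ⟨Tx 0, Fz, hTx 0 (by omega), hFz, fun f hf => Or.inl (hFzs hf)⟩⟩).elim
    subst hr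
    obtain ⟨F2, hs2, hc2, hV2, hC2, Fa, r, hFa, hFas⟩ :=
      (h2 k n ρ F1 h hV1 hC1 (by omega) (by omega)).1 (Tx (e 0)) (hHt (e 0) (by omega))
    have hr : r = false := by
      cases r with
      | false => rfl
      | true =>
        refine (hD1 k n ρ F2 h e hV2 hC2 (room rfl hk (by omega))
          (room rfl hI (by omega)) ⟨?_, ?_⟩).elim
        · have h5 := hTx (e 0) (by omega)
          rw [Fin.cons_self_tail] at h5
          exact ⟨Tx (e 0), Fa, h5, hFa, fun f hf => Or.inl (hFas hf)⟩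
        · exact (h1 k n ρ F F2 h h (v + 1) ψ ψ e).2.1 (hs1.trans hs2) le_rfl hFl
    subst hr
    refine pf_FinInd k n h (e 0) ρ Tx T P Fa Fz hHt hO hB hFa hFz (con_of hC2 ?_)
      (by omega) (by omega)
    intro f hf
    rcases Finset.mem_union.1 hf with hf | hf
    · rcases Finset.mem_union.1 hf with hf | hf
      · exact dec_mono (hs1.trans hs2) (hP f hf)
      · exact Or.inl (hFas hf)
    · exact Or.inl (hs2 (hFzs hf))

end ITX

/-- item TX -/
theorem pr_TX (h1 : G_TM) (h2 : G_TD) (h3 : G_TU) : G_TX := fun v =>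
  ⟨ITX.part1 h1 h2 h3 v, ITX.part2 h1 h2 h3 v⟩

end Pool.Agent.Work.MP_610017_lc
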