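import Mathlib
import Pool.Agent.Work.MP_610017_lc.GG.AllA
import Pool.Agent.Work.MP_610017_lc.GG.FinalH
import Pool.Agent.Work.MP_610017_lc.GG.I_EA
import Pool.Agent.Work.MP_610017_lc.GG.I_EN
import Pool.Agent.Work.MP_610017_lc.GG.I_EB
import Pool.Agent.Work.MP_610017_lc.GG.I_Sh
import Pool.Agent.Work.MP_610017_lc.GG.I_SA
import Pool.Agent.Work.MP_610017_lc.GG.I_SQ
import Pool.Agent.Work.MP_610017_lc.GG.I_TX
import Pool.Agent.Work.MP_610017_lc.GG.I_TU
import Pool.Agent.Work.MP_610017_lc.GG.I_RF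
import Pool.Agent.Work.MP_610017_lc.GG.I_GX
import Pool.Agent.Work.MP_610017_lc.GG.I_GB
import Pool.Agent.Work.MP_610017_lc.GG.I_BO
import Pool.Agent.Work.MP_610017_lc.GG.I_MR
import Pool.Agent.Work.MP_610017_lc.GG.I_MT
import Pool.Agent.Work.MP_610017_lc.GG.I_MI
import Pool.Agent.Work.MP_610017_lc.GG.I_ML
import Pool.Agent.Work.MP_610017_lc.GG.I_MK
import Pool.Agent.Work.MP_610017_lc.GG.I_Ma
import Pool.Agent.Work.MP_610017_lc.GG.I_Mb
import Pool.Agent.Work.MP_610017_lc.GG.I_Mc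
import Pool.Agent.Work.MP_610017_lc.GG.I_MP

/-!
# Block GG: assembly of the growth theorem (MP_610017_lc)
-/

set_option autoImplicit false

namespace Pool.Agent.Work.MP_610017_lc

theorem all_Ex : G_Ex := pr_Ex pr_EA pr_EN (pr_EB all_OR) (pr_EI all_OR)

theorem all_SQ : G_SQ := pr_SQ all_Ex pr_Sh pr_SA

theorem all_TX : G_TX := pr_TX pr_TM pr_TD pr_TU

theorem all_MT : G_MT := pr_MT all_TX

theorem all_ML : G_ML := pr_ML all_MT

/-- the growth theorem, from the existence of generic sequences -/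
theorem pf_GG_of (hGN : G_GN) : S_GG :=
  pr_GG all_SQ pr_GB pr_BO (pr_GX hGN pr_RF) pr_MR (pr_MI all_TX all_MT) all_ML
    (pr_Ma all_TX) (pr_Mb pr_MK) (pr_Mc pr_MK) (pr_MP all_ML)

end Pool.Agent.Work.MP_610017_lc
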