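import Mathlib
import Pool.Agent.Work.MP_610017_lc.GG.StmtsC

/-!
# Block GG, item GN: countably many requirements (helper60)
-/

set_option autoImplicit false

namespace Pool.Agent.Work.MP_610017_lc

open Filter

namespace IGN

/-- a state of the construction -/
structure St (s : SG) where
  X : ℕ → ℕ → ℕ
  F : Fam s
  bd : ∀ l, Bd s (X l)
  ok : OkF s F
  small : Small s F

theorem con_empty {k n : ℕ} (ρ : Res k n) : Con ρ ∅ :=
  ⟨⟨ρ.β, ρ.ζ, spec⟩, ⟨fun _ _ _ => rfl, fun _ _ => rfl, ρ.corner⟩, rfl, fun f hf => by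
    simp at hf⟩

/-- the first state -/
def init (s : SG) : St s where
  X := fun _ _ => 0
  F := fun _ => ∅
  bd := fun _ => ⟨0, Eventually.of_forall fun i => Nat.zero_le _⟩
  ok := ⟨fun i f hf => by simp at hf, fun i => con_empty _⟩
  small := ⟨0, Eventually.of_forall fun i => by simp⟩

theorem step (s : SG) (Q : ℕ → Req s) (S : St s) (l : ℕ) (t : Σ j : ℕ, (Fin (Q j).v → ℕ)) :
    ∃ S' : St s, (∀ m, m ≠ l → S'.X m = S.X m) ∧ (∀ i, S.F i ⊆ S'.F i) ∧
      (Q t.1).P (fun a => S.X (t.2 a)) (S'.X l) S'.F := by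
  obtain ⟨x, F', hx, hok, hsm, hsub, hP⟩ := (Q t.1).ful (fun a => S.X (t.2 a)) S.F
    (fun a => S.bd _) S.ok S.small
  refine ⟨⟨Function.update S.X l x, F', fun m => ?_, hok, hsm⟩, fun m hm => ?_, hsub, ?_⟩
  · by_cases h : m = l
    · subst h
      simpa using hx
    · rw [Function.update_of_ne h]
      exact S.bd m
  · exact Function.update_of_ne hm _ _
  · simpa using hP

/-- the states -/
noncomputable def sq (s : SG) (Q : ℕ → Req s) (p : ℕ → Σ j : ℕ, (Fin (Q j).v → ℕ)) : ℕ → St s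
  | 0 => init s
  | l + 1 => (step s Q (sq s Q p l) l (p l.unpair.1)).choose

theorem sq_spec (s : SG) (Q : ℕ → Req s) (p : ℕ → Σ j : ℕ, (Fin (Q j).v → ℕ)) (l : ℕ) :
    (∀ m, m ≠ l → (sq s Q p (l + 1)).X m = (sq s Q p l).X m) ∧
    (∀ i, (sq s Q p l).F i ⊆ (sq s Q p (l + 1)).F i) ∧
      ∀ t, p l.unpair.1 = t → (Q t.1).P (fun a => (sq s Q p l).X (t.2 a))
        ((sq s Q p (l + 1)).X l) (sq s Q p (l + 1)).F := by
  refine ⟨(step s Q (sq s Q p l) l (p l.unpair.1)).choose_spec.1,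
    (step s Q (sq s Q p l) l (p l.unpair.1)).choose_spec.2.1, ?_⟩
  rintro t rfl
  exact (step s Q (sq s Q p l) l (p l.unpair.1)).choose_spec.2.2

theorem sq_X (s : SG) (Q : ℕ → Req s) (p : ℕ → Σ j : ℕ, (Fin (Q j).v → ℕ)) (a m : ℕ)
    (h : a + 1 ≤ m) : (sq s Q p m).X a = (sq s Q p (a + 1)).X a := by
  induction m, h using Nat.le_induction with
  | base => rfl
  | succ m hm ih => rw [(sq_spec s Q p m).1 a (by omega), ih]

theorem sq_F (s : SG) (Q : ℕ → Req s) (p : ℕ → Σ j : ℕ, (Fin (Q j).v → ℕ)) (i a m : ℕ)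
    (h : a ≤ m) : (sq s Q p a).F i ⊆ (sq s Q p m).F i := by
  induction m, h using Nat.le_induction with
  | base => exact Finset.Subset.refl _
  | succ m hm ih => exact ih.trans ((sq_spec s Q p m).2.1 i)

/-- there is room for the state `l` at `i` -/
def Gd (s : SG) (S : ℕ → St s) (l i : ℕ) : Prop :=
  s.sc i ^ l * (((S l).F i).card + s.sc i ^ l) ≤ s.kk i ∧
  s.sc i ^ l * (((S l).F i).card + s.sc i ^ l) ≤ (s.ρ i).I.card

theorem gd_ev (s : SG) (S : ℕ → St s) (l : ℕ) : ∀ᶠ i in atTop, Gd s S l i := by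
  obtain ⟨c, hc⟩ := (S l).small
  filter_upwards [hc, s.sc_kk (l + (max c l + 1)), s.sc_I (l + (max c l + 1))] with i h1 h2 h3
  have hs := s.two_le i
  have h4 : s.sc i ^ c ≤ s.sc i ^ (max c l) := Nat.pow_le_pow_right (by omega) (le_max_left _ _)
  have h5 : s.sc i ^ l ≤ s.sc i ^ (max c l) := Nat.pow_le_pow_right (by omega) (le_max_right _ _)
  have h6 : s.sc i ^ (max c l) * 2 ≤ s.sc i ^ (max c l) * s.sc i := Nat.mul_le_mul_left _ hs
  have h7 : ((S l).F i).card + s.sc i ^ l ≤ s.sc i ^ (max c l + 1) := by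
    rw [pow_succ]
    omega
  have h8 : s.sc i ^ l * (((S l).F i).card + s.sc i ^ l) ≤ s.sc i ^ (l + (max c l + 1)) := by
    rw [pow_add (s.sc i) l]
    exact Nat.mul_le_mul_left _ h7
  exact ⟨h8.trans h2, h8.trans h3⟩

theorem gd_all (s : SG) (S : ℕ → St s) (l : ℕ) :
    ∀ᶠ i in atTop, ∀ l', l' ≤ l → Gd s S l' i := by
  induction l with
  | zero =>
    filter_upwards [gd_ev s S 0] with i hi l' hl'
    obtain rfl : l' = 0 := by omega
    exact hi
  | succ l ih =>
    filter_upwards [ih, gd_ev s S (l + 1)] with i hi hj l' hl'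
    rcases Nat.lt_or_ge l' (l + 1) with h | h
    · exact hi l' (by omega)
    · obtain rfl : l' = l + 1 := by omega
      exact hj

open Classical in
/-- the diagonal index -/
noncomputable def LL (s : SG) (S : ℕ → St s) (i : ℕ) : ℕ :=
  Nat.findGreatest (fun l => ∀ l', l' ≤ l → Gd s S l' i) i

theorem LL_ev (s : SG) (S : ℕ → St s) (l : ℕ) :
    ∀ᶠ i in atTop, l ≤ LL s S i ∧ Gd s S (LL s S i) i := by
  classical
  filter_upwards [gd_all s S l, eventually_ge_atTop l] with i h1 h2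
  have h3 : l ≤ Nat.findGreatest (fun l => ∀ l', l' ≤ l → Gd s S l' i) i :=
    Nat.le_findGreatest h2 h1
  have h4 : ∀ l', l' ≤ Nat.findGreatest (fun l => ∀ l', l' ≤ l → Gd s S l' i) i →
      Gd s S l' i :=
    Nat.findGreatest_spec (P := fun l => ∀ l', l' ≤ l → Gd s S l' i) h2 h1
  have h5 : LL s S i = Nat.findGreatest (fun l => ∀ l', l' ≤ l → Gd s S l' i) i := by
    unfold LL
    congr
  rw [h5]
  exact ⟨h3, h4 _ le_rfl⟩

end IGN

theorem pr_GN : G_GN := by
  intro s Q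
  obtain ⟨p, hp⟩ := exists_surjective_nat (Σ j : ℕ, (Fin (Q j).v → ℕ))
  set S : ℕ → IGN.St s := IGN.sq s Q p with hS
  refine ⟨Set.range fun a => (S (a + 1)).X a, fun i => (S (IGN.LL s S i)).F i, ?_, ?_, ?_, ?_⟩
  · rintro x ⟨a, rfl⟩
    exact (S (a + 1)).bd a
  · exact ⟨fun i => (S (IGN.LL s S i)).ok.valid i, fun i => (S (IGN.LL s S i)).ok.con i⟩
  · intro c
    filter_upwards [IGN.LL_ev s S c] with i hi
    obtain ⟨h1, h2, h3⟩ := hi
    have hs := s.two_le i
    have h4 : s.sc i ^ c ≤ s.sc i ^ (IGN.LL s S i) := Nat.pow_le_pow_right (by omega) h1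
    have h5 : s.sc i ^ c * (((S (IGN.LL s S i)).F i).card + s.sc i ^ c) ≤
        s.sc i ^ (IGN.LL s S i) *
          (((S (IGN.LL s S i)).F i).card + s.sc i ^ (IGN.LL s S i)) :=
      Nat.mul_le_mul h4 (by omega)
    exact ⟨h5.trans h2, h5.trans h3⟩
  · intro j r hr
    choose idx hidx using hr
    obtain ⟨u, hu⟩ := hp ⟨j, idx⟩
    set N : ℕ := Finset.univ.sup idx + 1 with hN
    set l : ℕ := Nat.pair u N with hl
    have hlN : N ≤ l := Nat.right_le_pair u N
    have hlu : l.unpair.1 = u := by rw [hl, Nat.unpair_pair]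
    have hP := (IGN.sq_spec s Q p l).2.2 ⟨j, idx⟩ (by rw [hlu]; exact hu)
    have hrr : (fun a => (IGN.sq s Q p l).X (idx a)) = r := by
      funext a
      have h1 : idx a ≤ Finset.univ.sup idx := Finset.le_sup (Finset.mem_univ a)
      rw [IGN.sq_X s Q p (idx a) l (by omega)]
      exact hidx a
    refine ⟨(S (l + 1)).X l, ⟨l, rfl⟩, ?_⟩
    refine (Q j).mono r _ (S (l + 1)).F _ ?_ ?_
    · have h2 := hP
      change (Q j).P (fun a => (IGN.sq s Q p l).X (idx a)) _ _ at h2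
      rw [hrr] at h2
      exact h2
    · filter_upwards [IGN.LL_ev s S (l + 1)] with i hi
      exact IGN.sq_F s Q p i (l + 1) (IGN.LL s S i) hi.1

end Pool.Agent.Work.MP_610017_lc
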