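import Mathlib

/-!
# Block GG: every function tending to infinity has a slow regular lower bound (helper27)
-/

set_option autoImplicit false

namespace Pool.Agent.Work.MP_610017_lc

open Filter

namespace Slow

/-- the thresholds -/
def thr (b : ℕ → ℕ) : ℕ → ℕ
  | 0 => 0
  | m + 1 => (thr b m) ^ (thr b m) + 1 + (m + 3) ^ (m + 3) + b (m + 1)

theorem thr_lt (b : ℕ → ℕ) (m : ℕ) : thr b m < thr b (m + 1) := by
  have h1 : thr b m ≤ (thr b m) ^ (thr b m) := by
    rcases Nat.eq_zero_or_pos (thr b m) with h | h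
    · rw [h]; omega
    · exact Nat.le_self_pow (by omega) _
  show thr b m < (thr b m) ^ (thr b m) + 1 + (m + 3) ^ (m + 3) + b (m + 1)
  omega

theorem thr_mono (b : ℕ → ℕ) : StrictMono (thr b) := strictMono_nat_of_lt_succ (thr_lt b)

theorem le_thr (b : ℕ → ℕ) (m : ℕ) : m ≤ thr b m := (thr_mono b).le_apply

/-- the index of the last threshold -/
noncomputable def ix (b : ℕ → ℕ) (x : ℕ) : ℕ := Nat.findGreatest (fun m => thr b m ≤ x) x

theorem thr_ix (b : ℕ → ℕ) (x : ℕ) : thr b (ix b x) ≤ x :=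
  Nat.findGreatest_spec (P := fun m => thr b m ≤ x) (Nat.zero_le x) (Nat.zero_le x)

theorem le_ix {b : ℕ → ℕ} {x m : ℕ} (h : thr b m ≤ x) : m ≤ ix b x :=
  Nat.le_findGreatest ((le_thr b m).trans h) h

theorem lt_thr (b : ℕ → ℕ) (x : ℕ) : x < thr b (ix b x + 1) := by
  by_contra h
  have := le_ix (not_lt.1 h)
  omega

end Slow

open Slow in
/-- every function which tends to infinity has a lower bound which is monotone, tends to infinity
and grows so slowly and regularly that the growth theorem can be used -/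
theorem slow_exists (h : ℕ → ℕ) (hh : Tendsto h atTop atTop) : ∃ g : ℕ → ℕ, Monotone g ∧
    Tendsto g atTop atTop ∧ (∀ J, ∃ J' x0, ∀ x, x0 ≤ x → g (x ^ (g x ^ J)) ≤ g x ^ J') ∧
    ∀ J, ∃ x0, ∀ x, x0 ≤ x → g x ^ J ≤ h x := by
  choose b hb using fun m => eventually_atTop.1
    (hh.eventually_ge_atTop ((m + 2) ^ (m + 2)))
  have hmono : Monotone (ix b) := fun x y hxy => le_ix ((thr_ix b x).trans hxy)
  refine ⟨fun x => ix b x + 2, fun x y hxy => Nat.add_le_add_right (hmono hxy) 2, ?_, ?_, ?_⟩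
  · refine tendsto_atTop.2 fun m => ?_
    filter_upwards [eventually_ge_atTop (thr b m)] with x hx
    have := le_ix hx
    omega
  · intro J
    refine ⟨2, thr b J, fun x hx => ?_⟩
    have h1 : J ≤ ix b x := le_ix hx
    have h2 : x < thr b (ix b x + 1) := lt_thr b x
    have h3 : (ix b x + 2) ^ J ≤ thr b (ix b x + 1) := by
      have h4 : (ix b x + 2) ^ J ≤ (ix b x + 3) ^ (ix b x + 3) :=
        (Nat.pow_le_pow_left (by omega) J).trans (Nat.pow_le_pow_right (by omega) (by omega))
      refine h4.trans ?_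
      show _ ≤ (thr b (ix b x)) ^ (thr b (ix b x)) + 1 + (ix b x + 3) ^ (ix b x + 3) +
        b (ix b x + 1)
      omega
    have h5 : x ^ ((ix b x + 2) ^ J) < thr b (ix b x + 2) := by
      have h6 : x ^ ((ix b x + 2) ^ J) ≤
          (thr b (ix b x + 1)) ^ (thr b (ix b x + 1)) :=
        (Nat.pow_le_pow_left h2.le _).trans (Nat.pow_le_pow_right (by omega) h3)
      refine lt_of_le_of_lt h6 ?_
      show _ < (thr b (ix b x + 1)) ^ (thr b (ix b x + 1)) + 1 +
        (ix b x + 1 + 3) ^ (ix b x + 1 + 3) + b (ix b x + 1 + 1)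
      omega
    have h7 : ix b (x ^ ((ix b x + 2) ^ J)) < ix b x + 2 := by
      by_contra h8
      have h9 := (thr_mono b).monotone (not_lt.1 h8)
      have h10 := thr_ix b (x ^ ((ix b x + 2) ^ J))
      omega
    show ix b (x ^ ((ix b x + 2) ^ J)) + 2 ≤ (ix b x + 2) ^ 2
    nlinarith
  · intro J
    refine ⟨max (thr b J) (thr b 1), fun x hx => ?_⟩
    have h1 : J ≤ ix b x := le_ix ((le_max_left _ _).trans hx)
    have h2 : 1 ≤ ix b x := le_ix ((le_max_right _ _).trans hx)
    obtain ⟨m, hm⟩ : ∃ m, ix b x = m + 1 := ⟨ix b x - 1, by omega⟩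
    have h3 : b (m + 1) ≤ x := by
      have h4 := thr_ix b x
      rw [hm] at h4
      have h5 : thr b (m + 1) = (thr b m) ^ (thr b m) + 1 + (m + 3) ^ (m + 3) + b (m + 1) := rfl
      omega
    have h6 := hb (m + 1) x h3
    show (ix b x + 2) ^ J ≤ h x
    rw [hm] at h1 ⊢
    exact (Nat.pow_le_pow_right (by omega) (by omega)).trans h6

end Pool.Agent.Work.MP_610017_lc
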