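import Mathlib
import Pool.Agent.Work.MP_610017_lc.GG.FinalC
import Pool.Agent.Work.MP_610017_lc.GG.I_GN
import Pool.Agent.Work.MP_610017_lc.GG.Slow

/-!
# Block GG: the growth theorem (MP_610017_lc)
-/

set_option autoImplicit false

namespace Pool.Agent.Work.MP_610017_lc

/-- the growth theorem -/
theorem pf_GG : S_GG := pf_GG_of pr_GN

/-- the growth theorem, and the existence of slow functions -/
theorem pf_GG_full : ∃ θ : Fm 2,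
    (∀ (M : Type) (N : Str M), IDelta0 N → ∀ (e : Fin 2 → M) (z : M),
      IsPow N (e 0) (e 1) z → θ.sat N e) ∧
    (∀ g h : ℕ → ℕ, Monotone g → Filter.Tendsto g Filter.atTop Filter.atTop →
      (∀ J, ∃ J' x0, ∀ x, x0 ≤ x → g (x ^ (g x ^ J)) ≤ g x ^ J') →
      (∀ J, ∃ x0, ∀ x, x0 ≤ x → g x ^ J ≤ h x) → (∀ x, 1 ≤ x → 2 ^ h x ≤ x) →
      ∃ (M : Type) (N : Str M), IDelta0 N ∧
        (∀ (v : ℕ) (φ : Fm v), φ.RFree → (∀ e : Fin v → ℕ, φ.sat stdN e) →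
          ∀ e : Fin v → M, φ.sat N e) ∧
        (∀ x : M, ∃ y : M, (∃ z, IsPow N x y z) ∧
          ∀ φ : Fm 2, φ.RFree → (∀ a : ℕ, φ.sat stdN ![a, g a]) → φ.sat N ![x, y]) ∧
        ∃ e : Fin 2 → M, ¬ θ.sat N e ∧
          ∀ φ : Fm 2, φ.RFree → (∃ x0, ∀ x, x0 ≤ x → φ.sat stdN ![x, h x]) → φ.sat N e) ∧
    ∀ h : ℕ → ℕ, Filter.Tendsto h Filter.atTop Filter.atTop →
      ∃ g : ℕ → ℕ, Monotone g ∧ Filter.Tendsto g Filter.atTop Filter.atTop ∧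
        (∀ J, ∃ J' x0, ∀ x, x0 ≤ x → g (x ^ (g x ^ J)) ≤ g x ^ J') ∧
        ∀ J, ∃ x0, ∀ x, x0 ≤ x → g x ^ J ≤ h x := by
  obtain ⟨θ, h1, h2⟩ := pf_GG
  exact ⟨θ, h1, h2, slow_exists⟩

end Pool.Agent.Work.MP_610017_lc
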