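import Mathlib
import Pool.Agent.Work.MP_610017_lc.WP.Def
import Pool.Agent.Work.MP_610017_lc.WP.Core
import Pool.Agent.Work.MP_610017_lc.GG.DBase
import Pool.Agent.Work.MP_610017_lc.GG.I_TM

/-!
# Block GG: the weak pigeonhole principle in the model (helper27; uses block WP of helper34)
-/

set_option autoImplicit false

namespace Pool.Agent.Work.MP_610017_lc

namespace IWP

open WP

/-- consistent sets of facts are true in an admissible world -/
theorem adm_con {k n : ℕ} (ρ : Res k n) (F : Finset (Fact k n)) (hVal : ∀ f ∈ F, Valid f)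
    (hCon : Con ρ F) (hk : 2 * F.card + 3 ≤ k) (hI : F.card + 3 ≤ ρ.I.card) :
    ∃ d, d ≤ 2 * F.card + 1 ∧ ∃ ω, Adm ρ F d ω := by
  classical
  obtain ⟨ω, hext, hχ, hF⟩ := hCon
  obtain ⟨j, _, hj2, hj3⟩ := Ext1_cut F (fun u => u.2.val) (fun v d => (prf_NbLevel k v d).1)
    hVal 0
  obtain ⟨d, hd1, hd2, hd3⟩ := Ext1_cut F (fun u => max u.1.val u.2.val)
    (fun v d => (prf_NbLevel k v d).2) hVal (F.card + 1)
  -- fresh sheets
  have hfresh : 1 < (ρ.I \ insert 0 (F.image (Ext1_idx ω))).card := by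
    have h2 := Finset.le_card_sdiff (insert 0 (F.image (Ext1_idx ω))) ρ.I
    have h3 : (F.image (Ext1_idx ω)).card ≤ F.card := Finset.card_image_le
    have h4 := Finset.card_insert_le (0 : Lb n) (F.image (Ext1_idx ω))
    omega
  obtain ⟨s1, hs1, s2, hs2, h12⟩ := Finset.one_lt_card.1 hfresh
  rw [Finset.mem_sdiff, Finset.mem_insert, not_or] at hs1 hs2
  obtain ⟨hs1I, hs10, hs1F⟩ := hs1
  obtain ⟨hs2I, hs20, hs2F⟩ := hs2
  obtain ⟨s, hs⟩ : ∃ s : Vx k → Lb n, s = fun u => if max u.1.val u.2.val ≤ d then 0 else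
    if u.2.val ≤ j then s1 else s2 := ⟨_, rfl⟩
  obtain ⟨ζ', hζ⟩ : ∃ ζ' : Lb n → Bool, ζ' = fun i => if i = s1 then true else
    if i = s2 then false else ω.ζ i := ⟨_, rfl⟩
  have hscase : ∀ u, s u = 0 ∨ s u = s1 ∨ s u = s2 := by
    intro u
    rw [hs]
    dsimp only
    split_ifs
    · exact Or.inl rfl
    · exact Or.inr (Or.inl rfl)
    · exact Or.inr (Or.inr rfl)
  have hsI : ∀ u, s u ∈ ρ.I := by
    intro u
    rcases hscase u with h | h | h <;> rw [h]
    · exact ρ.zero_mem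
    · exact hs1I
    · exact hs2I
  have hidx : ∀ f ∈ F, ∀ u x, (u, x) ∈ touch f → (ω.β u).symm x ≠ s1 ∧
      (ω.β u).symm x ≠ s2 := by
    intro f hf u x hu
    have h1 := Ext1_idx_eq ω f (hF f hf) u x hu
    have h2 : (ω.β u).symm x ∈ F.image (Ext1_idx ω) := by
      rw [h1]
      exact Finset.mem_image_of_mem _ hf
    exact ⟨fun h => hs1F (h ▸ h2), fun h => hs2F (h ▸ h2)⟩
  have hhold := prf_Reroute k n ω F s ζ' spec hF
    (by
      intro f hf u x hu hne
      obtain ⟨h3, h4⟩ := hidx f hf u x hu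
      refine ⟨fun w => ?_, ?_⟩
      · rcases hscase w with h | h | h <;> rw [h]
        · exact hne
        · exact h3
        · exact h4
      · rw [hζ]
        dsimp only
        rw [if_neg h3, if_neg h4])
    (by
      intro u w x y hf _
      have h1 : u.2.val ≤ j ↔ w.2.val ≤ j := hj3 u w x y hf
      have h2 : max u.1.val u.2.val ≤ d ↔ max w.1.val w.2.val ≤ d := hd3 u w x y hf
      rw [hs]
      dsimp only
      simp only [h1, h2])
    (by
      intro u x c hf hu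
      have h1 : (if (ω.β u).symm x = 0 then ω.χ u = some c else ω.ζ ((ω.β u).symm x) = c) :=
        hF _ hf
      rw [if_pos hu, hχ] at h1
      refine ⟨fun _ => h1, fun hne => ?_⟩
      unfold spec at h1
      rw [hs] at hne ⊢
      dsimp only at hne ⊢
      by_cases hd : max u.1.val u.2.val ≤ d
      · rw [if_pos hd] at hne
        exact absurd rfl hne
      rw [if_neg hd]
      by_cases hj : u.2.val ≤ j
      · rw [if_pos hj, hζ]
        dsimp only
        rw [if_pos rfl]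
        split_ifs at h1 with h3 h4
        · exact Option.some.inj h1
        · exfalso
          omega
      · rw [if_neg hj, hζ]
        dsimp only
        rw [if_neg (Ne.symm h12), if_pos rfl]
        split_ifs at h1 with h3 h4
        · exfalso
          omega
        · exact Option.some.inj h1)
  refine ⟨d, by omega, (fun v => ω.β v * Equiv.swap 0 (s v), ζ'), ⟨?_, ?_, ?_⟩, hhold, ?_⟩
  · intro u i hi
    show ω.β u (Equiv.swap 0 (s u) i) = ρ.β u i
    have h1 : i ≠ 0 := by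
      rintro rfl
      exact hi ρ.zero_mem
    have h2 : i ≠ s u := by
      rintro rfl
      exact hi (hsI u)
    rw [Equiv.swap_apply_of_ne_of_ne h1 h2, hext.beta u i hi]
  · intro i hi
    show ζ' i = ρ.ζ i
    rw [hζ]
    dsimp only
    have h1 : i ≠ s1 := by
      rintro rfl
      exact hi hs1I
    have h2 : i ≠ s2 := by
      rintro rfl
      exact hi hs2I
    rw [if_neg h1, if_neg h2, hext.zeta i hi]
  · show ω.β (crn k) (Equiv.swap 0 (s (crn k)) 0) = 0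
    have h1 : s (crn k) = 0 := by
      rw [hs]
      dsimp only
      rw [if_pos]
      show max 0 0 ≤ d
      simp
    rw [h1, Equiv.swap_self, Equiv.refl_apply, hext.corner]
  · intro f hf v a hva h0
    by_contra hv
    have h3 : (ω.β v * Equiv.swap 0 (s v)).symm a = 0 := h0
    rw [Reroute_symm] at h3
    have h4 := congrArg (Equiv.swap 0 (s v)) h3
    rw [Equiv.swap_apply_self, Equiv.swap_apply_left] at h4
    have h5 : ¬ max v.1.val v.2.val ≤ d := hv
    obtain ⟨h6, h7⟩ := hidx f hf v a hva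
    rw [hs] at h4
    dsimp only at h4
    rw [if_neg h5] at h4
    split_ifs at h4
    · exact h6 h4
    · exact h7 h4

/-- The core: consistent false branches of the trees for `psN φ` and `psC φ` at `(a, e)` do not
exist (compare `core` in `WP/Core.lean`). -/
theorem coreC {k n h v : ℕ} (ρ : Res k n) (φ : Fm (v + 2)) (a : ℕ) (e : Fin v → ℕ)
    (Tn Tc : Tree k n) (F1 F0 : Finset (Fact k n))
    (hn : Rep ρ h (psN φ).toGm (Fin.cons a e) Tn) (hc : Rep ρ h (psC φ).toGm (Fin.cons a e) Tc)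
    (hF1 : Br Tn F1 false) (hF0 : Br Tc F0 false)
    (hCon : Con ρ (F0 ∪ F1)) (hk : 162 * h + 5 < k) (hI : 63 * h + 3 ≤ ρ.I.card) :
    False := by
  have two : (twoT (0 : Fin (v + 1))).val stdN (Fin.cons a e : Fin (v + 1) → ℕ) = 2 * a + 1 := by
    show a + a + 1 = 2 * a + 1
    ring
  obtain ⟨Ex, hE1, hE2⟩ := hn
  rw [two] at hE1 hE2
  -- the trees for `∃ y ≤ a, φ (x, y, e)`
  have hE3 : ∀ x, ∃ E, x ≤ 2 * a + 1 → Ex x = E.flip ∧ ∃ Ty : ℕ → Tree k n,
      (∀ y, y ≤ a → Rep ρ h φ.toGm (Fin.cons x (Fin.cons y e)) (Ty y)) ∧ OrRep ρ h a Ty E := by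
    intro x
    by_cases hx : x ≤ 2 * a + 1
    · obtain ⟨E, hE, Ty, hy1, hy2⟩ := hE1 x hx
      have hb : (Tm.var (1 : Fin (v + 1 + 1))).val stdN (Fin.cons x (Fin.cons a e)) = a := rfl
      rw [hb] at hy1 hy2
      refine ⟨E, fun _ => ⟨hE, Ty, fun y hy => ?_, hy2⟩⟩
      have h3 := (rep_sub ρ φ _ _ _ _).1 (hy1 y hy)
      rw [sg1_val] at h3
      exact h3
    · exact ⟨.leaf true, fun h => absurd h hx⟩
  choose E hE4 using hE3
  have hE5 : ∀ x, ∃ Ty : ℕ → Tree k n, x ≤ 2 * a + 1 →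
      (∀ y, y ≤ a → Rep ρ h φ.toGm (Fin.cons x (Fin.cons y e)) (Ty y)) ∧
        OrRep ρ h a Ty (E x) := by
    intro x
    by_cases hx : x ≤ 2 * a + 1
    · obtain ⟨-, Ty, h3, h4⟩ := hE4 x hx
      exact ⟨Ty, fun _ => ⟨h3, h4⟩⟩
    · exact ⟨fun _ => .leaf true, fun h => absurd h hx⟩
  choose T hT using hE5
  have hN : OrRep ρ h (2 * a + 1) (fun x => (E x).flip) Tn := by
    refine ⟨hE2.1, fun F hF hC => ?_, fun F hF x hx F' hF' => ?_⟩
    · obtain ⟨x, hx, F', hF', hd⟩ := hE2.2.1 F hF hC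
      refine ⟨x, hx, F', ?_, hd⟩
      show Br (E x).flip F' true
      rw [← (hE4 x hx).1]
      exact hF'
    · have hF'' : Br (E x).flip F' true := hF'
      rw [← (hE4 x hx).1] at hF''
      exact hE2.2.2 F hF x hx F' hF''
  -- sizes
  obtain ⟨c0, v0⟩ := pf_BrBasic k n h Tc F0 false (pf_RepHLe _ _ _ _ _ _ _ _ hc) hF0
  obtain ⟨c1, v1⟩ := pf_BrBasic k n h Tn F1 false hE2.1 hF1
  have hcard : (F0 ∪ F1).card ≤ 18 * h := by
    have := Finset.card_union_le F0 F1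
    omega
  have hval : ∀ f ∈ F0 ∪ F1, Valid f := fun f hf => (Finset.mem_union.1 hf).elim (v0 f) (v1 f)
  obtain ⟨d, hd, hA⟩ := adm_con ρ (F0 ∪ F1) hval hCon (by omega) (by omega)
  refine finW (h := h) (a := a) (d := d) ρ T E Tn F0 F1 (fun x hx => (hT x hx).2) hN hF1 ?_ hA
    (by omega) (by omega)
  -- collisions
  intro x x' y hx hx' hne hy P P' hP hP' hC
  have hTx : Rep ρ h φ.toGm (Fin.cons x (Fin.cons y e)) (T x y) := (hT x hx).1 y hy
  have hTx' : Rep ρ h φ.toGm (Fin.cons x' (Fin.cons y e)) (T x' y) := (hT x' hx').1 y hy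
  obtain ⟨cp, vp⟩ := pf_BrBasic k n h _ P true (pf_RepHLe _ _ _ _ _ _ _ _ hTx) hP
  obtain ⟨cp', vp'⟩ := pf_BrBasic k n h _ P' true (pf_RepHLe _ _ _ _ _ _ _ _ hTx') hP'
  have hS : (F0 ∪ P ∪ P').card ≤ 27 * h := by
    have e1 := Finset.card_union_le (F0 ∪ P) P'
    have e2 := Finset.card_union_le F0 P
    omega
  have hSv : ∀ f ∈ F0 ∪ P ∪ P', Valid f := by
    intro f hf
    simp only [Finset.mem_union] at hf
    rcases hf with (hf | hf) | hf
    · exact v0 f hf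
    · exact vp f hf
    · exact vp' f hf
  -- first quantifier
  obtain ⟨Cx, hC1, hC2⟩ := hc
  rw [two] at hC1 hC2
  have hC3 := hC1 x hx
  obtain ⟨G1, g1, g2, g3, g4⟩ := down hC2 hF0
    (Finset.subset_union_left.trans Finset.subset_union_left) hSv hC x hx
    (pf_RepHLe _ _ _ _ _ _ _ _ hC3) (by omega) (by omega)
  -- second quantifier
  obtain ⟨Cy, hD1, hD2⟩ := hC3
  have two' : (twoT (1 : Fin (v + 1 + 1))).val stdN
      (Fin.cons x (Fin.cons a e : Fin (v + 1) → ℕ) : Fin (v + 1 + 1) → ℕ) = 2 * a + 1 := by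
    show a + a + 1 = 2 * a + 1
    ring
  rw [two'] at hD1 hD2
  have hD3 := hD1 x' hx'
  have hS1 : (F0 ∪ P ∪ P' ∪ G1).card ≤ 36 * h := by
    have e1 := Finset.card_union_le (F0 ∪ P ∪ P') G1
    omega
  obtain ⟨G2, k1, k2, k3, k4⟩ := down hD2 g1 Finset.subset_union_right
    (fun f hf => (Finset.mem_union.1 hf).elim (hSv f) (g4 f)) g2 x' hx'
    (pf_RepHLe _ _ _ _ _ _ _ _ hD3) (by omega) (by omega)
  -- third quantifier
  obtain ⟨Cz, hH1, hH2⟩ := hD3
  have hb : (Tm.var (2 : Fin (v + 1 + 1 + 1))).val stdN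
      (Fin.cons x' (Fin.cons x (Fin.cons a e : Fin (v + 1) → ℕ) : Fin (v + 1 + 1) → ℕ) :
        Fin (v + 1 + 1 + 1) → ℕ) = a := rfl
  rw [hb] at hH1 hH2
  have hH3 := hH1 y hy
  have hS2 : (F0 ∪ P ∪ P' ∪ G1 ∪ G2).card ≤ 45 * h := by
    have e1 := Finset.card_union_le (F0 ∪ P ∪ P' ∪ G1) G2
    omega
  obtain ⟨G3, l1, l2, l3, l4⟩ := down hH2 k1 Finset.subset_union_right
    (fun f hf => (Finset.mem_union.1 hf).elim
      (fun hf => (Finset.mem_union.1 hf).elim (hSv f) (g4 f)) (k4 f)) k2 y hy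
    (pf_RepHLe _ _ _ _ _ _ _ _ hH3) (by omega) (by omega)
  -- the matrix
  obtain ⟨-, T1, T2, hT12, ⟨T5, hT5, hT6⟩, hT2⟩ := hH3
  obtain ⟨-, T3, T4, rfl, hT3, hT4⟩ := hT2
  have h3 := (rep_sub ρ φ _ _ _ _).1 hT3
  rw [sg2_val] at h3
  have h4 := (rep_sub ρ φ _ _ _ _).1 hT4
  rw [sg3_val] at h4
  have h5 : T1 = .leaf true := by
    have h6 : T5 = .leaf (decide (x = x')) := hT6
    rw [hT5, h6, decide_eq_false hne]
    rfl
  rw [hT12, h5] at l1
  have l1' : Br (andT T3 T4) G3 false := l1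
  have hsub1 : P ⊆ F0 ∪ P ∪ P' ∪ G1 ∪ G2 := by
    intro f hf
    simp only [Finset.mem_union]
    tauto
  have hsub2 : P' ⊆ F0 ∪ P ∪ P' ∪ G1 ∪ G2 := by
    intro f hf
    simp only [Finset.mem_union]
    tauto
  rcases ((prf_BrAnd k n T3 T4).2.1 G3).1 l1' with h7 | ⟨F3, F4, h7, h8, rfl⟩
  · exact agree ρ (by omega) (by omega) φ.toGm _ (T x y) T3 hTx h3 P G3 hP h7
      (FinInd_con_mono (Finset.union_subset_union_left hsub1) l2)
  · refine agree ρ (by omega) (by omega) φ.toGm _ (T x' y) T4 hTx' h4 P' F4 hP' h8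
      (FinInd_con_mono ?_ l2)
    intro f hf
    simp only [Finset.mem_union] at hf ⊢
    tauto

theorem psN_satG {M : Type} (N : Str M) {v : ℕ} (φ : Fm (v + 2)) (a : M) (e : Fin v → M) :
    (psN φ).sat N (Fin.cons a e) ↔ ∃ x, N.le x (N.succ (N.add a a)) ∧
      ¬ ∃ y, N.le y a ∧ φ.sat N (Fin.cons x (Fin.cons y e)) := by
  simp only [psN, Fm.sat, Fm.sat_sub, sg1_val]
  rfl

theorem psC_satG {M : Type} (N : Str M) {v : ℕ} (φ : Fm (v + 2)) (a : M) (e : Fin v → M) :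
    (psC φ).sat N (Fin.cons a e) ↔ ∃ x, N.le x (N.succ (N.add a a)) ∧
      ∃ x', N.le x' (N.succ (N.add a a)) ∧ ∃ y, N.le y a ∧ ¬ x = x' ∧
        φ.sat N (Fin.cons x (Fin.cons y e)) ∧ φ.sat N (Fin.cons x' (Fin.cons y e)) := by
  simp only [psC, Fm.sat, Fm.sat_sub, sg2_val, sg3_val]
  rfl

end IWP

open WP IWP DB in
/-- The model satisfies the weak pigeonhole principle for all bounded formulas. -/
theorem pr_WP (hMT : G_MT) (s : SG) (ff : ℕ → ℕ → ℕ → ℕ → ℕ) (D : GD s ff) :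
    WPHP (MGS D) := by
  intro v φ e a hall
  by_contra hcol
  obtain ⟨r, rfl⟩ := MG.reps e
  obtain ⟨ra, rfl⟩ : ∃ ra : EL D, a = MG.mk ra :=
    ⟨Quotient.out a, (Quotient.out_eq a).symm⟩
  have hn : ¬ (psN φ).toGm.sat (MGS D) (fun j => MG.mk ((Fin.cons ra r : Fin (v + 1) → EL D) j)) := by
    rw [← MG.cons, Fm.sat_toGm, psN_satG]
    rintro ⟨x, hx, hx2⟩
    exact hx2 (hall x hx)
  have hc : ¬ (psC φ).toGm.sat (MGS D) (fun j => MG.mk ((Fin.cons ra r : Fin (v + 1) → EL D) j)) := by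
    rw [← MG.cons, Fm.sat_toGm, psC_satG]
    rintro ⟨x, hx, x', hx', y, hy, hne, h1, h2⟩
    exact hcol ⟨x, x', y, hx, hx', hne, hy, h1, h2⟩
  obtain ⟨c1, H1⟩ := (hMT s ff D _ (psN φ).toGm _).2.1 hn
  obtain ⟨c2, H2⟩ := (hMT s ff D _ (psC φ).toGm _).2.1 hc
  apply UU_false
  filter_upwards [H1, H2, room D 200 (c1 + c2)] with i p1 p2 p3
  obtain ⟨Tn, F1, a1, a2, a3⟩ := fls_le D (Nat.le_add_right c1 c2) p1
  obtain ⟨Tc, F0, b1, b2, b3⟩ := fls_le D (Nat.le_add_left c2 c1) p2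
  rw [EL.cons] at a1 b1
  obtain ⟨ω, w1, w2, w3⟩ := D.ok.con i
  have hk := p3.1
  have hI := p3.2
  exact coreC (s.ρ i) φ (ra.1 i) (fun j => (r j).1 i) Tn Tc F1 F0 a1 b1 a2 b2
    ⟨ω, w1, w2, fun f hf => (Finset.mem_union.1 hf).elim
      (fun hf => ITM.dec_holds w1 w3 (b3 f hf)) (fun hf => ITM.dec_holds w1 w3 (a3 f hf))⟩
    (by omega) (by omega)

end Pool.Agent.Work.MP_610017_lc
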