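import Pool.Agent.Work.MP_610017_lc.GG.StmtsA

/-!
# Block GG, item Ht: the hitting lemma (helper37)
-/

set_option autoImplicit false

namespace Pool.Agent.Work.MP_610017_lc

namespace IHt

/-- the exponents -/
theorem expo (w B : ℕ) (hw : 1 ≤ w) :
    17 * w ^ 2 * (2 * B + 1) < 40 * w ^ 2 * (B + 1) := by
  have h1 : 1 ≤ w ^ 2 := Nat.one_le_pow _ _ hw
  have h2 : 17 * w ^ 2 * (2 * B + 1) = w ^ 2 * (34 * B + 17) := by ring
  have h3 : 40 * w ^ 2 * (B + 1) = w ^ 2 * (40 * B + 40) := by ring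
  rw [h2, h3]
  exact Nat.mul_lt_mul_of_pos_left (by omega) (by omega)

/-- the final inequality -/
theorem fin (m w B N : ℕ) (hm : 2 ≤ m) (hw : 1 ≤ w) (hN : m ^ (40 * w ^ 2) ≤ N) :
    m ^ (17 * w ^ 2 * (2 * B + 1)) * N ^ B < N ^ (2 * B + 1) := by
  have h1 : m ^ (17 * w ^ 2 * (2 * B + 1)) < N ^ (B + 1) := by
    calc m ^ (17 * w ^ 2 * (2 * B + 1)) < m ^ (40 * w ^ 2 * (B + 1)) :=
          Nat.pow_lt_pow_right (by omega) (expo w B hw)
      _ = (m ^ (40 * w ^ 2)) ^ (B + 1) := by rw [← pow_mul]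
      _ ≤ N ^ (B + 1) := Nat.pow_le_pow_left hN _
  have hN0 : 0 < N := lt_of_lt_of_le (Nat.pow_pos (by omega)) hN
  have h2 : 0 < N ^ B := Nat.pow_pos hN0
  calc m ^ (17 * w ^ 2 * (2 * B + 1)) * N ^ B < N ^ (B + 1) * N ^ B :=
        Nat.mul_lt_mul_of_pos_right h1 h2
    _ = N ^ (2 * B + 1) := by rw [← pow_add]; congr 1; ring

/-- `m² ≤ N` -/
theorem sq_le (m w N : ℕ) (hm : 2 ≤ m) (hw : 1 ≤ w) (hN : m ^ (40 * w ^ 2) ≤ N) :
    m ^ 2 ≤ N := by
  have h1 : 1 ≤ w ^ 2 := Nat.one_le_pow _ _ hw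
  exact (Nat.pow_le_pow_right (by omega) (by omega)).trans hN

end IHt

open Classical in
theorem pr_Ht (h : G_Ct) : G_Ht := by
  intro k n m w B ρ o ι _ π 𝓣 ho hw hB hm hk hN hι hT
  have hwB : 100 * w * (2 * B + 2) = 200 * (w * B) + 200 * w := by ring
  have hB2 : B ≤ w * B := Nat.le_mul_of_pos_left _ hw
  have hm2 : 2 ≤ m := by omega
  have hsq : m ^ 2 ≤ ρ.I.card := IHt.sq_le m w _ hm2 hw hN
  have hm100 : 100 * m ≤ ρ.I.card := by
    have : 100 * m ≤ m * m := Nat.mul_le_mul_right _ (by omega)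
    rw [pow_two] at hsq
    omega
  obtain ⟨I1, h0, hI1, hcI⟩ := Finset.exists_subsuperset_card_eq
    (s := ({0} : Finset (Lb n))) (t := ρ.I) (n := m) (by simpa using ρ.zero_mem)
    (by simp; omega) (by omega)
  have h0' : (0 : Lb n) ∈ I1 := h0 (by simp)
  have hOm : 0 < (Om ρ).card := by
    rw [Finset.card_pos]
    refine ⟨(ρ.β, ρ.ζ), ?_⟩
    rw [Om, Finset.mem_filter]
    exact ⟨Finset.mem_univ _, ⟨fun _ _ _ => rfl, fun _ _ => rfl, ρ.corner⟩⟩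
  have hbad : ∀ i, ((Om ρ).filter (BadC I1 (π i) (𝓣 i) w (2 * B + 1) o)).card *
      ρ.I.card ^ (2 * B + 1) ≤ (Om ρ).card * m ^ (17 * w ^ 2 * (2 * B + 1)) := by
    intro i
    refine h k n w (2 * B + 1) m ρ I1 (π i) (𝓣 i) o ho hw (hT i) hI1 h0' hcI ?_ hk ?_
    · exact hm
    · omega
  have hsum : (∑ i, ((Om ρ).filter (BadC I1 (π i) (𝓣 i) w (2 * B + 1) o)).card) <
      (Om ρ).card := by
    have h2 : (∑ i, ((Om ρ).filter (BadC I1 (π i) (𝓣 i) w (2 * B + 1) o)).card) *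
        ρ.I.card ^ (2 * B + 1) ≤
        (Om ρ).card * (m ^ (17 * w ^ 2 * (2 * B + 1)) * ρ.I.card ^ B) := by
      rw [Finset.sum_mul]
      calc ∑ i, ((Om ρ).filter (BadC I1 (π i) (𝓣 i) w (2 * B + 1) o)).card *
            ρ.I.card ^ (2 * B + 1)
          ≤ ∑ _i : ι, (Om ρ).card * m ^ (17 * w ^ 2 * (2 * B + 1)) :=
            Finset.sum_le_sum fun i _ => hbad i
        _ = Fintype.card ι * ((Om ρ).card * m ^ (17 * w ^ 2 * (2 * B + 1))) := by
            rw [Finset.sum_const, smul_eq_mul, Finset.card_univ]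
        _ ≤ ρ.I.card ^ B * ((Om ρ).card * m ^ (17 * w ^ 2 * (2 * B + 1))) :=
            Nat.mul_le_mul_right _ hι
        _ = (Om ρ).card * (m ^ (17 * w ^ 2 * (2 * B + 1)) * ρ.I.card ^ B) := by ring
    by_contra hcon
    push Not at hcon
    have h4 : (Om ρ).card * ρ.I.card ^ (2 * B + 1) ≤
        (Om ρ).card * (m ^ (17 * w ^ 2 * (2 * B + 1)) * ρ.I.card ^ B) :=
      (Nat.mul_le_mul_right _ hcon).trans h2
    have h5 := Nat.le_of_mul_le_mul_left h4 hOm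
    have h6 := IHt.fin m w B ρ.I.card hm2 hw hN
    omega
  have hex : ∃ om ∈ Om ρ, ∀ i, ¬ BadC I1 (π i) (𝓣 i) w (2 * B + 1) o om := by
    by_contra hcon
    push Not at hcon
    have hsub : Om ρ ⊆ Finset.univ.biUnion fun i =>
        (Om ρ).filter (BadC I1 (π i) (𝓣 i) w (2 * B + 1) o) := by
      intro om hom
      obtain ⟨i, hi⟩ := hcon om hom
      rw [Finset.mem_biUnion]
      exact ⟨i, Finset.mem_univ _, Finset.mem_filter.mpr ⟨hom, hi⟩⟩
    have := (Finset.card_le_card hsub).trans Finset.card_biUnion_le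
    omega
  obtain ⟨om, hom, hgood⟩ := hex
  have hExt : Ext ρ om.1 om.2 := by
    rw [Om, Finset.mem_filter] at hom
    exact hom.2
  refine ⟨⟨om.1, om.2, I1, h0', hExt.corner⟩, ⟨hI1, hExt⟩, hcI, ?_⟩
  intro i hBad
  exact hgood i ⟨_, rfl, rfl, rfl, hBad⟩

end Pool.Agent.Work.MP_610017_lc
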