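import Mathlib
import Pool.Agent.Work.MP_610017_lc.GG.StmtsD

/-!
# Block GG, item Mc: the colours (helper27)
-/

set_option autoImplicit false

namespace Pool.Agent.Work.MP_610017_lc

namespace IMc

theorem sp {k x y : ℕ} (hx : x ≤ k) (hy : y ≤ k) :
    spec ((Fin.ofNat (k + 1) x, Fin.ofNat (k + 1) y) : Vx k) =
      if y = 0 ∧ 1 ≤ x ∧ x < k then some true
      else if x = 0 ∧ 1 ≤ y ∧ y < k then some false else none := by
  have e1 : (Fin.ofNat (k + 1) x).val = x := Nat.mod_eq_of_lt (by omega : x < k + 1)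
  have e2 : (Fin.ofNat (k + 1) y).val = y := Nat.mod_eq_of_lt (by omega : y < k + 1)
  simp only [spec, e1, e2]

theorem hidx {k n : ℕ} {ω : GW k n} {x y a b : ℕ} (h : hW ω x y a b) :
    (ω.β (Fin.ofNat (k + 1) (x + 1), Fin.ofNat (k + 1) y)).symm (Fin.ofNat (n + 1) b) =
      (ω.β (Fin.ofNat (k + 1) x, Fin.ofNat (k + 1) y)).symm (Fin.ofNat (n + 1) a) := by
  rw [Equiv.symm_apply_eq]
  exact h.2.2.2.2.symm

theorem uidx {k n : ℕ} {ω : GW k n} {x y a b : ℕ} (h : uW ω x y a b) :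
    (ω.β (Fin.ofNat (k + 1) x, Fin.ofNat (k + 1) (y + 1))).symm (Fin.ofNat (n + 1) b) =
      (ω.β (Fin.ofNat (k + 1) x, Fin.ofNat (k + 1) y)).symm (Fin.ofNat (n + 1) a) := by
  rw [Equiv.symm_apply_eq]
  exact h.2.2.2.2.symm

theorem cl {k n : ℕ} {ω : GW k n} {x y a x' y' b : ℕ} {c : Bool}
    (hi : (ω.β (Fin.ofNat (k + 1) x', Fin.ofNat (k + 1) y')).symm (Fin.ofNat (n + 1) b) =
      (ω.β (Fin.ofNat (k + 1) x, Fin.ofNat (k + 1) y)).symm (Fin.ofNat (n + 1) a))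
    (h1 : cW ω c x y a) (h2 : cW ω (!c) x' y' b) :
    spec ((Fin.ofNat (k + 1) x, Fin.ofNat (k + 1) y) : Vx k) = some c ∧
    spec ((Fin.ofNat (k + 1) x', Fin.ofNat (k + 1) y') : Vx k) = some (!c) := by
  have g1 := h1.2
  have g2 := h2.2
  rw [hi] at g2
  split_ifs at g1 g2 with h0
  · exact ⟨g1, g2⟩
  · rw [g1] at g2
    cases c <;> simp at g2

theorem hbot {k n : ℕ} {ω : GW k n} {x a b : ℕ} (hx : 0 < x) (h : hW ω x 0 a b) (c : Bool)
    (h1 : cW ω c x 0 a) (h2 : cW ω (!c) (x + 1) 0 b) : False := by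
  obtain ⟨g1, g2⟩ := cl (hidx h) h1 h2
  have hxk := h.1
  rw [sp (by omega) (by omega)] at g1 g2
  rw [if_pos ⟨rfl, by omega, by omega⟩] at g1
  cases c
  · simp at g1
  · split_ifs at g2 <;> first | omega | simp at g2

theorem htop {k n : ℕ} {ω : GW k n} {x a b : ℕ} (h : hW ω x k a b) (c : Bool)
    (h1 : cW ω c x k a) (h2 : cW ω (!c) (x + 1) k b) : False := by
  obtain ⟨g1, g2⟩ := cl (hidx h) h1 h2
  have hxk := h.1
  rw [sp (by omega) (by omega)] at g1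
  rw [if_neg (by omega), if_neg (by omega)] at g1
  simp at g1

theorem hleft {k n : ℕ} {ω : GW k n} {y a b : ℕ} (hy : 0 < y) (h : uW ω 0 y a b) (c : Bool)
    (h1 : cW ω c 0 y a) (h2 : cW ω (!c) 0 (y + 1) b) : False := by
  obtain ⟨g1, g2⟩ := cl (uidx h) h1 h2
  have hyk := h.2.1
  rw [sp (by omega) (by omega)] at g1 g2
  rw [if_neg (by omega), if_pos ⟨rfl, by omega, by omega⟩] at g1
  rw [if_neg (by omega)] at g2
  cases c
  · split_ifs at g2 <;> simp at g2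
  · simp at g1

theorem hright {k n : ℕ} {ω : GW k n} {y a b : ℕ} (h : uW ω k y a b) (c : Bool)
    (h1 : cW ω c k y a) (h2 : cW ω (!c) k (y + 1) b) : False := by
  obtain ⟨g1, g2⟩ := cl (uidx h) h1 h2
  have hyk := h.2.1
  rw [sp (by omega) (by omega)] at g1
  rw [if_neg (by omega), if_neg (by omega)] at g1
  simp at g1

theorem crn0 {k n : ℕ} {ρ : Res k n} {ω : GW k n} (h : Ext ρ ω.β ω.ζ) :
    (ω.β (Fin.ofNat (k + 1) 0, Fin.ofNat (k + 1) 0)).symm (Fin.ofNat (n + 1) 0) = 0 := by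
  rw [Equiv.symm_apply_eq]
  exact h.corner.symm

theorem hst1 {k n : ℕ} {ρ : Res k n} {ω : GW k n} (hE : Ext ρ ω.β ω.ζ) {b : ℕ} (hk : 2 ≤ k)
    (h : hW ω 0 0 0 b) : ¬ cW ω false 1 0 b := by
  intro hc
  have hi := hidx h
  rw [crn0 hE] at hi
  have g := hc.2
  have hi' : (ω.β (Fin.ofNat (k + 1) 1, Fin.ofNat (k + 1) 0)).symm (Fin.ofNat (n + 1) b) = 0 := hi
  rw [if_pos hi', sp (by omega) (by omega), if_pos ⟨rfl, le_rfl, by omega⟩] at g
  simp at g

theorem hst2 {k n : ℕ} {ρ : Res k n} {ω : GW k n} (hE : Ext ρ ω.β ω.ζ) {b : ℕ} (hk : 2 ≤ k)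
    (h : uW ω 0 0 0 b) : ¬ cW ω true 0 1 b := by
  intro hc
  have hi := uidx h
  rw [crn0 hE] at hi
  have g := hc.2
  have hi' : (ω.β (Fin.ofNat (k + 1) 0, Fin.ofNat (k + 1) 1)).symm (Fin.ofNat (n + 1) b) = 0 := hi
  rw [if_pos hi', sp (by omega) (by omega), if_neg (by omega), if_pos ⟨rfl, le_rfl, by omega⟩] at g
  simp at g

end IMc

open IMc in
theorem pr_Mc (hK : G_MK) : G_Mc := by
  intro s ff D N hN n k hn hk
  subst hN
  subst hn
  subst hk
  obtain ⟨ω, hω, hR⟩ := hK s ff D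
  have hk2 : ∀ᶠ i in UU, 2 ≤ s.kk i := by
    refine UU_le ?_
    filter_upwards [s.sc_kk 1] with i hi
    have := s.two_le i
    rw [pow_one] at hi
    omega
  have mk' : ∀ x : MG D, ∃ x' : EL D, x = MG.mk x' := fun x =>
    ⟨Quotient.out x, (Quotient.out_eq x).symm⟩
  have num : ∀ c, (MGS D).num c = MG.mk (EL.const D c) := by
    intro c
    induction c with
    | zero => rfl
    | succ c ih =>
      change (MGS D).succ ((MGS D).num c) = _
      rw [ih, MGS_succ]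
      exact (MG.eq_iff _ _).2 (Filter.Eventually.of_forall fun _ => rfl)
  -- equality of colours
  have key : ∀ x y a x' y' b : EL D,
      (∀ᶠ i in UU, inC (s.kk i) (s.nn i) (x.1 i) (y.1 i) (a.1 i)) →
      (∀ᶠ i in UU, inC (s.kk i) (s.nn i) (x'.1 i) (y'.1 i) (b.1 i)) →
      (∀ᶠ i in UU, ∀ c : Bool, cW (ω i) c (x.1 i) (y.1 i) (a.1 i) →
        cW (ω i) (!c) (x'.1 i) (y'.1 i) (b.1 i) → False) →
      ((MGS D).C (MG.mk x) (MG.mk y) (MG.mk a) ↔ (MGS D).C (MG.mk x') (MG.mk y') (MG.mk b)) := by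
    intro x y a x' y' b h1 h2 h3
    constructor
    · intro h
      by_contra h'
      have g1 := (hR x y a a).2.2.1 h
      have g2 := (hR x' y' b b).2.2.2 h' h2
      exact UU_false (by
        filter_upwards [g1, g2, h3] with i p1 p2 p3
        exact p3 true p1 p2)
    · intro h
      by_contra h'
      have g1 := (hR x' y' b b).2.2.1 h
      have g2 := (hR x y a a).2.2.2 h' h1
      exact UU_false (by
        filter_upwards [g1, g2, h3] with i p1 p2 p3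
        exact p3 false p2 p1)
  refine ⟨?_, ?_, ?_, ?_, ?_, ?_⟩
  · intro x a b h1 h2 h3 h4 h5
    obtain ⟨x, rfl⟩ := mk' x
    obtain ⟨a, rfl⟩ := mk' a
    obtain ⟨b, rfl⟩ := mk' b
    rw [MGS_zero] at h1 h5
    rw [MGS_lt] at h1
    rw [kG, MGS_lt] at h2
    have h5' := (hR _ _ _ _).1.1 h5
    rw [MGS_zero, MGS_succ]
    refine key _ _ _ _ _ _ ?_ ?_ ?_
    · filter_upwards [h1, h2, h5'] with i p1 p2 p3
      have p1' : 0 < x.1 i := p1
      exact ⟨p3.1.le, p3.2.1, p3.2.2.1, Or.inr (Or.inr (Or.inl rfl)), fun h => by omega⟩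
    · filter_upwards [h5'] with i p3
      exact ⟨p3.1, p3.2.1, p3.2.2.2.1, Or.inr (Or.inr (Or.inl rfl)), fun h => by
        have : x.1 i + 1 = 0 := h.1
        omega⟩
    · filter_upwards [h1, h5'] with i p1 p3 c q1 q2
      exact hbot p1 p3 c q1 q2
  · intro x a b h2 h3 h4 h5
    obtain ⟨x, rfl⟩ := mk' x
    obtain ⟨a, rfl⟩ := mk' a
    obtain ⟨b, rfl⟩ := mk' b
    rw [kG] at h5 ⊢
    rw [kG, MGS_lt] at h2
    have h5' := (hR _ _ _ _).1.1 h5
    rw [MGS_succ]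
    refine key _ _ _ _ _ _ ?_ ?_ ?_
    · filter_upwards [hk2, h5'] with i p1 p3
      exact ⟨p3.1.le, p3.2.1, p3.2.2.1, Or.inr (Or.inr (Or.inr rfl)), fun h => by
        have : s.kk i = 0 := h.2
        omega⟩
    · filter_upwards [hk2, h5'] with i p1 p3
      exact ⟨p3.1, p3.2.1, p3.2.2.2.1, Or.inr (Or.inr (Or.inr rfl)), fun h => by
        have : s.kk i = 0 := h.2
        omega⟩
    · filter_upwards [h5'] with i p3 c q1 q2
      exact htop p3 c q1 q2
  · intro y a b h1 h2 h3 h4 h5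
    obtain ⟨y, rfl⟩ := mk' y
    obtain ⟨a, rfl⟩ := mk' a
    obtain ⟨b, rfl⟩ := mk' b
    rw [MGS_zero] at h1 h5
    rw [MGS_lt] at h1
    rw [kG, MGS_lt] at h2
    have h5' := (hR _ _ _ _).2.1.1 h5
    rw [MGS_zero, MGS_succ]
    refine key _ _ _ _ _ _ ?_ ?_ ?_
    · filter_upwards [h1, h2, h5'] with i p1 p2 p3
      have p1' : 0 < y.1 i := p1
      exact ⟨p3.1, p3.2.1.le, p3.2.2.1, Or.inl rfl, fun h => by omega⟩
    · filter_upwards [h5'] with i p3
      exact ⟨p3.1, p3.2.1, p3.2.2.2.1, Or.inl rfl, fun h => by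
        have : y.1 i + 1 = 0 := h.2
        omega⟩
    · filter_upwards [h1, h5'] with i p1 p3 c q1 q2
      exact hleft p1 p3 c q1 q2
  · intro y a b h2 h3 h4 h5
    obtain ⟨y, rfl⟩ := mk' y
    obtain ⟨a, rfl⟩ := mk' a
    obtain ⟨b, rfl⟩ := mk' b
    rw [kG] at h5 ⊢
    rw [kG, MGS_lt] at h2
    have h5' := (hR _ _ _ _).2.1.1 h5
    rw [MGS_succ]
    refine key _ _ _ _ _ _ ?_ ?_ ?_
    · filter_upwards [hk2, h5'] with i p1 p3
      exact ⟨p3.1, p3.2.1.le, p3.2.2.1, Or.inr (Or.inl rfl), fun h => by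
        have : s.kk i = 0 := h.1
        omega⟩
    · filter_upwards [hk2, h5'] with i p1 p3
      exact ⟨p3.1, p3.2.1, p3.2.2.2.1, Or.inr (Or.inl rfl), fun h => by
        have : s.kk i = 0 := h.1
        omega⟩
    · filter_upwards [h5'] with i p3 c q1 q2
      exact hright p3 c q1 q2
  · intro b h1 h2
    obtain ⟨b, rfl⟩ := mk' b
    rw [MGS_zero] at h2 ⊢
    rw [num]
    have h2' := (hR _ _ _ _).1.1 h2
    by_contra h'
    have g2 := (hR _ _ b b).2.2.2 h' (by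
      filter_upwards [hk2, h2'] with i p1 p3
      exact ⟨by show 1 ≤ _; omega, Nat.zero_le _, p3.2.2.2.1, Or.inr (Or.inr (Or.inl rfl)),
        fun h => by
          have : (1 : ℕ) = 0 := h.1
          omega⟩)
    exact UU_false (by
      filter_upwards [g2, hk2, h2'] with i p1 p2 p3
      exact hst1 (hω i).1 p2 p3 p1)
  · intro b h1 h2 h'
    obtain ⟨b, rfl⟩ := mk' b
    rw [MGS_zero] at h2 h'
    rw [num] at h'
    have h2' := (hR _ _ _ _).2.1.1 h2
    have g2 := (hR _ _ b b).2.2.1 h'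
    exact UU_false (by
      filter_upwards [g2, hk2, h2'] with i p1 p2 p3
      exact hst2 (hω i).1 p2 p3 p1)

end Pool.Agent.Work.MP_610017_lc
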