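import Mathlib
import Pool.Agent.Work.MP_610017_lc.GG.I_TD
import Pool.Agent.Work.MP_610017_lc.GG.I_TW
import Pool.Agent.Work.MP_610017_lc.GG.I_TB

/-!
# Block GG, item RF: deciding a formula is a requirement (helper27)
-/

set_option autoImplicit false

namespace Pool.Agent.Work.MP_610017_lc

namespace IRF

open Filter

theorem wit_mono {k n h h' v : ℕ} {ρ : Res k n} {F F' : Finset (Fact k n)} {φ : Gm v}
    {e : Fin v → ℕ} {x : ℕ} (hF : F ⊆ F') (hh : h ≤ h') (hW : Wit ρ F h φ e x) :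
    Wit ρ F' h' φ e x := by
  cases φ with
  | eq s t => trivial
  | le s t => trivial
  | rel s => trivial
  | neg φ => trivial
  | and φ ψ => trivial
  | bex t ψ => exact ⟨hW.1, (pr_TM _ _ _ _ _ _ _ _ ψ ψ _).1 hF hh hW.2⟩
  | ind ψ =>
    exact ⟨hW.1, (pr_TM _ _ _ _ _ _ _ _ ψ ψ _).1 hF hh hW.2.1,
      (pr_TM _ _ _ _ _ _ _ _ ψ ψ _).2.1 hF hh hW.2.2⟩

theorem wit_bd {v : ℕ} (φ : Gm v) (J : ℕ) : ∃ J' : ℕ, ∀ (k n : ℕ) (ρ : Res k n)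
    (F : Finset (Fact k n)) (h b s : ℕ) (e : Fin v → ℕ), 2 ≤ b → 2 ≤ s →
    (∀ j, e j ≤ b ^ (s ^ J)) → ∀ x, Wit ρ F h φ e x →
    ∃ x', x' ≤ b ^ (s ^ J') ∧ Wit ρ F h φ e x' := by
  cases φ with
  | eq s t => exact ⟨0, fun _ _ _ _ _ _ _ _ _ _ _ _ _ => ⟨0, Nat.zero_le _, trivial⟩⟩
  | le s t => exact ⟨0, fun _ _ _ _ _ _ _ _ _ _ _ _ _ => ⟨0, Nat.zero_le _, trivial⟩⟩
  | rel s => exact ⟨0, fun _ _ _ _ _ _ _ _ _ _ _ _ _ => ⟨0, Nat.zero_le _, trivial⟩⟩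
  | neg φ => exact ⟨0, fun _ _ _ _ _ _ _ _ _ _ _ _ _ => ⟨0, Nat.zero_le _, trivial⟩⟩
  | and φ ψ => exact ⟨0, fun _ _ _ _ _ _ _ _ _ _ _ _ _ => ⟨0, Nat.zero_le _, trivial⟩⟩
  | bex t ψ =>
    obtain ⟨J', hJ'⟩ := pr_TB v t J
    exact ⟨J', fun k n ρ F h b s e hb hs he x hx => ⟨x, hx.1.trans (hJ' b s e hb hs he), hx⟩⟩
  | ind ψ => exact ⟨J, fun k n ρ F h b s e hb hs he x hx => ⟨x, hx.1.trans (he 0), hx⟩⟩

end IRF

open IRF Filter in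
theorem pr_RF : G_RF := by
  intro s v φ
  refine ⟨?_, ?_⟩
  · rintro r x F F' ⟨c, hc⟩ hF
    refine ⟨c, ?_⟩
    filter_upwards [hc, hF] with i p1 p2
    rcases p1 with p1 | p1
    · exact Or.inl ⟨(pr_TM _ _ _ _ _ _ _ _ φ φ _).1 p2 le_rfl p1.1, wit_mono p2 le_rfl p1.2⟩
    · exact Or.inr ((pr_TM _ _ _ _ _ _ _ _ φ φ _).2.1 p2 le_rfl p1)
  · intro r F hr hF hS
    choose Jf hJf using hr
    obtain ⟨J, hJ⟩ : ∃ J, ∀ j, Jf j ≤ J :=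
      ⟨Finset.univ.sup Jf, fun j => Finset.le_sup (Finset.mem_univ j)⟩
    obtain ⟨J', hJ'⟩ := wit_bd φ J
    obtain ⟨c, hc⟩ := s.ex v φ J
    obtain ⟨c1, hc1⟩ := hS
    have hr' : ∀ᶠ i in atTop, ∀ j, r j i ≤ (s.nn i + 1) ^ (s.sc i ^ J) := by
      rw [eventually_all]
      intro j
      filter_upwards [hJf j] with i hi
      refine hi.trans (Nat.pow_le_pow_right (Nat.succ_pos _) ?_)
      exact Nat.pow_le_pow_right (by have := s.two_le i; omega) (hJ j)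
    have hbd : ∀ i, (F i).card ≤ s.sc i ^ c1 →
        2 * ((F i).card + 9 * s.sc i ^ c) + 3 ≤ s.sc i ^ (c + c1 + 5) := by
      intro i hi
      have h2 := s.two_le i
      have a1 : 1 ≤ s.sc i ^ c := Nat.one_le_pow _ _ (by omega)
      have a2 : 1 ≤ s.sc i ^ c1 := Nat.one_le_pow _ _ (by omega)
      have a3 : s.sc i ^ c ≤ s.sc i ^ c * s.sc i ^ c1 := Nat.le_mul_of_pos_right _ a2
      have a4 : s.sc i ^ c1 ≤ s.sc i ^ c * s.sc i ^ c1 := Nat.le_mul_of_pos_left _ a1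
      calc 2 * ((F i).card + 9 * s.sc i ^ c) + 3 ≤ s.sc i ^ c * s.sc i ^ c1 * 2 ^ 5 := by omega
        _ ≤ s.sc i ^ c * s.sc i ^ c1 * s.sc i ^ 5 :=
            Nat.mul_le_mul_left _ (Nat.pow_le_pow_left h2 5)
        _ = _ := by rw [← pow_add, ← pow_add]
    have key : ∀ i, ∃ p : Finset (Fact (s.kk i) (s.nn i)) × ℕ, F i ⊆ p.1 ∧
        (∀ f ∈ p.1, Valid f) ∧ Con (s.ρ i) p.1 ∧
        (((∀ j, r j i ≤ (s.nn i + 1) ^ (s.sc i ^ J)) ∧ 1 ≤ i ∧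
          (∃ T, Rep (s.ρ i) (s.sc i ^ c) φ (fun j => r j i) T) ∧
          2 * ((F i).card + 9 * s.sc i ^ c) + 3 ≤ s.kk i ∧
          (F i).card + 9 * s.sc i ^ c + 3 ≤ (s.ρ i).I.card) →
          p.1.card ≤ (F i).card + 9 * s.sc i ^ c ∧ p.2 ≤ (s.nn i + 1) ^ (s.sc i ^ J') ∧
          ((Tru (s.ρ i) p.1 (s.sc i ^ c) φ (fun j => r j i) ∧
            Wit (s.ρ i) p.1 (s.sc i ^ c) φ (fun j => r j i) p.2) ∨
          Fls (s.ρ i) p.1 (s.sc i ^ c) φ (fun j => r j i))) := by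
      intro i
      by_cases hA : ((∀ j, r j i ≤ (s.nn i + 1) ^ (s.sc i ^ J)) ∧ 1 ≤ i ∧
          (∃ T, Rep (s.ρ i) (s.sc i ^ c) φ (fun j => r j i) T) ∧
          2 * ((F i).card + 9 * s.sc i ^ c) + 3 ≤ s.kk i ∧
          (F i).card + 9 * s.sc i ^ c + 3 ≤ (s.ρ i).I.card)
      · obtain ⟨b1, b2, ⟨T, b3⟩, b4, b5⟩ := hA
        obtain ⟨F', d1, d2, d3, d4, d5⟩ := (pr_TD _ _ (s.ρ i) (F i) (s.sc i ^ c) (hF.valid i)
          (hF.con i) b4 b5).2 v φ (fun j => r j i) T b3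
        rcases d5 with d5 | d5
        · obtain ⟨x, hx⟩ := pr_TW _ _ (s.ρ i) F' _ v φ _ d4 d5
          obtain ⟨x', hx1, hx2⟩ := hJ' _ _ (s.ρ i) F' _ (s.nn i + 1) (s.sc i) _
            (by have := s.le_nn i; omega) (s.two_le i) b1 x hx
          exact ⟨(F', x'), d1, d3, d4, fun _ => ⟨d2, hx1, Or.inl ⟨d5, hx2⟩⟩⟩
        · exact ⟨(F', 0), d1, d3, d4, fun _ => ⟨d2, Nat.zero_le _, Or.inr d5⟩⟩
      · exact ⟨(F i, 0), Finset.Subset.refl _, hF.valid i, hF.con i, fun h => absurd h hA⟩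
    choose p h1 h2 h3 h4 using key
    have good : ∀ᶠ i in atTop, (p i).1.card ≤ (F i).card + 9 * s.sc i ^ c ∧
        (p i).2 ≤ (s.nn i + 1) ^ (s.sc i ^ J') ∧
          ((Tru (s.ρ i) (p i).1 (s.sc i ^ c) φ (fun j => r j i) ∧
            Wit (s.ρ i) (p i).1 (s.sc i ^ c) φ (fun j => r j i) (p i).2) ∨
          Fls (s.ρ i) (p i).1 (s.sc i ^ c) φ (fun j => r j i)) := by
      filter_upwards [hr', hc, hc1, eventually_ge_atTop 1, s.sc_kk (c + c1 + 5),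
        s.sc_I (c + c1 + 5)] with i q1 q2 q3 q4 q5 q6
      have q7 := hbd i q3
      exact h4 i ⟨q1, q4, q2 _ q1, by omega, by omega⟩
    refine ⟨fun i => (p i).2, fun i => (p i).1, ⟨J', good.mono fun i hi => hi.2.1⟩,
      ⟨h2, h3⟩, ⟨c + c1 + 5, ?_⟩, h1, ⟨c, good.mono fun i hi => hi.2.2⟩⟩
    filter_upwards [good, hc1] with i q1 q2
    have q3 := hbd i q2
    have q4 := q1.1
    omega

end Pool.Agent.Work.MP_610017_lc
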